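import Pool.Agent.Lib.SmL.V.EDefs
import Pool.Agent.Lib.TTC.H.FF

/-!
# SMITH-L block E, module Act: the Galois action on the points of an elliptic curve
-/

set_option autoImplicit false

open WeierstrassCurve
open scoped WeierstrassCurve.Affine

namespace Pool.Agent.SmL.E

open Pool.Agent.SmJ.L (GMod)

section act

variable {K Ω : Type} [Field K] [Field Ω] [DecidableEq Ω] [Algebra K Ω] (W : WeierstrassCurve K)

/-- The action of `Gal(Ω/K)` on `W(Ω)`. -/
noncomputable def gE (s : Ω ≃ₐ[K] Ω) : (W⁄Ω).Point →+ (W⁄Ω).Point :=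
  Affine.Point.map (s : Ω →ₐ[K] Ω)

variable {W}

theorem gE_zero (s : Ω ≃ₐ[K] Ω) : gE W s 0 = 0 := map_zero _

omit [DecidableEq Ω] in
theorem ns_act (s : Ω ≃ₐ[K] Ω) {x y : Ω} (h : (W⁄Ω).Nonsingular x y) :
    (W⁄Ω).Nonsingular (s x) (s y) :=
  (W.toAffine.baseChange_nonsingular (s : Ω →ₐ[K] Ω).injective x y).mpr h

theorem gE_some (s : Ω ≃ₐ[K] Ω) {x y : Ω} (h : (W⁄Ω).Nonsingular x y) :
    gE W s (.some x y h) = .some (s x) (s y) (ns_act s h) := rfl

theorem gE_some' (s : Ω ≃ₐ[K] Ω) {x y : Ω} (h : (W⁄Ω).Nonsingular x y) :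
    ∃ h', gE W s (.some x y h) = .some (s x) (s y) h' := ⟨_, gE_some s h⟩

theorem gE_one (P : (W⁄Ω).Point) : gE W 1 P = P := by
  rcases P with _ | ⟨x, y, h⟩
  · rfl
  · rfl

theorem gE_mul (s t : Ω ≃ₐ[K] Ω) (P : (W⁄Ω).Point) : gE W (s * t) P = gE W s (gE W t P) := by
  rcases P with _ | ⟨x, y, h⟩
  · rfl
  · rfl

theorem gE_gmod [Algebra.IsAlgebraic K Ω] : GMod (gE (Ω := Ω) W) where
  one := gE_one
  mul := gE_mul
  level P := by
    rcases P with _ | ⟨x, y, h⟩
    · exact ⟨⊥, inferInstance, fun _ _ _ => rfl⟩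
    · refine ⟨IntermediateField.adjoin K {x, y}, ?_, fun s t hst => ?_⟩
      · refine IntermediateField.finiteDimensional_adjoin fun z _ => ?_
        exact (Algebra.IsAlgebraic.isAlgebraic z).isIntegral
      · rw [gE_some, gE_some, Affine.Point.some.injEq]
        exact ⟨hst x (IntermediateField.subset_adjoin _ _ (Or.inl rfl)),
          hst y (IntermediateField.subset_adjoin _ _ (Or.inr rfl))⟩

/-- The `n`-torsion is stable. -/
theorem gE_tors (s : Ω ≃ₐ[K] Ω) {n : ℕ} {P : (W⁄Ω).Point} (h : n • P = 0) :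
    n • gE W s P = 0 := by
  rw [← map_nsmul, h, map_zero]

end act

end Pool.Agent.SmL.E
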