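import Pool.Agent.Lib.SmL.E.Mp

/-!
# SMITH-L block E, module Near: integral points, points near to each other

`w` a valuation ring of `F`, `W : y ^ 2 = f(x)` with coefficients in `w`. `EE W w` = the points with
`x ∉ w`, and `O`.

(a) `int_of_tors`: let `W₀` be the curve over `w` with `W₀.map w.subtype = W`. By `mp_map` the
polynomial `B = (mp W n).2` has coefficients in `w`, degree at most `n ^ 2 - 1` and the coefficient
`n ^ 2`, a unit. By `nsmul_eq_zero_iff` `B(x) = 0`; if `x ∉ w` then
`|B(x)| = |x| ^ (n ^ 2 - 1) ≠ 0`. `y ^ 2 = f(x) ∈ w`, so `y ∈ w`.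
(b) `bez`: the discriminant is a combination of `f` and `f'` with coefficients in `ℤ[a₂, a₄, a₆, x]`
(`Δ = 16 disc f`; find the two polynomials with a computer algebra system or by linear algebra,
`linear_combination` / `ring`).
(c) `near`, with `ρ = |Δ| ≤ 1`: let `x' ≠ x`. The slope through `(x', y')` and `- (x, y) = (x, - y)` is
`s = (y' + y) / (x' - x)`. If `ρ ≤ |f(x)| = |y| ^ 2` then `ρ ≤ |y|` and `|y' + y| = |2 y + (y' - y)| = |y|`, so
`|s| > 1`. If `ρ ≤ |f'(x)|`: `(f(x') - f(x)) / (x' - x) = f'(x) + (x' - x) c`, `c ∈ w`, has the absolute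
value `|f'(x)|`, so it is not `0`, `y' ≠ ± y` and `s = ((f(x') - f(x)) / (x' - x)) / (y' - y)` has
`|s| > 1`. So `x(P' - P) = s ^ 2 - a₂ - x - x' ∉ w`. If `x' = x`: `y' = ± y`; `y' = y`: `O`. `y' = - y ≠ y`:
`|y| = |y' - y| < ρ`, so `ρ ≤ |f'(x)|` and `P' - P = - 2 P` has `x = (f'(x) / (2 y)) ^ 2 - a₂ - 2 x ∉ w`.
(d) `eq_of_near`: if moreover `n P' = n P = O`, `n` a unit of `w`, then `P' = P`, by `near` and
`int_of_tors` for `P' - P`.
-/

set_option autoImplicit false

open Polynomial WeierstrassCurve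
open scoped WeierstrassCurve.Affine

namespace Pool.Agent.SmL.E

variable {F : Type} [Field F] [DecidableEq F] (W : WeierstrassCurve F) (w : ValuationSubring F)

/-- The points whose `x`-coordinate is not integral, and `O`. -/
def EE : Set W.toAffine.Point :=
  {P | P = 0 ∨ ∃ (x y : F) (h : W.toAffine.Nonsingular x y), P = .some x y h ∧ x ∉ w}

/-- The coefficients are in `w`. -/
structure IntC : Prop where
  h1 : W.a₁ = 0
  h3 : W.a₃ = 0
  h2 : w.valuation (2 : F) = 1
  m2 : W.a₂ ∈ w
  m4 : W.a₄ ∈ w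
  m6 : W.a₆ ∈ w

variable {W w}

omit [DecidableEq F] in
theorem IntC.two_ne (h : IntC W w) : (2 : F) ≠ 0 := by
  intro h0
  have := h.h2
  rw [h0, map_zero] at this
  exact zero_ne_one this

omit [DecidableEq F] in
private theorem Near_eq (hI : IntC W w) {x y : F} (h : W.toAffine.Nonsingular x y) :
    y ^ 2 = x ^ 3 + W.a₂ * x ^ 2 + W.a₄ * x + W.a₆ := by
  have h5 := (Affine.equation_iff x y).1 h.1
  rw [hI.h1, hI.h3] at h5
  linear_combination h5

/-- **Prime-to-`p` torsion points are integral.** -/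
theorem int_of_tors [W.IsElliptic] (hI : IntC W w) {n : ℕ} (hn : w.valuation (n : F) = 1) {x y : F}
    (h : W.toAffine.Nonsingular x y) (e : n • Affine.Point.some x y h = 0) : x ∈ w ∧ y ∈ w := by
  -- the curve over `w`
  let W₀ : WeierstrassCurve w := ⟨0, ⟨W.a₂, hI.m2⟩, 0, ⟨W.a₄, hI.m4⟩, ⟨W.a₆, hI.m6⟩⟩
  have hW : W₀.map w.subtype = W := by
    ext
    · exact hI.h1.symm
    · rfl
    · exact hI.h3.symm
    · rfl
    · rfl
  have hBx : (mp W n).2.eval x = 0 := (nsmul_eq_zero_iff W hI.h1 hI.h3 hI.two_ne n h).1 e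
  have hmap : (mp W n).2 = (mp W₀ n).2.map w.subtype := by
    have h5 := mp_map W₀ w.subtype n
    rw [hW] at h5
    rw [h5]
  rw [hmap] at hBx
  obtain ⟨-, -, hdeg, hcoef⟩ := mp_deg W₀ n
  -- `n` is a unit of `w`
  have hnw : w.valuation (((n : w) : F)) = 1 := by
    rw [show (((n : w)) : F) = (n : F) from map_natCast w.subtype n]
    exact hn
  have hu : IsUnit (n : w) := by
    exact (w.valuation_eq_one_iff _).2 hnw
  obtain ⟨u, hu⟩ := hu.pow 2
  have hmon : (C (↑u⁻¹ : w) * (mp W₀ n).2).Monic := by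
    refine monic_of_natDegree_le_of_coeff_eq_one (n ^ 2 - 1) ((natDegree_C_mul_le _ _).trans hdeg) ?_
    rw [coeff_C_mul, hcoef, ← hu, Units.inv_mul]
  have hint : IsIntegral w x := by
    refine ⟨C (↑u⁻¹ : w) * (mp W₀ n).2, hmon, ?_⟩
    rw [eval₂_mul]
    have h5 : eval₂ (algebraMap w F) x (mp W₀ n).2 = 0 := by
      rw [← hBx, eval_map]
      rfl
    rw [h5, mul_zero]
  have hxw : x ∈ w := by
    obtain ⟨z, hz⟩ := IsIntegrallyClosed.isIntegral_iff.1 hint
    rw [← hz]
    exact z.2
  refine ⟨hxw, ?_⟩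
  rw [← w.valuation_le_one_iff]
  have hy2 : w.valuation y ^ 2 ≤ 1 := by
    rw [← map_pow, w.valuation_le_one_iff, Near_eq hI h]
    exact add_mem (add_mem (add_mem (pow_mem hxw 3) (mul_mem hI.m2 (pow_mem hxw 2)))
      (mul_mem hI.m4 hxw)) hI.m6
  exact (pow_le_one_iff two_ne_zero).1 hy2

omit [DecidableEq F] in
theorem bez (hI : IntC W w) {x : F} (hx : x ∈ w) :
    w.valuation W.Δ ≤ w.valuation (x ^ 3 + W.a₂ * x ^ 2 + W.a₄ * x + W.a₆) ∨
      w.valuation W.Δ ≤ w.valuation (3 * x ^ 2 + 2 * W.a₂ * x + W.a₄) := by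
  set f : F := x ^ 3 + W.a₂ * x ^ 2 + W.a₄ * x + W.a₆ with hf
  set f' : F := 3 * x ^ 2 + 2 * W.a₂ * x + W.a₄ with hf'
  have hcst : ∀ m : ℕ, (m : F) ∈ w := fun m => natCast_mem w m
  have e1 : W.Δ = (16 * ((15 * (W.a₂ * W.a₄) - 4 * W.a₂ ^ 3 - 27 * W.a₆) -
        6 * ((W.a₂ ^ 2 - 3 * W.a₄) * x))) * f +
      (16 * ((W.a₂ ^ 2 * W.a₄ + 3 * (W.a₂ * W.a₆) - 4 * W.a₄ ^ 2) +
        (2 * W.a₂ ^ 3 - 7 * (W.a₂ * W.a₄) + 9 * W.a₆) * x +
          2 * ((W.a₂ ^ 2 - 3 * W.a₄) * x ^ 2))) * f' := by
    rw [hf, hf', WeierstrassCurve.Δ, WeierstrassCurve.b₂, WeierstrassCurve.b₄,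
      WeierstrassCurve.b₆, WeierstrassCurve.b₈, hI.h1, hI.h3]
    ring
  have c2 : (2 : F) ∈ w := by exact_mod_cast hcst 2
  have c3 : (3 : F) ∈ w := by exact_mod_cast hcst 3
  have c4 : (4 : F) ∈ w := by exact_mod_cast hcst 4
  have c6 : (6 : F) ∈ w := by exact_mod_cast hcst 6
  have c7 : (7 : F) ∈ w := by exact_mod_cast hcst 7
  have c9 : (9 : F) ∈ w := by exact_mod_cast hcst 9
  have c15 : (15 : F) ∈ w := by exact_mod_cast hcst 15
  have c16 : (16 : F) ∈ w := by exact_mod_cast hcst 16
  have c27 : (27 : F) ∈ w := by exact_mod_cast hcst 27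
  have m1 := hI.m2
  have m2 := hI.m4
  have m3 := hI.m6
  have hA : 16 * ((15 * (W.a₂ * W.a₄) - 4 * W.a₂ ^ 3 - 27 * W.a₆) -
      6 * ((W.a₂ ^ 2 - 3 * W.a₄) * x)) ∈ w :=
    mul_mem c16 (sub_mem (sub_mem (sub_mem (mul_mem c15 (mul_mem m1 m2))
      (mul_mem c4 (pow_mem m1 3))) (mul_mem c27 m3))
      (mul_mem c6 (mul_mem (sub_mem (pow_mem m1 2) (mul_mem c3 m2)) hx)))
  have hB : 16 * ((W.a₂ ^ 2 * W.a₄ + 3 * (W.a₂ * W.a₆) - 4 * W.a₄ ^ 2) +
        (2 * W.a₂ ^ 3 - 7 * (W.a₂ * W.a₄) + 9 * W.a₆) * x +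
          2 * ((W.a₂ ^ 2 - 3 * W.a₄) * x ^ 2)) ∈ w :=
    mul_mem c16 (add_mem (add_mem (sub_mem (add_mem (mul_mem (pow_mem m1 2) m2)
      (mul_mem c3 (mul_mem m1 m3))) (mul_mem c4 (pow_mem m2 2)))
      (mul_mem (add_mem (sub_mem (mul_mem c2 (pow_mem m1 3)) (mul_mem c7 (mul_mem m1 m2)))
        (mul_mem c9 m3)) hx)) (mul_mem c2 (mul_mem (sub_mem (pow_mem m1 2) (mul_mem c3 m2))
          (pow_mem hx 2))))
  rw [← w.valuation_le_one_iff] at hA hB
  have h5 : w.valuation W.Δ ≤ max (w.valuation f) (w.valuation f') := by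
    rw [e1]
    refine (w.valuation.map_add _ _).trans (max_le_max ?_ ?_)
    · rw [map_mul]
      exact mul_le_of_le_one_left' hA
    · rw [map_mul]
      exact mul_le_of_le_one_left' hB
  exact le_max_iff.1 h5

/-- **Points near to each other.** -/
theorem near (hI : IntC W w) {x y x' y' : F} (h : W.toAffine.Nonsingular x y)
    (h' : W.toAffine.Nonsingular x' y') (hx : x ∈ w) (hx' : x' ∈ w)
    (dx : w.valuation (x' - x) < w.valuation W.Δ) (dy : w.valuation (y' - y) < w.valuation W.Δ) :
    Affine.Point.some x' y' h' - Affine.Point.some x y h ∈ EE W w := by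
  have hv := w.valuation.map_add
  have hf := Near_eq hI h
  have hf' := Near_eq hI h'
  have hneg : ∀ a b : F, W.toAffine.negY a b = -b := by
    intro a b
    rw [Affine.negY, hI.h1, hI.h3]
    ring
  have hρ0 : 0 < w.valuation W.Δ := lt_of_le_of_lt zero_le dx
  -- the two cases
  have hyw : y ∈ w := by
    rw [← w.valuation_le_one_iff]
    have hy2 : w.valuation y ^ 2 ≤ 1 := by
      rw [← map_pow, w.valuation_le_one_iff, hf]
      exact add_mem (add_mem (add_mem (pow_mem hx 3) (mul_mem hI.m2 (pow_mem hx 2)))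
        (mul_mem hI.m4 hx)) hI.m6
    exact (pow_le_one_iff two_ne_zero).1 hy2
  have hcase : w.valuation W.Δ ≤ w.valuation y ∨
      w.valuation W.Δ ≤ w.valuation (3 * x ^ 2 + 2 * W.a₂ * x + W.a₄) := by
    rcases bez hI hx with h5 | h5
    · left
      rw [← hf, map_pow, pow_two] at h5
      exact h5.trans (mul_le_of_le_one_left' ((w.valuation_le_one_iff y).2 hyw))
    · exact Or.inr h5
  have h2y : w.valuation (2 * y) = w.valuation y := by
    rw [map_mul, hI.h2, one_mul]
  by_cases heq : x' = x ∧ y' = y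
  · obtain ⟨rfl, rfl⟩ := heq
    left
    exact sub_self _
  · have hxy : ¬(x' = x ∧ y' = W.toAffine.negY x (W.toAffine.negY x y)) := by
      rw [Affine.negY_negY]
      exact heq
    right
    refine ⟨_, _, W.toAffine.nonsingular_add h' ((Affine.nonsingular_neg ..).mpr h) hxy, ?_, ?_⟩
    · rw [sub_eq_add_neg, Affine.Point.neg_some, Affine.Point.add_some hxy]
    · -- the slope
      have hs : 1 < w.valuation (W.toAffine.slope x' x y' (W.toAffine.negY x y)) := by
        by_cases hxx : x' = x
        · have hyy : y' ≠ y := fun h5 => heq ⟨hxx, h5⟩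
          have hyy' : y' ≠ W.toAffine.negY x (W.toAffine.negY x y) := by
            rw [Affine.negY_negY]
            exact hyy
          have hym : y' = -y := by
            have h5 : (y' - y) * (y' + y) = 0 := by
              have : y' ^ 2 = y ^ 2 := by rw [hf, hf', hxx]
              linear_combination this
            rcases mul_eq_zero.1 h5 with h6 | h6
            · exact absurd (sub_eq_zero.1 h6) hyy
            · exact eq_neg_of_add_eq_zero_left h6
          have hvy : w.valuation y < w.valuation W.Δ := by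
            have h5 : y' - y = -(2 * y) := by rw [hym]; ring
            rw [h5, Valuation.map_neg, h2y] at dy
            exact dy
          have hB : w.valuation W.Δ ≤ w.valuation (3 * x ^ 2 + 2 * W.a₂ * x + W.a₄) :=
            hcase.resolve_left (not_le.2 hvy)
          rw [Affine.slope_of_Y_ne hxx hyy', hneg, hxx, hI.h1, zero_mul, sub_zero, hym,
            show -y - - -y = -(2 * y) by ring, map_div₀, Valuation.map_neg, h2y]
          have hy0 : y ≠ 0 := by
            rintro rfl
            exact hyy (by rw [hym, neg_zero])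
          have hvy0 : 0 < w.valuation y := zero_lt_iff.2 ((Valuation.ne_zero_iff _).2 hy0)
          rw [one_lt_div₀ hvy0]
          exact lt_of_lt_of_le hvy hB
        · rw [Affine.slope_of_X_ne hxx, hneg, sub_neg_eq_add, map_div₀]
          have hd0 : x' - x ≠ 0 := sub_ne_zero.2 hxx
          have hvd0 : 0 < w.valuation (x' - x) := zero_lt_iff.2 ((Valuation.ne_zero_iff _).2 hd0)
          rw [one_lt_div₀ hvd0]
          rcases hcase with hA | hB
          · have h5 : y' + y = 2 * y + (y' - y) := by ring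
            have h6 : w.valuation (y' - y) < w.valuation (2 * y) := by
              rw [h2y]
              exact lt_of_lt_of_le dy hA
            rw [h5, Valuation.map_add_eq_of_lt_left _ h6, h2y]
            exact lt_of_lt_of_le dx hA
          · -- the difference quotient
            set f' : F := 3 * x ^ 2 + 2 * W.a₂ * x + W.a₄ with hfd
            set c : F := (x' - x) * (3 * x + (x' - x) + W.a₂) with hc
            have hprod : (y' - y) * (y' + y) = (x' - x) * (f' + c) := by
              have h5 : (y' - y) * (y' + y) = y' ^ 2 - y ^ 2 := by ring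
              rw [h5, hf, hf', hc, hfd]
              ring
            have hc1 : w.valuation c < w.valuation f' := by
              have h3 : (3 : F) ∈ w := by exact_mod_cast natCast_mem w 3
              have h6 : w.valuation (3 * x + (x' - x) + W.a₂) ≤ 1 := by
                rw [w.valuation_le_one_iff]
                exact add_mem (add_mem (mul_mem h3 hx) (sub_mem hx' hx)) hI.m2
              rw [hc, map_mul]
              exact lt_of_le_of_lt (mul_le_of_le_one_right' h6) (lt_of_lt_of_le dx hB)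
            have hcf : w.valuation (f' + c) = w.valuation f' :=
              Valuation.map_add_eq_of_lt_left _ hc1
            have h7 := congrArg w.valuation hprod
            rw [map_mul, map_mul, hcf] at h7
            have hf0 : 0 < w.valuation f' := lt_of_lt_of_le hρ0 hB
            by_contra hcon
            push Not at hcon
            have h8 : w.valuation (y' - y) < w.valuation f' := lt_of_lt_of_le dy hB
            have h9 : w.valuation (y' - y) * w.valuation (y' + y) <
                w.valuation (x' - x) * w.valuation f' := by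
              calc w.valuation (y' - y) * w.valuation (y' + y)
                  ≤ w.valuation (y' - y) * w.valuation (x' - x) := mul_le_mul_right hcon _
                _ = w.valuation (x' - x) * w.valuation (y' - y) := mul_comm _ _
                _ < w.valuation (x' - x) * w.valuation f' := mul_lt_mul_of_pos_left h8 hvd0
            rw [h7] at h9
            exact lt_irrefl _ h9
      -- the `x`-coordinate
      intro hmem
      rw [Affine.addX, hI.h1, zero_mul, add_zero] at hmem
      have h5 : W.toAffine.slope x' x y' (W.toAffine.negY x y) ^ 2 ∈ w := by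
        have h6 := add_mem (add_mem (add_mem hmem hx) hx') hI.m2
        convert h6 using 1
        ring
      rw [← w.valuation_le_one_iff, map_pow] at h5
      exact absurd ((pow_le_one_iff two_ne_zero).1 h5) (not_le.2 hs)

/-- No torsion in `EE`. -/
theorem eq_zero_of_EE [W.IsElliptic] (hI : IntC W w) {n : ℕ} (hn : w.valuation (n : F) = 1)
    {P : W.toAffine.Point} (hP : P ∈ EE W w) (e : n • P = 0) : P = 0 := by
  rcases hP with h0 | ⟨x, y, h, rfl, hx⟩
  · exact h0
  · exact absurd (int_of_tors hI hn h e).1 hx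

theorem eq_of_near [W.IsElliptic] (hI : IntC W w) {n : ℕ} (hn : w.valuation (n : F) = 1)
    {x y x' y' : F} (h : W.toAffine.Nonsingular x y) (h' : W.toAffine.Nonsingular x' y')
    (e : n • Affine.Point.some x y h = 0) (e' : n • Affine.Point.some x' y' h' = 0)
    (dx : w.valuation (x' - x) < w.valuation W.Δ) (dy : w.valuation (y' - y) < w.valuation W.Δ) :
    x' = x ∧ y' = y := by
  have h1 := near hI h h' (int_of_tors hI hn h e).1 (int_of_tors hI hn h' e').1 dx dy
  have h2 : n • (Affine.Point.some x' y' h' - Affine.Point.some x y h) = 0 := by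
    rw [smul_sub, e, e', sub_zero]
  have h3 := eq_zero_of_EE hI hn h1 h2
  have h4 := sub_eq_zero.1 h3
  simpa using h4

end Pool.Agent.SmL.E
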