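import Pool.Agent.Lib.SmL.E.Sep
import Pool.Agent.Lib.SmL.E.Near

/-!
# SMITH-L block E, module Big: the points with non-integral `x` are uniquely divisible

`F` separably closed, `n` odd, `|n| = 1`, `P = (a, b)` with `a ∉ w`, `N = n ^ 2`, `G = A - a B` (monic of degree
`N`, `A`, `B` with coefficients in `w`, see `Near`). `f(a) ≠ 0` (otherwise `a` is integral), so `G` is
separable (`fib_separable`) and splits over `F`.
Existence: the coefficient of `X ^ (N - 1)` of `G` is `α - a N`, `α ∈ w`, not in `w`; if all the roots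
were in `w` then `G` (the product of the `X - x_i`) would have all its coefficients in `w`. So there is
a root `x ∉ w`; as in `Sep` there is a `y` with `n (x, y) = P`.
Uniqueness: `z = 1 / x` is a root of `H(Z) = a⁻¹ Z ^ N G(1 / Z)`, a polynomial with coefficients in `w`
whose linear coefficient `(α - a N) / a` is a unit and whose constant coefficient is `a⁻¹` in the maximal
ideal `m`. Two roots `z ≠ z'` in `m` give `0 = (H(z) - H(z')) / (z - z') ≡ H'(0) ≢ 0` modulo `m`.
So `x' = x` and `y' = ± y`; `y' = - y` gives `P = - P`, `b = 0`, `f(a) = 0`.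
-/

set_option autoImplicit false

open Polynomial WeierstrassCurve
open scoped WeierstrassCurve.Affine

namespace Pool.Agent.SmL.E

variable {F : Type} [Field F] [DecidableEq F] {W : WeierstrassCurve F} {w : ValuationSubring F}

omit [DecidableEq F] in
private theorem Big_f_ne (hI : IntC W w) {a : F} (ha : a ∉ w) :
    a ^ 3 + W.a₂ * a ^ 2 + W.a₄ * a + W.a₆ ≠ 0 := by
  intro h0
  apply ha
  have hint : IsIntegral w a := by
    refine ⟨X ^ 3 + C ⟨W.a₂, hI.m2⟩ * X ^ 2 + C ⟨W.a₄, hI.m4⟩ * X + C ⟨W.a₆, hI.m6⟩, ?_, ?_⟩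
    · monicity!
    · simp only [eval₂_add, eval₂_mul, eval₂_pow, eval₂_X, eval₂_C]
      exact h0
  obtain ⟨y, hy⟩ := (IsIntegrallyClosed.isIntegral_iff (R := w) (K := F)).1 hint
  rw [← hy]
  exact y.2

private noncomputable def Big_W0 (hI : IntC W w) : WeierstrassCurve w :=
  ⟨0, ⟨W.a₂, hI.m2⟩, 0, ⟨W.a₄, hI.m4⟩, ⟨W.a₆, hI.m6⟩⟩

omit [DecidableEq F] in
private theorem Big_W0_map (hI : IntC W w) : (Big_W0 hI).map w.subtype = W := by
  ext
  · simp [Big_W0, hI.h1]
  · simp [Big_W0]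
  · simp [Big_W0, hI.h3]
  · simp [Big_W0]
  · simp [Big_W0]

omit [DecidableEq F] in
private theorem Big_mp (hI : IntC W w) (n : ℕ) :
    mp W n = ((mp (Big_W0 hI) n).1.map w.subtype, (mp (Big_W0 hI) n).2.map w.subtype) := by
  conv_lhs => rw [← Big_W0_map hI]
  exact mp_map _ _ n

omit [DecidableEq F] in
private theorem Big_inv {x : F} (hx : x ∉ w) : ∃ z : w, (z : F) = x⁻¹ ∧
    z ∈ IsLocalRing.maximalIdeal w := by
  have h1 : x⁻¹ ∈ w := (w.mem_or_inv_mem x).resolve_left hx
  refine ⟨⟨x⁻¹, h1⟩, rfl, ?_⟩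
  rw [ValuationSubring.valuation_lt_one_iff]
  change w.valuation x⁻¹ < 1
  rw [← ValuationSubring.valuation_le_one_iff, not_le] at hx
  rw [map_inv₀]
  exact inv_lt_one_of_one_lt₀ hx

omit [DecidableEq F] in
private theorem Big_uniq {N : ℕ} (hN : 1 ≤ N) {ε : w} (hε : ε ∈ IsLocalRing.maximalIdeal w)
    {A₀ B₀ : w[X]} (hA : A₀.natDegree ≤ N) (hB : B₀.natDegree ≤ N)
    (hu : IsUnit (B₀.coeff (N - 1))) {x x' : F} (hx : x ∉ w) (hx' : x' ∉ w)
    (e : eval₂ w.subtype x (C ε * A₀ - B₀) = 0) (e' : eval₂ w.subtype x' (C ε * A₀ - B₀) = 0) :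
    x = x' := by
  set G₀ : w[X] := C ε * A₀ - B₀ with hG
  have hd : G₀.natDegree ≤ N := by
    refine (natDegree_sub_le _ _).trans (max_le ?_ hB)
    exact (natDegree_C_mul_le _ _).trans hA
  set H : w[X] := reflect N G₀ with hH
  have key : ∀ x : F, x ∉ w → eval₂ w.subtype x G₀ = 0 →
      ∃ z : w, (z : F) = x⁻¹ ∧ z ∈ IsLocalRing.maximalIdeal w ∧ H.eval z = 0 := by
    intro x hx e
    obtain ⟨z, hz, hm⟩ := Big_inv hx
    have hx0 : x ≠ 0 := by
      rintro rfl
      exact hx w.zero_mem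
    refine ⟨z, hz, hm, ?_⟩
    have : Invertible x := invertibleOfNonzero hx0
    have h1 := eval₂_reflect_mul_pow w.subtype x N G₀ hd
    rw [e, invOf_eq_inv] at h1
    have h2 : eval₂ w.subtype x⁻¹ H = 0 :=
      (mul_eq_zero.1 h1).resolve_right (pow_ne_zero _ hx0)
    have h3 : w.subtype (H.eval z) = eval₂ w.subtype (w.subtype z) H := (eval₂_at_apply _ _).symm
    have h4 : w.subtype z = x⁻¹ := hz
    rw [h4, h2] at h3
    have h5 : ((H.eval z : w) : F) = 0 := h3
    exact_mod_cast h5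
  obtain ⟨z, hz, hm, hev⟩ := key x hx e
  obtain ⟨z', hz', hm', hev'⟩ := key x' hx' e'
  set K : w[X] := H.divX.divX with hK
  have hform : ∀ t : w, H.eval t = (K.eval t * t + H.coeff 1) * t + H.coeff 0 := by
    intro t
    have h1 := divX_mul_X_add H
    have h2 := divX_mul_X_add H.divX
    conv_lhs => rw [← h1, ← h2]
    simp [hK]
  have hc1 : H.coeff 1 ∉ IsLocalRing.maximalIdeal w := by
    intro h1
    have h2 : H.coeff 1 = ε * A₀.coeff (N - 1) - B₀.coeff (N - 1) := by
      rw [hH, coeff_reflect, revAt_le hN, hG, coeff_sub, coeff_C_mul]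
    have h3 : B₀.coeff (N - 1) = ε * A₀.coeff (N - 1) - H.coeff 1 := by rw [h2]; ring
    have h4 : B₀.coeff (N - 1) ∈ IsLocalRing.maximalIdeal w := by
      rw [h3]
      exact sub_mem (Ideal.mul_mem_right _ _ hε) h1
    exact (IsLocalRing.mem_maximalIdeal _).1 h4 hu
  obtain ⟨L, hL⟩ := sub_dvd_eval_sub z z' K
  rw [hform] at hev hev'
  have hprod : (z - z') * (H.coeff 1 + (K.eval z * (z + z') + L * z' ^ 2)) = 0 := by
    linear_combination hev - hev' - z' ^ 2 * hL
  have hne : H.coeff 1 + (K.eval z * (z + z') + L * z' ^ 2) ≠ 0 := by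
    intro h0
    apply hc1
    have h1 : H.coeff 1 = -(K.eval z * (z + z') + L * z' ^ 2) := eq_neg_of_add_eq_zero_left h0
    rw [h1]
    refine neg_mem (add_mem (Ideal.mul_mem_left _ _ (add_mem hm hm')) (Ideal.mul_mem_left _ _ ?_))
    rw [pow_two]
    exact Ideal.mul_mem_left _ _ hm'
  have hzz : z = z' := sub_eq_zero.1 ((mul_eq_zero.1 hprod).resolve_right hne)
  have h6 : x⁻¹ = x'⁻¹ := by rw [← hz, ← hz', hzz]
  exact inv_injective h6

omit [DecidableEq F] in
private theorem Big_root (hI : IntC W w) {n : ℕ} (hn : w.valuation (n : F) = 1) {a : F}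
    (ha : a ∉ w) {x x' : F} (hx : x ∉ w) (hx' : x' ∉ w)
    (e : (mp W n).1.eval x = a * (mp W n).2.eval x)
    (e' : (mp W n).1.eval x' = a * (mp W n).2.eval x') : x = x' := by
  obtain ⟨ε, hε, hm⟩ := Big_inv ha
  have ha0 : a ≠ 0 := by
    rintro rfl
    exact ha w.zero_mem
  have hn0 : n ≠ 0 := by
    rintro rfl
    rw [Nat.cast_zero, map_zero] at hn
    exact zero_ne_one hn
  obtain ⟨-, d1, d2, d3⟩ := mp_deg (Big_W0 hI) n
  have hN : 1 ≤ n ^ 2 := Nat.one_le_iff_ne_zero.2 (pow_ne_zero 2 hn0)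
  have hev : ∀ x : F, (mp W n).1.eval x = a * (mp W n).2.eval x →
      eval₂ w.subtype x (C ε * (mp (Big_W0 hI) n).1 - (mp (Big_W0 hI) n).2) = 0 := by
    intro x e
    rw [Big_mp hI n] at e
    simp only [eval_map] at e
    rw [eval₂_sub, eval₂_mul, eval₂_C, e]
    change (ε : F) * _ - _ = 0
    rw [hε, inv_mul_cancel_left₀ ha0, sub_self]
  refine Big_uniq hN hm d1.le (d2.trans (Nat.sub_le _ _)) ?_ hx hx' (hev x e) (hev x' e')
  rw [d3, ValuationSubring.valuation_eq_one_iff]
  have h1 : (((n : w) ^ 2 : w) : F) = (n : F) ^ 2 := by push_cast; rfl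
  rw [h1, map_pow, hn, one_pow]

theorem exists_big [IsSepClosed F] [W.IsElliptic] (hI : IntC W w) {n : ℕ} (ho : Odd n)
    (hn : w.valuation (n : F) = 1) {a b : F} (h : W.toAffine.Nonsingular a b) (ha : a ∉ w) :
    ∃ (x y : F) (hx : W.toAffine.Nonsingular x y), x ∉ w ∧
      n • Affine.Point.some x y hx = Affine.Point.some a b h := by
  have hf := Big_f_ne hI ha
  have hn0 : (n : F) ≠ 0 := by
    intro h0
    rw [h0, map_zero] at hn
    exact zero_ne_one hn
  have hnn : n ≠ 0 := by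
    rintro rfl
    exact hn0 Nat.cast_zero
  have hN : 0 < n ^ 2 := pow_pos (Nat.pos_of_ne_zero hnn) 2
  have hs := fib_separable W hI.h1 hI.h3 hI.two_ne hn0 hf
  have hsp := IsSepClosed.splits_of_separable _ hs
  obtain ⟨d0, d1, d2, d3⟩ := mp_deg W n
  set G : F[X] := (mp W n).1 - C a * (mp W n).2 with hG
  have hlt : (C a * (mp W n).2).natDegree < (mp W n).1.natDegree := by
    rw [d1]
    exact lt_of_le_of_lt ((natDegree_C_mul_le _ _).trans d2) (by omega)
  have hmon : G.Monic := d0.sub_of_left (degree_lt_degree hlt)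
  have hdeg : G.natDegree = n ^ 2 := by
    rw [hG, natDegree_sub_eq_left_of_natDegree_lt hlt, d1]
  have hnext := hsp.nextCoeff_eq_neg_sum_roots_of_monic hmon
  rw [nextCoeff_of_natDegree_pos (by rw [hdeg]; exact hN), hdeg] at hnext
  obtain ⟨x, hxr, hxw⟩ : ∃ x ∈ G.roots, x ∉ w := by
    by_contra hcon
    push Not at hcon
    apply ha
    have h1 : G.coeff (n ^ 2 - 1) ∈ w := by
      rw [hnext]
      exact neg_mem (multiset_sum_mem _ hcon)
    rw [hG, coeff_sub, coeff_C_mul, d3] at h1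
    have h2 : (mp W n).1.coeff (n ^ 2 - 1) ∈ w := by
      rw [Big_mp hI n]
      simp only [coeff_map]
      exact Subtype.prop _
    have h3 : a * (n : F) ^ 2 ∈ w := by
      have := sub_mem h2 h1
      rwa [sub_sub_cancel] at this
    rw [← ValuationSubring.valuation_le_one_iff, map_mul, map_pow, hn, one_pow, mul_one,
      ValuationSubring.valuation_le_one_iff] at h3
    exact h3
  have hroot : (mp W n).1.eval x = a * (mp W n).2.eval x := by
    have h1 : G.eval x = 0 := (mem_roots'.1 hxr).2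
    rw [hG, eval_sub, eval_mul, eval_C] at h1
    exact sub_eq_zero.1 h1
  have hB : (mp W n).2.eval x ≠ 0 := by
    intro h0
    rw [h0, mul_zero] at hroot
    obtain ⟨u, v, huv⟩ := mp_coprime W hI.h1 hI.h3 hI.two_ne n
    have h1 := congrArg (eval x) huv
    rw [eval_add, eval_mul, eval_mul, hroot, h0, mul_zero, mul_zero, add_zero, eval_one] at h1
    exact zero_ne_one h1
  have : NeZero (2 : F) := ⟨hI.two_ne⟩
  obtain ⟨y, hy⟩ := IsSepClosed.exists_eq_mul_self (x ^ 3 + W.a₂ * x ^ 2 + W.a₄ * x + W.a₆)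
  have hx : W.toAffine.Nonsingular x y := by
    rw [← Affine.equation_iff_nonsingular, Affine.equation_iff]
    have e1 : W.toAffine.a₁ = 0 := hI.h1
    have e3 : W.toAffine.a₃ = 0 := hI.h3
    rw [e1, e3]
    linear_combination -hy
  rcases hQ : n • Affine.Point.some x y hx with _ | ⟨x', y', h'⟩
  · exact absurd ((nsmul_eq_zero_iff W hI.h1 hI.h3 hI.two_ne n hx).1 hQ) hB
  · obtain ⟨e1, -⟩ := nsmul_x W hI.h1 hI.h3 hI.two_ne n hx h' hQ
    have e2 : x' = a := mul_right_cancel₀ hB (e1.symm.trans hroot)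
    rcases (Affine.Point.X_eq_iff (h₁ := h') (h₂ := h)).1 e2 with e3 | e3
    · exact ⟨x, y, hx, hxw, hQ.trans e3⟩
    · refine ⟨x, W.toAffine.negY x y, (Affine.nonsingular_neg ..).mpr hx, hxw, ?_⟩
      change n • (-(Affine.Point.some x y hx)) = _
      rw [smul_neg, hQ, e3, neg_neg]

theorem big_unique [IsSepClosed F] [W.IsElliptic] (hI : IntC W w) {n : ℕ} (ho : Odd n)
    (hn : w.valuation (n : F) = 1) {a b : F} (h : W.toAffine.Nonsingular a b) (ha : a ∉ w)
    {x y x' y' : F} (hx : W.toAffine.Nonsingular x y) (hx' : W.toAffine.Nonsingular x' y')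
    (mx : x ∉ w) (mx' : x' ∉ w) (e : n • Affine.Point.some x y hx = Affine.Point.some a b h)
    (e' : n • Affine.Point.some x' y' hx' = Affine.Point.some a b h) : x' = x ∧ y' = y := by
  obtain ⟨e1, -⟩ := nsmul_x W hI.h1 hI.h3 hI.two_ne n hx h e
  obtain ⟨e2, -⟩ := nsmul_x W hI.h1 hI.h3 hI.two_ne n hx' h e'
  have hxx : x' = x := Big_root hI hn ha mx' mx e2 e1
  refine ⟨hxx, ?_⟩
  rcases (Affine.Point.X_eq_iff (h₁ := hx') (h₂ := hx)).1 hxx with e3 | e3
  · simp only [Affine.Point.some.injEq] at e3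
    exact e3.2
  · exfalso
    rw [e3, smul_neg, e, Affine.Point.neg_some] at e'
    simp only [Affine.Point.some.injEq, true_and] at e'
    have e4 : W.toAffine.negY a b = -b := by
      have e1 : W.toAffine.a₁ = 0 := hI.h1
      have e3 : W.toAffine.a₃ = 0 := hI.h3
      rw [Affine.negY, e1, e3]
      ring
    rw [e4] at e'
    have hb : b = 0 := by
      have h5 : (2 : F) * b = 0 := by linear_combination -e'
      exact (mul_eq_zero.1 h5).resolve_left hI.two_ne
    have heq := (Affine.equation_iff _ _).1 h.1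
    rw [hb] at heq
    have e1 : W.toAffine.a₁ = 0 := hI.h1
    have e3 : W.toAffine.a₃ = 0 := hI.h3
    rw [e1, e3] at heq
    apply Big_f_ne hI ha
    linear_combination -heq

end Pool.Agent.SmL.E
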