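import Pool.Agent.Lib.SmL.E.Inst
import Pool.Agent.Lib.SmL.Ch.ExF

/-!
# SMITH-L block E: Chebotarev for the `l`-power torsion (`ChebE`)

From `exists_frob_open` (`Lib/SmL/Ch/ExF.lean`), for the group of the field generated by the
`l ^ n`-torsion and the `l ^ n`-th roots of unity.
-/

set_option autoImplicit false

open WeierstrassCurve Polynomial
open scoped WeierstrassCurve.Affine

namespace Pool.Agent.SmL.E

open Pool.Agent.Lib.SmD Pool.Agent.BSDFF Pool.Agent.SmL.V Pool.Agent.GBU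
open Pool.Agent.SmJ.L (GMod)

section op

variable {K Ω : Type} [Field K] [Field Ω] [Algebra K Ω] {M : Type} [AddCommGroup M]

/-- The subgroup of the elements which act trivially on a set of elements. -/
def stabS (a : (Ω ≃ₐ[K] Ω) → M →+ M) (h1 : ∀ P, a 1 P = P)
    (h2 : ∀ s t P, a (s * t) P = a s (a t P)) (X : Set M) : Subgroup (Ω ≃ₐ[K] Ω) where
  carrier := {s | ∀ P ∈ X, a s P = P}
  one_mem' := fun P _ => h1 P
  mul_mem' := fun {s t} hs ht P hP => by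
    rw [h2, ht P hP, hs P hP]
  inv_mem' := fun {s} hs P hP => by
    have h3 := h2 s⁻¹ s P
    rw [inv_mul_cancel, h1, hs P hP] at h3
    exact h3.symm

theorem isOpen_stabS {a : (Ω ≃ₐ[K] Ω) → M →+ M} (h1 : ∀ P, a 1 P = P)
    (h2 : ∀ s t P, a (s * t) P = a s (a t P))
    (hlev : ∀ P : M, ∃ L : IntermediateField K Ω, FiniteDimensional K L ∧
      ∀ s t : Ω ≃ₐ[K] Ω, (∀ x ∈ L, s x = t x) → a s P = a t P) {X : Set M} (hX : X.Finite) :
    IsOpen (stabS a h1 h2 X : Set (Ω ≃ₐ[K] Ω)) := by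
  have h3 : (stabS a h1 h2 X : Set (Ω ≃ₐ[K] Ω)) =
      ⋂ P ∈ X, (stabS a h1 h2 {P} : Set (Ω ≃ₐ[K] Ω)) := by
    ext s
    simp only [Set.mem_iInter]
    constructor
    · intro h P hP Q hQ
      rw [Set.mem_singleton_iff] at hQ
      rw [hQ]
      exact h P hP
    · intro h P hP
      exact h P hP P rfl
  rw [h3]
  refine hX.isOpen_biInter fun P _ => ?_
  obtain ⟨L, hL, hLP⟩ := hlev P
  refine Subgroup.isOpen_mono (H₁ := L.fixingSubgroup) ?_ (IntermediateField.fixingSubgroup_isOpen L)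
  intro s hs Q hQ
  rw [Set.mem_singleton_iff] at hQ
  rw [hQ]
  have h4 := hLP s 1 fun x hx => by
    rw [(IntermediateField.mem_fixingSubgroup_iff L s).1 hs x hx]
    rfl
  rw [h4, h1]

theorem normal_stabS {a : (Ω ≃ₐ[K] Ω) → M →+ M} (h1 : ∀ P, a 1 P = P)
    (h2 : ∀ s t P, a (s * t) P = a s (a t P)) {X : Set M} (hX : ∀ s, ∀ P ∈ X, a s P ∈ X) :
    (stabS a h1 h2 X).Normal := by
  refine ⟨fun s hs g P hP => ?_⟩
  rw [h2, h2, hs _ (hX _ _ hP), ← h2, mul_inv_cancel, h1]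

end op

variable {k K Ω : Type} [Field k] [Finite k] [Field K] [Algebra k K] [Algebra (RatFunc k) K]
  [IsScalarTower k (RatFunc k) K] [FiniteDimensional (RatFunc k) K]
  [Algebra.IsSeparable (RatFunc k) K] [Field Ω] [DecidableEq Ω] [Algebra K Ω] [IsSepClosure K Ω]
  (W : WeierstrassCurve K) [W.IsElliptic]

/-- **Chebotarev for the `l`-power torsion.** -/
theorem chebE (hk : ∀ x : K, IsIntegral k x → ∃ c : k, algebraMap k K c = x)
    (h1 : W.a₁ = 0) (h3 : W.a₃ = 0) (h2 : (2 : k) ≠ 0) {l : ℕ} (hp : l.Prime)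
    (ho : l ≠ 2) (hl : (l : k) ≠ 0) : ChebE k Ω W l := by
  intro n s T hT
  have hgal : IsGalois K Ω := IsSepClosure.isGalois
  have hsc : IsSepClosed Ω := IsSepClosure.sep_closed K
  have halg : Algebra.IsAlgebraic K Ω := inferInstance
  have hodd : Odd l := hp.odd_of_ne_two ho
  have hcast : ∀ {n : ℕ}, (n : k) ≠ 0 → (n : Ω) ≠ 0 := by
    intro n hn h0
    apply hn
    have hinj := ((algebraMap K Ω).comp (algebraMap k K)).injective
    apply hinj
    rw [map_natCast, h0, map_zero]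
  have h2Ω : (2 : Ω) ≠ 0 := by
    have := hcast (n := 2) (by exact_mod_cast h2)
    exact_mod_cast this
  have hlΩ : (l : Ω) ≠ 0 := hcast hl
  have hb1 : (W⁄Ω).a₁ = 0 := by
    change algebraMap K Ω W.a₁ = 0
    rw [h1, map_zero]
  have hb3 : (W⁄Ω).a₃ = 0 := by
    change algebraMap K Ω W.a₃ = 0
    rw [h3, map_zero]
  have hE : (W⁄Ω).IsElliptic := inferInstanceAs (W.map (algebraMap K Ω)).IsElliptic
  have hcard := sep_card_tors (W⁄Ω) hb1 hb3 h2Ω (n := l ^ n) (hodd.pow) (by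
    rw [Nat.cast_pow]
    exact pow_ne_zero n hlΩ)
  have hln : l ^ n ≠ 0 := pow_ne_zero n hp.ne_zero
  -- the points
  have hXf : {P : (W⁄Ω).Point | l ^ n • P = 0}.Finite := by
    have h4 : Finite {P : (W⁄Ω).Point // l ^ n • P = 0} := by
      refine Nat.finite_of_card_ne_zero ?_
      rw [hcard]
      exact pow_ne_zero 2 hln
    exact h4
  have hGM := gE_gmod (Ω := Ω) (W := W)
  set N1 : Subgroup (Ω ≃ₐ[K] Ω) := stabS (gE W) hGM.one hGM.mul {P | l ^ n • P = 0} with hN1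
  have hN1o : IsOpen (N1 : Set (Ω ≃ₐ[K] Ω)) := isOpen_stabS _ _ hGM.level hXf
  have hN1n : N1.Normal := normal_stabS _ _ fun s P hP => gE_tors s hP
  -- the roots of unity
  have hYf : {x : Ω | x ^ l ^ n = 1}.Finite := by
    have h4 : {x : Ω | x ^ l ^ n = 1} ⊆ (nthRootsFinset (l ^ n) (1 : Ω) : Set Ω) := by
      intro x hx
      exact (mem_nthRootsFinset (Nat.pos_of_ne_zero hln) (1 : Ω)).2 hx
    exact (Finset.finite_toSet _).subset h4
  set aA : (Ω ≃ₐ[K] Ω) → Ω →+ Ω := fun s => AddMonoidHomClass.toAddMonoidHom s with haA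
  have haAs : ∀ (s : Ω ≃ₐ[K] Ω) (x : Ω), aA s x = s x := fun _ _ => rfl
  set N2 : Subgroup (Ω ≃ₐ[K] Ω) := stabS aA (fun _ => rfl) (fun _ _ _ => rfl) {x | x ^ l ^ n = 1}
    with hN2
  have hN2o : IsOpen (N2 : Set (Ω ≃ₐ[K] Ω)) := by
    refine isOpen_stabS _ _ (fun x => ⟨IntermediateField.adjoin K {x}, ?_, fun s t hst => ?_⟩) hYf
    · exact IntermediateField.adjoin.finiteDimensional (Algebra.IsAlgebraic.isAlgebraic x).isIntegral
    · exact hst x (IntermediateField.mem_adjoin_simple_self K x)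
  have hN2n : N2.Normal := normal_stabS _ _ fun s x hx => by
    change (s x) ^ l ^ n = 1
    rw [← map_pow, show x ^ l ^ n = 1 from hx, map_one]
  obtain ⟨fr, hfr⟩ := exists_isFrC (k := k) (K := K) (Om := Ω)
    fun x hx => hk x (SmBU.isIntegral_iff_isC.2 hx)
  obtain ⟨v, hv, g, hg⟩ := exists_frob_open (k := k) hk (ab := abK Ω) (below_abK Ω)
    (ph := phK Ω) phK_frob hfr (N := N1 ⊓ N2) inferInstance (by
      rw [Subgroup.coe_inf]
      exact hN1o.inter hN2o) s hT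
  have h4 : (g⁻¹ * ((g * phK Ω v * g⁻¹)⁻¹ * s) * g⁻¹⁻¹) ∈ N1 ⊓ N2 :=
    (inferInstance : (N1 ⊓ N2).Normal).conj_mem _ hg g⁻¹
  have h5 : g⁻¹ * s * g⁻¹⁻¹ = phK Ω v * (g⁻¹ * ((g * phK Ω v * g⁻¹)⁻¹ * s) * g⁻¹⁻¹) := by group
  refine ⟨v, hv, abK Ω v, phK Ω v, g⁻¹, abK_ne_top Ω v, below_abK Ω v, phK_frob v,
    fun P hP => ?_, fun x hx => ?_⟩
  · rw [h5, gE_mul, h4.1 P hP]
  · rw [h5]
    exact (congrArg (phK Ω v) (h4.2 x hx)).symm

end Pool.Agent.SmL.E
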