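import Pool.Agent.Lib.SmL.E.Rk2
import Pool.Agent.Lib.SmL.V.EDefs

/-!
# SMITH-L block E, module CycA: the determinant is the cyclotomic character; the pairing

`det_eq_chi`: `hF`: for every `s` there is a Frobenius element `φ` which acts on `M[l ^ n]` as a conjugate
of `s`. If `s` is not scalar on `M[l]`, then `φ` is not scalar on `M[l]` and
`det s = det φ = q = χ φ = χ s` (`dtm_eq`, `dtm_congr`, `dtm_mul`). If `s` is scalar on `M[l]`, let `s₀` be
not scalar; `s s₀` is not scalar on `M[l]` (`c ≠ 0` modulo `l` as `ρ s` is injective), so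
`det s det s₀ = χ s χ s₀`, `det s₀ = χ s₀`, and `det s₀` is a unit.
`form_ok`: `en n x y = ζ n ^ (dt n x y)`.
-/

set_option autoImplicit false

namespace Pool.Agent.SmL.E

open Pool.Agent.SmL.V

theorem det_eq_chi {G M : Type} [Group G] [AddCommGroup M] {l : ℕ} (hl : l.Prime) (R : Rk2 l M)
    {ρ : G → M →+ M} (one : ∀ P, ρ 1 P = P) (mul : ∀ s t P, ρ (s * t) P = ρ s (ρ t P)) {n : ℕ}
    (hn : 1 ≤ n) {χ : G → ZMod (l ^ n)} (hχ : ∀ s t, χ (s * t) = χ s * χ t)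
    (hF : ∀ s : G, ∃ g φ : G, (∀ P, l ^ n • P = 0 → ρ φ P = ρ (g * s * g⁻¹) P) ∧ χ φ = χ s ∧
      ∃ t q : ℤ, (∀ P, (∃ m : ℕ, l ^ m • P = 0) → ρ φ (ρ φ P) - t • ρ φ P + q • P = 0) ∧
        χ φ = (q : ZMod (l ^ n)))
    (hns : ∃ s, ¬ ∃ c : ℤ, ∀ P, l • P = 0 → ρ s P = c • P) (s : G) :
    R.dtm n (ρ s) = χ s := by
  have hcomp : ∀ s t, ρ (s * t) = (ρ s).comp (ρ t) := fun s t => AddMonoidHom.ext fun P => mul s t P
  have hdm : ∀ s t, R.dtm n (ρ (s * t)) = R.dtm n (ρ s) * R.dtm n (ρ t) := fun s t => by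
    rw [hcomp, R.dtm_mul]
  have hd1 : R.dtm n (ρ 1) = 1 := by
    rw [show ρ 1 = AddMonoidHom.id M from AddMonoidHom.ext fun P => one P, R.dtm_id]
  have hinj : ∀ g P, ρ g⁻¹ (ρ g P) = P := fun g P => by
    rw [← mul, inv_mul_cancel, one]
  have hln : ∀ P : M, l • P = 0 → l ^ n • P = 0 := by
    intro P hP
    obtain ⟨m, rfl⟩ := Nat.exists_eq_add_of_le hn
    rw [pow_add, pow_one, mul_comm, mul_nsmul', hP, nsmul_zero]
  have hunit : ∀ g, R.dtm n (ρ g) * R.dtm n (ρ g⁻¹) = 1 := fun g => by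
    rw [← hdm, mul_inv_cancel, hd1]
  -- the case of an element which is not scalar on `M[l]`
  have key : ∀ s, (¬ ∃ c : ℤ, ∀ P, l • P = 0 → ρ s P = c • P) → R.dtm n (ρ s) = χ s := by
    intro s hs
    obtain ⟨g, φ, h1, h2, t, q, h3, h4⟩ := hF s
    have hφ : ¬ ∃ c : ℤ, ∀ P, l • P = 0 → ρ φ P = c • P := by
      rintro ⟨c, hc⟩
      refine hs ⟨c, fun P hP => ?_⟩
      have hgP : l • ρ g P = 0 := by rw [← map_nsmul, hP, map_zero]
      have e1 := hc (ρ g P) hgP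
      rw [h1 _ (hln _ hgP), mul, hinj, mul] at e1
      have e2 := congrArg (ρ g⁻¹) e1
      rw [hinj, map_zsmul, hinj] at e2
      exact e2
    have e1 := R.dtm_eq hl h3 hφ n
    rw [R.dtm_congr (σ := ρ φ) (τ := ρ (g * s * g⁻¹)) h1, hdm, hdm] at e1
    have e2 : R.dtm n (ρ g) * R.dtm n (ρ s) * R.dtm n (ρ g⁻¹) = R.dtm n (ρ s) := by
      calc R.dtm n (ρ g) * R.dtm n (ρ s) * R.dtm n (ρ g⁻¹) =
          R.dtm n (ρ s) * (R.dtm n (ρ g) * R.dtm n (ρ g⁻¹)) := by ring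
        _ = R.dtm n (ρ s) := by rw [hunit, mul_one]
    rw [← e2, e1, ← h4, h2]
  by_cases hs : ∃ c : ℤ, ∀ P, l • P = 0 → ρ s P = c • P
  · obtain ⟨c, hc⟩ := hs
    obtain ⟨s₀, hs₀⟩ := hns
    have hcl : ¬ (l : ℤ) ∣ c := by
      rintro ⟨d, rfl⟩
      refine hs₀ ⟨0, fun P hP => ?_⟩
      have e1 := hc P hP
      rw [mul_comm, mul_zsmul, natCast_zsmul, hP, zsmul_zero] at e1
      have e2 := hinj s P
      rw [e1, map_zero] at e2
      rw [← e2, map_zero, zsmul_zero]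
    have hcop : IsCoprime (l : ℤ) c := by
      rw [Int.isCoprime_iff_nat_coprime, Int.natAbs_natCast]
      refine (Nat.Prime.coprime_iff_not_dvd hl).2 fun h => hcl ?_
      exact Int.natCast_dvd.2 h
    obtain ⟨u, v, huv⟩ := hcop
    have hss : ¬ ∃ c' : ℤ, ∀ P, l • P = 0 → ρ (s * s₀) P = c' • P := by
      rintro ⟨c', hc'⟩
      refine hs₀ ⟨v * c', fun P hP => ?_⟩
      have hsP : l • ρ s₀ P = 0 := by rw [← map_nsmul, hP, map_zero]
      have e1 := hc' P hP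
      rw [mul, hc _ hsP] at e1
      have e2 : (u * (l : ℤ) + v * c) • ρ s₀ P = (1 : ℤ) • ρ s₀ P := by rw [huv]
      rw [add_zsmul, mul_smul, mul_smul, natCast_zsmul, hsP, smul_zero, zero_add, e1, one_zsmul,
        ← mul_smul] at e2
      exact e2.symm
    have e1 := key _ hss
    have e2 := key _ hs₀
    rw [hdm, hχ, ← e2] at e1
    calc R.dtm n (ρ s) = R.dtm n (ρ s) * R.dtm n (ρ s₀) * R.dtm n (ρ s₀⁻¹) := by
          rw [mul_assoc, hunit, mul_one]
      _ = χ s * R.dtm n (ρ s₀) * R.dtm n (ρ s₀⁻¹) := by rw [e1]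
      _ = χ s := by rw [mul_assoc, hunit, mul_one]
  · exact key s hs

private theorem pow_val_add {A : Type} [Monoid A] {N : ℕ} [NeZero N] {u : A} (hu : u ^ N = 1)
    (a b : ZMod N) : u ^ (a + b).val = u ^ a.val * u ^ b.val := by
  rw [ZMod.val_add, ← pow_add]
  exact (pow_eq_pow_mod _ hu).symm

private theorem pow_val_mul {A : Type} [Monoid A] {N : ℕ} [NeZero N] {u : A} (hu : u ^ N = 1)
    (a b : ZMod N) : u ^ (a * b).val = (u ^ a.val) ^ b.val := by
  rw [ZMod.val_mul, ← pow_mul]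
  exact (pow_eq_pow_mod _ hu).symm

theorem form_ok {K Ω M : Type} [Field K] [Field Ω] [Algebra K Ω] [AddCommGroup M] {l : ℕ}
    (hl : l.Prime) (R : Rk2 l M) {ρ : (Ω ≃ₐ[K] Ω) → M →+ M} {ζ : ℕ → Ω}
    (hζ : ∀ n, IsPrimitiveRoot (ζ n) (l ^ n)) (hζ' : ∀ n, ζ (n + 1) ^ l = ζ n)
    (hdet : ∀ (n : ℕ) (s : Ω ≃ₐ[K] Ω), s (ζ n) = ζ n ^ (R.dtm n (ρ s)).val) :
    ∃ en : ℕ → M → M → Additive Ωˣ, FormOk l ρ en := by
  have hne : ∀ n, NeZero (l ^ n) := fun n => ⟨pow_ne_zero _ hl.ne_zero⟩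
  have h0 : ∀ n, ζ n ≠ 0 := fun n => (hζ n).ne_zero (hne n).out
  set u : ℕ → Ωˣ := fun n => Units.mk0 (ζ n) (h0 n) with hu
  have hu1 : ∀ n, u n ^ l ^ n = 1 := fun n => Units.ext (by
    rw [Units.val_pow_eq_pow_val, Units.val_one]
    exact (hζ n).pow_eq_one)
  have hus : ∀ n, u (n + 1) ^ l = u n := fun n => Units.ext (by
    rw [Units.val_pow_eq_pow_val]
    exact hζ' n)
  refine ⟨fun n x y => Additive.ofMul (u n ^ (R.dt n x y).val), ?_, ?_, ?_, ?_, ?_, ?_⟩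
  · intro n x x' y hx hx' hy
    rw [R.dt_add_left hx hx' hy, pow_val_add (hu1 n), ofMul_mul]
  · intro n x y y' hx hy hy'
    rw [R.dt_add_right hx hy hy', pow_val_add (hu1 n), ofMul_mul]
  · intro n x y hx hy
    have e1 : u (n + 1) ^ (R.dt (n + 1) x y).val = u n ^ (R.dt n x (l • y)).val := by
      rw [R.dt_comp hl.ne_zero hx hy, ZMod.val_natCast, ← pow_eq_pow_mod _ (hu1 (n + 1)), pow_mul,
        hus]
    exact congrArg Additive.ofMul e1
  · intro n s x y hx hy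
    have e1 : u n ^ (R.dt n (ρ s x) (ρ s y)).val =
        Units.map (s : Ω →* Ω) (u n ^ (R.dt n x y).val) := by
      rw [R.dt_map (ρ s) hx hy, pow_val_mul (hu1 n), map_pow]
      congr 1
      refine Units.ext ?_
      rw [Units.val_pow_eq_pow_val]
      exact (hdet n s).symm
    exact congrArg Additive.ofMul e1
  · intro x _
    have e1 : u 1 ^ (R.dt 1 x x).val = 1 := by
      rw [R.dt_self, ZMod.val_zero, pow_zero]
    exact congrArg Additive.ofMul e1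
  · intro x hx h
    refine R.dt_nondeg hl (n := 1) (by rwa [pow_one]) fun y hy => ?_
    rw [pow_one] at hy
    have e1 : u 1 ^ (R.dt 1 x y).val = 1 := Additive.ofMul.injective (h y hy)
    have e2 : ζ 1 ^ (R.dt 1 x y).val = 1 := by
      have := congrArg Units.val e1
      rwa [Units.val_pow_eq_pow_val, Units.val_one] at this
    have e3 := (hζ 1).dvd_of_pow_eq_one _ e2
    have e4 := Nat.eq_zero_of_dvd_of_lt e3 (ZMod.val_lt _)
    exact (ZMod.val_eq_zero _).1 e4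

/-- A compatible system of roots of unity. -/
theorem exists_zeta {Ω : Type} [Field Ω] [IsSepClosed Ω] {l : ℕ} (hl : l.Prime)
    (hl0 : (l : Ω) ≠ 0) : ∃ ζ : ℕ → Ω, (∀ n, IsPrimitiveRoot (ζ n) (l ^ n)) ∧
      ∀ n, ζ (n + 1) ^ l = ζ n := by
  have hN : NeZero (l : Ω) := ⟨hl0⟩
  have step : ∀ (n : ℕ) (z : Ω), IsPrimitiveRoot z (l ^ n) →
      ∃ z' : Ω, IsPrimitiveRoot z' (l ^ (n + 1)) ∧ z' ^ l = z := by
    intro n z hz
    cases n with
    | zero =>
      rw [pow_zero, IsPrimitiveRoot.one_right_iff] at hz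
      obtain ⟨w, hw⟩ := HasEnoughRootsOfUnity.exists_primitiveRoot Ω l
      refine ⟨w, ?_, ?_⟩
      · rw [zero_add, pow_one]
        exact hw
      · rw [hw.pow_eq_one, hz]
    | succ n =>
      obtain ⟨w, hw⟩ := IsSepClosed.exists_pow_nat_eq z l
      refine ⟨w, ?_, hw⟩
      have h1 : w ^ l ^ (n + 1 + 1) = 1 := by
        rw [pow_succ' l (n + 1), pow_mul, hw, hz.pow_eq_one]
      have h2 : ¬ w ^ l ^ (n + 1) = 1 := by
        rw [pow_succ' l n, pow_mul, hw]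
        intro h
        have h3 := hz.dvd_of_pow_eq_one _ h
        have h4 := Nat.le_of_dvd (pow_pos hl.pos n) h3
        exact absurd (Nat.pow_lt_pow_right hl.one_lt (Nat.lt_succ_self n)) (not_lt.2 h4)
      have := Fact.mk hl
      have h5 := orderOf_eq_prime_pow h2 h1
      rw [← h5]
      exact IsPrimitiveRoot.orderOf w
  choose! f hf using step
  let Z : ℕ → Ω := fun n => Nat.rec (1 : Ω) (fun n z => f n z) n
  have hZ : ∀ n, IsPrimitiveRoot (Z n) (l ^ n) := by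
    intro n
    induction n with
    | zero =>
      rw [pow_zero, IsPrimitiveRoot.one_right_iff]
      rfl
    | succ n ih => exact (hf n (Z n) ih).1
  exact ⟨Z, hZ, fun n => (hf n (Z n) (hZ n)).2⟩

end Pool.Agent.SmL.E
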