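import Pool.Agent.Lib.SmL.E.Mp

/-!
# SMITH-L block E, module Div: division of points, the number of the `n`-torsion points

(a) `exists_nsmul`: for `P = (a, b)` take a root `x` of the monic polynomial `A - a B` of degree
`n ^ 2 ≥ 1` and a point `Q` above it; `B(x) ≠ 0` by `mp_coprime`, so `x(n Q) = a` and `n Q = ± P`.
`P = O`: `Q = O`.
(b) `A' B - A B' ≠ 0` if `n ≠ 0` in `F`: otherwise `A ∣ A' B`, so `A ∣ A'` (`mp_coprime`), but
`natDegree A' < natDegree A` and `A' ≠ 0` (leading coefficient `n ^ 2`).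
(c) Every common root `x` of `A - a B` and its derivative is a root of `A' B - A B'`, so for all but
finitely many `a` the polynomial `A - a B` has `n ^ 2` different roots (`F` algebraically closed). For
`P = (a, b)`, `b ≠ 0`, the map `Q ↦ x(Q)` is a bijection of `{Q | n Q = P}` onto the roots of `A - a B`
(`n Q = n Q'`, `x(Q) = x(Q')`, `Q ≠ Q'` gives `Q' = - Q` and `P = - P`, `b = 0`), and `{Q | n Q = P}` is
a coset of the `n`-torsion. So `card_tors`, and then `fib_separable` for EVERY `a` which is not a root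
of the cubic (the number of the roots is `n ^ 2 = natDegree`); for a general field by `mp_map` to the
algebraic closure.
-/

set_option autoImplicit false

open Polynomial WeierstrassCurve
open scoped WeierstrassCurve.Affine

namespace Pool.Agent.SmL.E

open Pool.Agent.TTC.H

section pt

variable {F : Type} [Field F] (W : WeierstrassCurve F)

theorem ns_of [W.IsElliptic] (h1 : W.a₁ = 0) (h3 : W.a₃ = 0) {x y : F}
    (h : y ^ 2 = x ^ 3 + W.a₂ * x ^ 2 + W.a₄ * x + W.a₆) : W.toAffine.Nonsingular x y :=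
  (Affine.equation_iff_nonsingular).1 ((equation_zero W h1 h3 x y).2 h)

theorem eqn_of (h1 : W.a₁ = 0) (h3 : W.a₃ = 0) {x y : F} (h : W.toAffine.Nonsingular x y) :
    y ^ 2 = x ^ 3 + W.a₂ * x ^ 2 + W.a₄ * x + W.a₆ :=
  (equation_zero W h1 h3 x y).1 h.1

/-- The negative of a point. -/
theorem neg_some' (h1 : W.a₁ = 0) (h3 : W.a₃ = 0) {x y : F} (h : W.toAffine.Nonsingular x y)
    (h' : W.toAffine.Nonsingular x (-y)) :
    -Affine.Point.some x y h = Affine.Point.some x (-y) h' := by
  rw [Affine.Point.neg_some]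
  congr 1
  exact negY_zero W h1 h3 x y

/-- Two points with the same `x`-coordinate. -/
theorem eq_or_neg (h1 : W.a₁ = 0) (h3 : W.a₃ = 0) {x y y' : F} (h : W.toAffine.Nonsingular x y)
    (h' : W.toAffine.Nonsingular x y') : Affine.Point.some x y' h' = Affine.Point.some x y h ∨
      Affine.Point.some x y' h' = -Affine.Point.some x y h := by
  have e : y' ^ 2 = y ^ 2 := by rw [eqn_of W h1 h3 h, eqn_of W h1 h3 h']
  rcases sq_eq_sq_iff_eq_or_eq_neg.1 e with e | e
  · left
    subst e
    rfl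
  · right
    subst e
    rw [neg_some' W h1 h3 h h']

/-- A point which is not of order two. -/
theorem neg_ne (h1 : W.a₁ = 0) (h3 : W.a₃ = 0) (h2 : (2 : F) ≠ 0) {x y : F}
    (h : W.toAffine.Nonsingular x y) (hy : y ≠ 0) :
    -Affine.Point.some x y h ≠ Affine.Point.some x y h := by
  intro e
  rw [Affine.Point.neg_some, Affine.Point.some.injEq] at e
  have e2 := e.2
  rw [negY_zero W h1 h3] at e2
  have h5 : 2 * y = 0 := by linear_combination -e2
  exact hy ((mul_eq_zero.1 h5).resolve_left h2)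

end pt

section fib

variable {F : Type} [Field F] (W : WeierstrassCurve F)

/-- The polynomial of the fibre of the multiplication by `n` above the points with
`x`-coordinate `a`. -/
noncomputable def fib (n : ℕ) (a : F) : F[X] := (mp W n).1 - C a * (mp W n).2

theorem fib_deg {n : ℕ} (hn : n ≠ 0) (a : F) :
    (fib W n a).Monic ∧ (fib W n a).natDegree = n ^ 2 := by
  obtain ⟨m, d, b, -⟩ := mp_deg W n
  have h0 : 0 < n ^ 2 := pow_pos (Nat.pos_of_ne_zero hn) 2
  have hlt : (C a * (mp W n).2).degree < (mp W n).1.degree := by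
    refine degree_lt_degree ?_
    rw [d]
    exact lt_of_le_of_lt (natDegree_C_mul_le _ _) (by omega)
  refine ⟨m.sub_of_left hlt, ?_⟩
  rw [fib, natDegree_sub_eq_left_of_natDegree_lt, d]
  rw [d]
  exact lt_of_le_of_lt (natDegree_C_mul_le _ _) (by omega)

theorem fib_root {n : ℕ} {a x : F} :
    (fib W n a).IsRoot x ↔ (mp W n).1.eval x = a * (mp W n).2.eval x := by
  rw [IsRoot.def, fib, eval_sub, eval_mul, eval_C, sub_eq_zero]

variable [DecidableEq F] [W.IsElliptic]

/-- A root of the polynomial of the fibre comes from a point of the fibre. -/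
theorem lift_root (h1 : W.a₁ = 0) (h3 : W.a₃ = 0) (h2 : (2 : F) ≠ 0) {n : ℕ} {a b : F}
    (h : W.toAffine.Nonsingular a b) {x y : F} (hx : (fib W n a).IsRoot x)
    (hq : W.toAffine.Nonsingular x y) :
    n • Affine.Point.some x y hq = Affine.Point.some a b h ∨
      n • -Affine.Point.some x y hq = Affine.Point.some a b h := by
  rw [fib_root] at hx
  have hB : (mp W n).2.eval x ≠ 0 := by
    intro h0
    rw [h0, mul_zero] at hx
    obtain ⟨u, v, e⟩ := mp_coprime W h1 h3 h2 n
    have := congrArg (eval x) e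
    rw [eval_add, eval_mul, eval_mul, h0, hx, eval_one] at this
    simp at this
  have hne : n • Affine.Point.some x y hq ≠ 0 := by
    rw [Ne, nsmul_eq_zero_iff W h1 h3 h2]
    exact hB
  rcases hR : n • Affine.Point.some x y hq with _ | ⟨x', y', h'⟩
  · exact absurd hR hne
  · obtain ⟨e1, -⟩ := nsmul_x W h1 h3 h2 n hq h' hR
    have hxa : x' = a := mul_right_cancel₀ hB (e1.symm.trans hx)
    subst hxa
    rcases eq_or_neg W h1 h3 h h' with e | e
    · left
      exact e
    · right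
      rw [smul_neg, hR, e, neg_neg]

/-- The `x`-coordinate of a point of the fibre is a root. -/
theorem root_of (h1 : W.a₁ = 0) (h3 : W.a₃ = 0) (h2 : (2 : F) ≠ 0) {n : ℕ} {a b : F}
    (h : W.toAffine.Nonsingular a b) {x y : F} (hq : W.toAffine.Nonsingular x y)
    (e : n • Affine.Point.some x y hq = Affine.Point.some a b h) : (fib W n a).IsRoot x :=
  (fib_root W).2 (nsmul_x W h1 h3 h2 n hq h e).1

/-- The number of points of the fibre above a point which is not of order two. -/
theorem card_fibre (h1 : W.a₁ = 0) (h3 : W.a₃ = 0) (h2 : (2 : F) ≠ 0)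
    (hsq : ∀ z : F, ∃ y, y ^ 2 = z) {n : ℕ} {a b : F} (h : W.toAffine.Nonsingular a b)
    (hb : b ≠ 0) : Nat.card {Q : W.toAffine.Point // n • Q = Affine.Point.some a b h} =
      Nat.card {x : F // (fib W n a).IsRoot x} := by
  have hx : ∀ Q : W.toAffine.Point, n • Q = Affine.Point.some a b h →
      ∃ x y, ∃ hq : W.toAffine.Nonsingular x y, Q = Affine.Point.some x y hq := by
    intro Q hQ
    rcases Q with _ | ⟨x, y, hq⟩
    · exfalso
      rw [← Affine.Point.zero_def, smul_zero] at hQ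
      exact Affine.Point.some_ne_zero h hQ.symm
    · exact ⟨x, y, hq, rfl⟩
  have key : ∀ x, (fib W n a).IsRoot x → ∃ Q : {Q : W.toAffine.Point //
      n • Q = Affine.Point.some a b h}, ∃ y, ∃ hq : W.toAffine.Nonsingular x y,
        Q.1 = Affine.Point.some x y hq := by
    intro x hr
    obtain ⟨y, hy⟩ := hsq (x ^ 3 + W.a₂ * x ^ 2 + W.a₄ * x + W.a₆)
    have hq := ns_of W h1 h3 hy
    have hq' : W.toAffine.Nonsingular x (-y) := ns_of W h1 h3 (by rw [neg_sq]; exact hy)
    rcases lift_root W h1 h3 h2 h hr hq with e | e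
    · exact ⟨⟨_, e⟩, y, hq, rfl⟩
    · exact ⟨⟨_, e⟩, -y, hq', neg_some' W h1 h3 hq hq'⟩
  choose g gy gh ge using key
  refine (Nat.card_congr (Equiv.ofBijective
    (fun x : {x : F // (fib W n a).IsRoot x} => g x.1 x.2) ⟨?_, ?_⟩)).symm
  · intro x x' e
    have e1 : (g x.1 x.2).1 = (g x'.1 x'.2).1 := congrArg Subtype.val e
    rw [ge, ge, Affine.Point.some.injEq] at e1
    exact Subtype.ext e1.1
  · intro Q
    obtain ⟨x, y, hq, e⟩ := hx Q.1 Q.2
    have hr : (fib W n a).IsRoot x := root_of W h1 h3 h2 h hq (by rw [← e]; exact Q.2)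
    refine ⟨⟨x, hr⟩, Subtype.ext ?_⟩
    change (g x hr).1 = Q.1
    rw [ge, e]
    rcases eq_or_neg W h1 h3 hq (gh x hr) with e1 | e1
    · exact e1
    · exfalso
      have e2 := (g x hr).2
      have e3 := Q.2
      rw [ge, e1, smul_neg, ← e, e3] at e2
      exact neg_ne W h1 h3 h2 h hb e2

end fib

section alg

variable {F : Type} [Field F] (W : WeierstrassCurve F) [DecidableEq F] [W.IsElliptic]

/-- `W(F)` is divisible. -/
theorem exists_nsmul [IsAlgClosed F] (h1 : W.a₁ = 0) (h3 : W.a₃ = 0) (h2 : (2 : F) ≠ 0) {n : ℕ}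
    (hn : n ≠ 0) (P : W.toAffine.Point) : ∃ Q, n • Q = P := by
  rcases P with _ | ⟨a, b, h⟩
  · exact ⟨0, smul_zero _⟩
  obtain ⟨-, d⟩ := fib_deg W hn a
  obtain ⟨x, hx⟩ := IsAlgClosed.exists_root (fib W n a) (by
    intro h0
    rw [natDegree_eq_of_degree_eq_some h0] at d
    exact pow_ne_zero 2 hn d.symm)
  obtain ⟨y, hy⟩ := IsAlgClosed.exists_pow_nat_eq (x ^ 3 + W.a₂ * x ^ 2 + W.a₄ * x + W.a₆)
    (n := 2) two_pos
  rcases lift_root W h1 h3 h2 h hx (ns_of W h1 h3 hy) with e | e
  · exact ⟨_, e⟩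
  · exact ⟨_, e⟩

omit [DecidableEq F] in
/-- The Wronskian of `A`, `B` is not zero. -/
theorem wronsk_ne (h1 : W.a₁ = 0) (h3 : W.a₃ = 0) (h2 : (2 : F) ≠ 0) {n : ℕ}
    (hn : (n : F) ≠ 0) :
    derivative (mp W n).1 * (mp W n).2 - (mp W n).1 * derivative (mp W n).2 ≠ 0 := by
  intro h0
  obtain ⟨m, d, -, -⟩ := mp_deg W n
  have hn0 : n ≠ 0 := by
    rintro rfl
    exact hn Nat.cast_zero
  have hdvd : (mp W n).1 ∣ derivative (mp W n).1 := by
    refine (mp_coprime W h1 h3 h2 n).dvd_of_dvd_mul_right ?_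
    rw [sub_eq_zero.1 h0]
    exact dvd_mul_right _ _
  have hlt : (derivative (mp W n).1).degree < (mp W n).1.degree := degree_derivative_lt m.ne_zero
  have h5 := eq_zero_of_dvd_of_degree_lt hdvd hlt
  have h6 : (derivative (mp W n).1).coeff (n ^ 2 - 1) = 0 := by rw [h5, coeff_zero]
  have h0 : 0 < n ^ 2 := pow_pos (Nat.pos_of_ne_zero hn0) 2
  rw [coeff_derivative, Nat.sub_add_cancel h0] at h6
  have h7 : (mp W n).1.coeff (n ^ 2) = 1 := by
    rw [← d]
    exact m
  rw [h7, one_mul] at h6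
  have h8 : ((n ^ 2 - 1 : ℕ) : F) + 1 = (n : F) ^ 2 := by
    rw [← Nat.cast_succ, Nat.succ_eq_add_one, Nat.sub_add_cancel h0, Nat.cast_pow]
  rw [h8] at h6
  exact pow_ne_zero 2 hn h6

/-- **The number of points of order dividing `n`.** -/
theorem card_tors [IsAlgClosed F] (h1 : W.a₁ = 0) (h3 : W.a₃ = 0) (h2 : (2 : F) ≠ 0) {n : ℕ}
    (hn : (n : F) ≠ 0) : Nat.card {Q : W.toAffine.Point // n • Q = 0} = n ^ 2 := by
  classical
  have hn0 : n ≠ 0 := by
    rintro rfl
    exact hn Nat.cast_zero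
  set D := derivative (mp W n).1 * (mp W n).2 - (mp W n).1 * derivative (mp W n).2 with hD
  have hD0 : D ≠ 0 := wronsk_ne W h1 h3 h2 hn
  set f : F[X] := X ^ 3 + C W.a₂ * X ^ 2 + C W.a₄ * X + C W.a₆ with hf
  have hf0 : f ≠ 0 := by
    have : f.natDegree = 3 := by
      rw [hf]
      compute_degree!
    intro h0
    rw [h0] at this
    simp at this
  obtain ⟨a, ha⟩ := Infinite.exists_notMem_finset (f.roots.toFinset ∪
    D.roots.toFinset.image fun r => (mp W n).1.eval r / (mp W n).2.eval r)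
  rw [Finset.mem_union, not_or] at ha
  have hfa : a ^ 3 + W.a₂ * a ^ 2 + W.a₄ * a + W.a₆ ≠ 0 := by
    intro h0
    apply ha.1
    rw [Multiset.mem_toFinset, mem_roots hf0, IsRoot.def, hf]
    simp only [eval_add, eval_pow, eval_X, eval_mul, eval_C]
    exact h0
  obtain ⟨b, hb⟩ := IsAlgClosed.exists_pow_nat_eq (a ^ 3 + W.a₂ * a ^ 2 + W.a₄ * a + W.a₆)
    (n := 2) two_pos
  have hb0 : b ≠ 0 := by
    rintro rfl
    rw [zero_pow two_ne_zero] at hb
    exact hfa hb.symm
  have h := ns_of W h1 h3 hb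
  obtain ⟨Q0, hQ0⟩ := exists_nsmul W h1 h3 h2 hn0 (Affine.Point.some a b h)
  have e1 : Nat.card {Q : W.toAffine.Point // n • Q = 0} =
      Nat.card {Q : W.toAffine.Point // n • Q = Affine.Point.some a b h} := by
    refine Nat.card_congr ⟨fun Q => ⟨Q.1 + Q0, by rw [smul_add, Q.2, zero_add, hQ0]⟩,
      fun Q => ⟨Q.1 - Q0, by rw [smul_sub, Q.2, hQ0, sub_self]⟩, fun Q => ?_, fun Q => ?_⟩
    · exact Subtype.ext (add_sub_cancel_right _ _)
    · exact Subtype.ext (sub_add_cancel _ _)
  rw [e1, card_fibre W h1 h3 h2 (fun z => IsAlgClosed.exists_pow_nat_eq z two_pos) h hb0]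
  obtain ⟨fm, fd⟩ := fib_deg W hn0 a
  have hsep : (fib W n a).Separable := by
    rw [Polynomial.Separable, isCoprime_iff_aeval_ne_zero_of_isAlgClosed F F]
    intro r
    by_contra hcon
    push Not at hcon
    rw [coe_aeval_eq_eval, fib, derivative_sub, derivative_C_mul, eval_sub,
      eval_mul, eval_C, eval_sub, eval_mul, eval_C] at hcon
    obtain ⟨c1, c2⟩ := hcon
    have hB : (mp W n).2.eval r ≠ 0 := by
      intro h0
      rw [h0, mul_zero, sub_zero] at c1
      obtain ⟨u, v, e⟩ := mp_coprime W h1 h3 h2 n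
      have := congrArg (eval r) e
      rw [eval_add, eval_mul, eval_mul, h0, c1, eval_one] at this
      simp at this
    apply ha.2
    rw [Finset.mem_image]
    refine ⟨r, ?_, ?_⟩
    · rw [Multiset.mem_toFinset, mem_roots hD0, IsRoot.def, hD, eval_sub, eval_mul, eval_mul]
      linear_combination (mp W n).2.eval r * c2 - (derivative (mp W n).2).eval r * c1
    · rw [div_eq_iff hB]
      linear_combination c1
  have e2 : Nat.card {x : F // (fib W n a).IsRoot x} = (fib W n a).roots.toFinset.card := by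
    rw [Nat.card_congr (Equiv.subtypeEquivRight (q := fun x => x ∈ (fib W n a).roots.toFinset)
      fun x => by rw [Multiset.mem_toFinset, mem_roots fm.ne_zero]),
      Nat.card_eq_fintype_card, Fintype.card_coe]
  rw [e2, Multiset.toFinset_card_of_nodup (nodup_roots hsep),
    ← (IsAlgClosed.splits (fib W n a)).natDegree_eq_card_roots, fd]

/-- The number of the points of a fibre. -/
theorem card_fibre_alg [IsAlgClosed F] (h1 : W.a₁ = 0) (h3 : W.a₃ = 0) (h2 : (2 : F) ≠ 0) {n : ℕ}
    (hn : (n : F) ≠ 0) (P : W.toAffine.Point) :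
    Nat.card {Q : W.toAffine.Point // n • Q = P} = n ^ 2 := by
  have hn0 : n ≠ 0 := by
    rintro rfl
    exact hn Nat.cast_zero
  obtain ⟨Q0, hQ0⟩ := exists_nsmul W h1 h3 h2 hn0 P
  rw [← card_tors W h1 h3 h2 hn]
  refine Nat.card_congr ⟨fun Q => ⟨Q.1 - Q0, by rw [smul_sub, Q.2, hQ0, sub_self]⟩,
    fun Q => ⟨Q.1 + Q0, by rw [smul_add, Q.2, zero_add, hQ0]⟩, fun Q => ?_, fun Q => ?_⟩
  · exact Subtype.ext (sub_add_cancel _ _)
  · exact Subtype.ext (add_sub_cancel_right _ _)

omit [DecidableEq F] in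
theorem card_isRoot [DecidableEq F] {p : F[X]} (hp : p ≠ 0) :
    Nat.card {x : F // p.IsRoot x} = p.roots.toFinset.card := by
  rw [Nat.card_congr (Equiv.subtypeEquivRight (q := fun x => x ∈ p.roots.toFinset)
    fun x => by rw [Multiset.mem_toFinset, mem_roots hp]), Nat.card_eq_fintype_card,
    Fintype.card_coe]

omit [DecidableEq F] in
theorem fib_separable_alg [IsAlgClosed F] (h1 : W.a₁ = 0) (h3 : W.a₃ = 0) (h2 : (2 : F) ≠ 0)
    {n : ℕ} (hn : (n : F) ≠ 0) {a : F} (ha : a ^ 3 + W.a₂ * a ^ 2 + W.a₄ * a + W.a₆ ≠ 0) :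
    (fib W n a).Separable := by
  classical
  have hn0 : n ≠ 0 := by
    rintro rfl
    exact hn Nat.cast_zero
  obtain ⟨b, hb⟩ := IsAlgClosed.exists_pow_nat_eq (a ^ 3 + W.a₂ * a ^ 2 + W.a₄ * a + W.a₆)
    (n := 2) two_pos
  have hb0 : b ≠ 0 := by
    rintro rfl
    rw [zero_pow two_ne_zero] at hb
    exact ha hb.symm
  have h := ns_of W h1 h3 hb
  obtain ⟨fm, fd⟩ := fib_deg W hn0 a
  have e := card_fibre W h1 h3 h2 (n := n) (fun z => IsAlgClosed.exists_pow_nat_eq z two_pos) h hb0
  rw [card_fibre_alg W h1 h3 h2 hn, card_isRoot fm.ne_zero] at e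
  have hs := IsAlgClosed.splits (fib W n a)
  rw [← nodup_roots_iff_of_splits fm.ne_zero hs]
  have h5 := hs.natDegree_eq_card_roots
  rw [fd, e] at h5
  exact Multiset.dedup_card_eq_card_iff_nodup.1 h5

omit [DecidableEq F] in
theorem fib_separable (h1 : W.a₁ = 0) (h3 : W.a₃ = 0) (h2 : (2 : F) ≠ 0) {n : ℕ}
    (hn : (n : F) ≠ 0) {a : F} (ha : a ^ 3 + W.a₂ * a ^ 2 + W.a₄ * a + W.a₆ ≠ 0) :
    ((mp W n).1 - C a * (mp W n).2).Separable := by
  set φ := algebraMap F (AlgebraicClosure F) with hφ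
  have hell : (W.map φ).IsElliptic := ⟨by
    rw [WeierstrassCurve.map_Δ]
    exact W.isUnit_Δ.map φ⟩
  have h := fib_separable_alg (W.map φ) (n := n) (a := φ a)
    (by rw [WeierstrassCurve.map_a₁, h1, map_zero]) (by rw [WeierstrassCurve.map_a₃, h3, map_zero])
    (by
      intro h0
      apply h2
      apply φ.injective
      rw [map_ofNat, h0, map_zero])
    (by
      intro h0
      apply hn
      apply φ.injective
      rw [map_natCast, h0, map_zero])
    (by
      intro h0
      apply ha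
      apply φ.injective
      rw [map_zero, ← h0, WeierstrassCurve.map_a₂, WeierstrassCurve.map_a₄,
        WeierstrassCurve.map_a₆]
      simp only [map_add, map_mul, map_pow])
  rw [fib, mp_map] at h
  rw [← Polynomial.separable_map φ, Polynomial.map_sub, Polynomial.map_mul, Polynomial.map_C]
  exact h

end alg

end Pool.Agent.SmL.E
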