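import Pool.Agent.Lib.SmL.E.FixE
import Pool.Agent.Lib.SmL.E.Big

/-!
# SMITH-L block E, module E6E: the field `e6` of `TOk`; see the header of `FixE`
-/

set_option autoImplicit false

open WeierstrassCurve
open scoped WeierstrassCurve.Affine

namespace Pool.Agent.SmL.E

open Pool.Agent.Lib.SmD Pool.Agent.BSDFF

theorem div_EE {K Ω : Type} [Field K] [Field Ω] [DecidableEq Ω] [Algebra K Ω] [IsSepClosed Ω]
    (W : WeierstrassCurve K) [W.IsElliptic] {w : ValuationSubring Ω} (hI : IntC (W⁄Ω) w) {l : ℕ}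
    (ho : Odd l) (hl : w.valuation (l : Ω) = 1) {D : Subgroup (Ω ≃ₐ[K] Ω)} (hD : D ≤ dec K w)
    {P : (W⁄Ω).Point} (hP : ∀ s ∈ D, gE W s P = P) (hPE : P ∈ EE (W⁄Ω) w) :
    ∃ Q, (∀ s ∈ D, gE W s Q = Q) ∧ Q ∈ EE (W⁄Ω) w ∧ l • Q = P := by
  rcases hPE with h0 | ⟨a, b, h, e, ha⟩
  · exact ⟨0, fun s _ => gE_zero s, Or.inl rfl, by rw [smul_zero]; exact h0.symm⟩
  · obtain ⟨x, y, hx, mx, eQ⟩ := exists_big hI ho hl h ha
    refine ⟨Affine.Point.some x y hx, fun s hs => ?_, Or.inr ⟨x, y, hx, rfl, mx⟩, eQ.trans e.symm⟩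
    have h1 : l • gE W s (Affine.Point.some x y hx) = Affine.Point.some a b h := by
      rw [← map_nsmul]
      have h2 : gE W s (l • Affine.Point.some x y hx) = gE W s P := by
        rw [eQ, e]
      exact h2.trans ((hP s hs).trans e)
    rw [gE_some s hx] at h1
    have mx' : s x ∉ w := fun hc => mx (((mem_dec K).1 (hD hs) x).1 hc)
    obtain ⟨ex, ey⟩ := big_unique hI ho hl h ha hx (ns_act s hx) mx mx' eQ h1
    rw [gE_some s hx, Affine.Point.some.injEq]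
    exact ⟨ex, ey⟩

/-- pure group theory: `M = M[l ^ ∞] + l ^ m M` -/
private theorem ldiv_groupL {M : Type} [AddCommGroup M] {l : ℕ} (hp : l.Prime) (V : Set M)
    (F : AddSubgroup M)
    (hV : ∀ u ∈ V, u ∈ F → ∃ u' ∈ V, u' ∈ F ∧ l • u' = u)
    {P : M} (hPF : P ∈ F) (hP : ∃ n : ℕ, 0 < n ∧ n • P ∈ V) (j : ℕ) :
    ∃ t R : M, (∃ i : ℕ, l ^ i • t = 0) ∧ R ∈ F ∧ P = t + l ^ j • R := by
  have hk : ∀ k : ℕ, ∀ u ∈ V, u ∈ F → ∃ u' ∈ V, u' ∈ F ∧ l ^ k • u' = u := by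
    intro k
    induction k with
    | zero => exact fun u hu hF => ⟨u, hu, hF, by rw [pow_zero, one_smul]⟩
    | succ k ih =>
      intro u hu hF
      obtain ⟨u', hu', hF', h1⟩ := ih u hu hF
      obtain ⟨u'', hu'', hF'', h2⟩ := hV u' hu' hF'
      exact ⟨u'', hu'', hF'', by rw [pow_succ, mul_smul, h2, h1]⟩
  obtain ⟨n, hn, hnV⟩ := hP
  obtain ⟨a, m, hm, hnm⟩ := Nat.exists_eq_pow_mul_and_not_dvd hn.ne' l hp.ne_one
  obtain ⟨R₀, -, hR₀, e₀⟩ := hk (a + j) _ hnV (F.nsmul_mem hPF n)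
  have hcop : IsCoprime (m : ℤ) ((l : ℤ) ^ j) := by
    have h3 : Nat.Coprime m (l ^ j) :=
      Nat.Coprime.pow_right j ((Nat.Prime.coprime_iff_not_dvd hp).mpr hm).symm
    have h4 := Nat.isCoprime_iff_coprime.mpr h3
    rwa [Nat.cast_pow] at h4
  obtain ⟨r, s, hrs⟩ := hcop
  refine ⟨r • (m • P - l ^ j • R₀), r • R₀ + s • P, ⟨a, ?_⟩,
    F.add_mem (F.zsmul_mem hR₀ r) (F.zsmul_mem hPF s), ?_⟩
  · rw [smul_comm, smul_sub, ← mul_smul, ← mul_smul, ← pow_add, e₀, ← hnm, sub_self, smul_zero]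
  · have e5 : (m : ℤ) • P = m • P := natCast_zsmul P m
    have e6 : ∀ x : M, ((l : ℤ) ^ j) • x = l ^ j • x := fun x => by
      rw [← natCast_zsmul]
      push_cast
      rfl
    have e4 : (r * (m : ℤ) + s * (l : ℤ) ^ j) • P = P := by rw [hrs, one_smul]
    rw [add_smul, mul_smul, mul_smul, e5, e6] at e4
    rw [smul_sub, smul_add]
    calc P = r • m • P + s • l ^ j • P := e4.symm
      _ = r • m • P - r • l ^ j • R₀ + (l ^ j • r • R₀ + l ^ j • s • P) := by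
        rw [smul_comm s, smul_comm r (l ^ j)]
        abel

variable {k K Ω : Type} [Field k] [Finite k] [Field K] [Algebra k K] [Algebra (RatFunc k) K]
  [IsScalarTower k (RatFunc k) K] [FiniteDimensional (RatFunc k) K]
  [Algebra.IsSeparable (RatFunc k) K] [Field Ω] [DecidableEq Ω] [Algebra K Ω] [IsSepClosure K Ω]
  (W : WeierstrassCurve K) [W.IsElliptic]

include k in
/-- The case of an integral model. -/
private theorem split_int (h2 : (2 : k) ≠ 0) {l : ℕ} (hp : l.Prime)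
    (ho : l ≠ 2) (hl : (l : k) ≠ 0) {w : ValuationSubring Ω} (hw : w ≠ ⊤) (hI : IntC (W⁄Ω) w)
    {U : Subgroup (Ω ≃ₐ[K] Ω)} (hU : IsOpen (U : Set (Ω ≃ₐ[K] Ω))) :
    SplitL l (gE (Ω := Ω) W) (dec K w ⊓ U) := by
  have : IsSepClosed Ω := IsSepClosure.sep_closed K
  intro P hP m
  let F : AddSubgroup (W⁄Ω).Point :=
    { carrier := {Q | ∀ s ∈ dec K w ⊓ U, gE W s Q = Q}
      zero_mem' := fun s _ => gE_zero s
      add_mem' := fun {a b} ha hb s hs => by rw [map_add, ha s hs, hb s hs]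
      neg_mem' := fun {a} ha s hs => by rw [map_neg, ha s hs] }
  have hvl : w.valuation (l : Ω) = 1 := val_unit (k := k) (K := K) w hl
  exact ldiv_groupL hp (EE (W⁄Ω) w) F
    (fun u hu hF => by
      obtain ⟨Q, hQ, hQE, e⟩ := div_EE W hI (hp.odd_of_ne_two ho) hvl inf_le_left hF hu
      exact ⟨Q, hQE, hQ, e⟩)
    hP (mul_EE (k := k) W h2 hw hI hU fun s hs hsU => hP s ⟨hs, hsU⟩) m

include k in
theorem split_E (h1 : W.a₁ = 0) (h3 : W.a₃ = 0) (h2 : (2 : k) ≠ 0) {l : ℕ} (hp : l.Prime)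
    (ho : l ≠ 2) (hl : (l : k) ≠ 0) {w : ValuationSubring Ω} (hw : w ≠ ⊤)
    {U : Subgroup (Ω ≃ₐ[K] Ω)} (hU : IsOpen (U : Set (Ω ≃ₐ[K] Ω))) :
    SplitL l (gE (Ω := Ω) W) (dec K w ⊓ U) := by
  have hsep : Algebra.IsSeparable K Ω := IsSepClosure.separable
  have halg : Algebra.IsAlgebraic K Ω := inferInstance
  obtain ⟨π, hL⟩ := GBU.exists_locHyp_of_ne_top k K h2 w hw
  obtain ⟨u, hu, hI⟩ := exists_scl W hL
  have hell := scl_elliptic W u h1 h3 hu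
  obtain ⟨T, hT⟩ := exists_sclE (Ω := Ω) W u h1 h3 hu
  intro P hP m
  obtain ⟨t, R, ⟨i, hi⟩, hR, e⟩ := split_int (k := k) (scl W u) h2 hp ho hl hw hI hU (T P)
    (fun s hs => by rw [hT, hP s hs]) m
  refine ⟨T.symm t, T.symm R, ⟨i, ?_⟩, fun s hs => ?_, ?_⟩
  · rw [← map_nsmul, hi, map_zero]
  · apply T.injective
    rw [← hT, T.apply_symm_apply]
    exact hR s hs
  · apply T.injective
    rw [map_add, map_nsmul, T.apply_symm_apply, T.apply_symm_apply]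
    exact e

include k in
theorem e6_E (h1 : W.a₁ = 0) (h3 : W.a₃ = 0) (h2 : (2 : k) ≠ 0) {l : ℕ} (hp : l.Prime)
    (ho : l ≠ 2) (hl : (l : k) ≠ 0) {w : ValuationSubring Ω} (hw : w ≠ ⊤)
    {U : Subgroup (Ω ≃ₐ[K] Ω)} (hU : IsOpen (U : Set (Ω ≃ₐ[K] Ω))) (j : ℕ) (Q : (W⁄Ω).Point)
    (hQ : ∀ s ∈ dec K w, s ∈ U → l ^ j • (gE W s Q - Q) = 0) :
    ∃ Q' : (W⁄Ω).Point, (∃ i : ℕ, l ^ i • Q' = 0) ∧
      ∀ s ∈ dec K w, s ∈ U → gE W s Q - Q = gE W s Q' - Q' := by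
  obtain ⟨Q', h, h'⟩ := e6_of_splitL (split_E (k := k) W h1 h3 h2 hp ho hl hw hU) j Q
    fun s hs => hQ s hs.1 hs.2
  exact ⟨Q', h, fun s hs hsU => h' s ⟨hs, hsU⟩⟩

end Pool.Agent.SmL.E
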