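import Pool.Agent.Lib.SmL.V.EDefs
import Pool.Agent.Lib.GBU.PlA
import Pool.Agent.Lib.SM.E.FinCl
import Pool.Agent.Lib.SmJ.Inst.FinInv

/-!
# SMITH-L block E, module LocF: the fields over the local fields

`U` open, so there is a finite extension `L` of `K` in `Ω` with `Gal(Ω/L) ≤ U`. `L` is again finite and
separable over `k(t)`, so `LocHyp L w π` holds (`GBU.exists_locHyp_of_ne_top k L`), there is a Frobenius
element (`IsFrob L w φ`; see `SmD`, `exists_frob`), the elements fixed by `dec L w` have the values of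
the powers of `π` (`hval`: see the proof of `fin_pmJ` in `SmJ/Inst/FinInv`, lines 32 - 39), and
`fin_classes` (`SM/E/FinCl`) over `L` gives the claim: an element fixed by `dec K w ⊓ U` is fixed by
`dec L w` (restrict scalars).
`val_unit`: nonzero constants are roots of unity.
-/

set_option autoImplicit false

namespace Pool.Agent.SmL.E

open Pool.Agent.Lib.SmD Pool.Agent.BSDFF

/-- A natural number which is not zero in `k` is a unit of `w`. -/
theorem val_unit (k K : Type) {Ω : Type} [Field k] [Finite k] [Field K] [Algebra k K] [Field Ω]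
    [Algebra K Ω] (w : ValuationSubring Ω) {n : ℕ} (hn : (n : k) ≠ 0) :
    w.valuation (n : Ω) = 1 := by
  have h3 : w.valuation (algebraMap K Ω (algebraMap k K (n : k))) = 1 := by
    refine val_unit_below (K := K) ?_ ?_ ?_
    · exact GBU.const_mem_of_finite (algebraMap k K) (below K w) _
    · rw [← map_inv₀]
      exact GBU.const_mem_of_finite (algebraMap k K) (below K w) _
    · exact (map_ne_zero_iff _ (algebraMap k K).injective).2 hn
  rwa [map_natCast, map_natCast] at h3

variable {k K Ω : Type} [Field k] [Finite k] [Field K] [Algebra k K] [Algebra (RatFunc k) K]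
  [IsScalarTower k (RatFunc k) K] [FiniteDimensional (RatFunc k) K]
  [Algebra.IsSeparable (RatFunc k) K] [Field Ω] [Algebra K Ω] [IsSepClosure K Ω]

/-- Finitely many classes of the integral elements fixed by the decomposition group over `K`. -/
theorem fin_classes_dec (h2 : (2 : k) ≠ 0) {w : ValuationSubring Ω} (hw : w ≠ ⊤) {t : K}
    (ht : t ≠ 0) :
    ∃ Fs : Set Ω, Fs.Finite ∧ ∀ u, w.valuation u ≤ 1 → (∀ s ∈ dec K w, s u = u) →
      ∃ f ∈ Fs, w.valuation (u - f) ≤ w.valuation (algebraMap K Ω t) := by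
  have : IsGalois K Ω := inferInstance
  obtain ⟨π, hL⟩ := GBU.exists_locHyp_of_ne_top k K h2 w hw
  have := hL.fin
  obtain ⟨φ, hφ⟩ : ∃ φ, IsFrob K w φ := exists_frob w
  have hval : ∀ x : Ω, x ≠ 0 → (∀ s ∈ dec K w, s x = x) →
      ∃ n : ℤ, w.valuation x = w.valuation (algebraMap K Ω π) ^ n :=
    fun x hx hfix => value_iner hL hx fun σ hσ => hfix σ (iner_le_dec _ _ hσ)
  exact SmithE.fin_classes hL hφ hval t ht

/-- Finitely many classes of the integral elements fixed by `dec K w ⊓ U` modulo small elements. -/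
theorem hFin_open (h2 : (2 : k) ≠ 0) {w : ValuationSubring Ω} (hw : w ≠ ⊤)
    {U : Subgroup (Ω ≃ₐ[K] Ω)} (hU : IsOpen (U : Set (Ω ≃ₐ[K] Ω))) {t : K} (ht : t ≠ 0) :
    ∃ Fs : Set Ω, Fs.Finite ∧ ∀ u, w.valuation u ≤ 1 → (∀ s ∈ dec K w, s ∈ U → s u = u) →
      ∃ f ∈ Fs, w.valuation (u - f) ≤ w.valuation (algebraMap K Ω t) := by
  obtain ⟨L, hfin, hLU⟩ := (krullTopology_mem_nhds_one_iff K Ω U).1 (hU.mem_nhds U.one_mem)
  have := hfin
  let aL : Algebra (RatFunc k) L := ((algebraMap K L).comp (algebraMap (RatFunc k) K)).toAlgebra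
  let akL : Algebra k L := ((algebraMap K L).comp (algebraMap k K)).toAlgebra
  have t1 : IsScalarTower (RatFunc k) K L := IsScalarTower.of_algebraMap_eq fun _ => rfl
  have t2 : IsScalarTower k (RatFunc k) L := IsScalarTower.of_algebraMap_eq fun x => by
    change algebraMap K L (algebraMap k K x) = algebraMap K L (algebraMap (RatFunc k) K _)
    rw [IsScalarTower.algebraMap_apply k (RatFunc k) K]
  have f1 : FiniteDimensional (RatFunc k) L := FiniteDimensional.trans (RatFunc k) K L
  have s0 : Algebra.IsSeparable K L := by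
    have : Algebra.IsSeparable K Ω := IsSepClosure.separable
    exact Algebra.isSeparable_tower_bot_of_isSeparable K L Ω
  have s1 : Algebra.IsSeparable (RatFunc k) L := Algebra.IsSeparable.trans (RatFunc k) K L
  have c1 : IsSepClosure L Ω := by
    have h1 : IsSepClosed Ω := IsSepClosure.sep_closed K
    have h2 : Algebra.IsSeparable K Ω := IsSepClosure.separable
    exact ⟨h1, Algebra.isSeparable_tower_top_of_isSeparable K L Ω⟩
  have ht' : algebraMap K L t ≠ 0 := (map_ne_zero_iff _ (algebraMap K L).injective).2 ht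
  obtain ⟨Fs, hFs, h⟩ := fin_classes_dec (k := k) (K := L) h2 hw ht'
  refine ⟨Fs, hFs, fun u hu hfix => ?_⟩
  obtain ⟨f, hf, hfu⟩ := h u hu fun s hs => by
    have hr : ∀ x, (s.restrictScalars K) x = s x := fun _ => rfl
    rw [← hr]
    refine hfix (s.restrictScalars K) ?_ (hLU ?_)
    · rw [mem_dec] at hs ⊢
      exact hs
    · rw [SetLike.mem_coe, IntermediateField.mem_fixingSubgroup_iff]
      intro x hx
      exact s.commutes ⟨x, hx⟩
  refine ⟨f, hf, ?_⟩
  rwa [← IsScalarTower.algebraMap_apply K L Ω] at hfu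

end Pool.Agent.SmL.E
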