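import Pool.Agent.Lib.SmL.E.Scl
import Pool.Agent.Lib.SmL.E.LocF

/-!
# SMITH-L block E, module FixE: the fields `fix` and `e6` of `TOk`

By `exists_scl`, `exists_sclE` it is enough to treat a curve `W` with `IntC (W⁄Ω) w`. `t = π ^ N` with
`|t| < |Δ|` (`exists_small`, `exists_pow_le` in `SM/E/FinCl`).

`fix_E`: a point `(x, y)` of `l`-power order fixed by `D' = dec K w ⊓ U` is integral (`int_of_tors`), so `x`
and `y` are within `|t|` of the elements of the finite set `Fs` of `hFin_open`; two such points with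
the same approximations are equal (`eq_of_near`).

`mul_EE`: every `P` fixed by `D'` has a positive multiple in `EE`: otherwise all the multiples are
integral, and two multiples `m P`, `m' P`, `m ≠ m'`, have the same approximations by `Fs × Fs`
(pigeonhole), so `(m' - m) P ∈ EE` by `near` (`O ∈ EE`).

`div_EE`: every `P ∈ EE` fixed by `D'` is `l Q` with `Q ∈ EE` fixed by `D'`: `exists_big`, and
`big_unique` for `Q` and `s Q`, `s ∈ D'` (`s` maps `w` onto `w`).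

`split_E`, `e6_E`: pure group theory as in `SmNJ/E6N` (`Split`, `e6_of_split` with `l` instead of `2`) and
`ldiv_group` in `SM/E/LDivA`: `n P ∈ EE`, `n = l ^ a m`, `(m, l) = 1`, `n P = l ^ (a + j) R`,
`T = m P - l ^ j R` is killed by `l ^ a`, `r m + s l ^ j = 1`: `P = r T + l ^ j (r R + s P)`.
-/

set_option autoImplicit false

open WeierstrassCurve
open scoped WeierstrassCurve.Affine

namespace Pool.Agent.SmL.E

open Pool.Agent.Lib.SmD Pool.Agent.BSDFF Pool.Agent.SmithE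

/-- Every element fixed by `D` is the sum of a fixed element of `l`-power order and of `l ^ m` times
a fixed element. -/
def SplitL {G M : Type} [Group G] [AddCommGroup M] (l : ℕ) (ρ : G → M →+ M) (D : Subgroup G) :
    Prop :=
  ∀ P : M, (∀ s ∈ D, ρ s P = P) → ∀ m : ℕ, ∃ t R : M, (∃ i : ℕ, l ^ i • t = 0) ∧
    (∀ s ∈ D, ρ s R = R) ∧ P = t + l ^ m • R

theorem e6_of_splitL {G M : Type} [Group G] [AddCommGroup M] {l : ℕ} {ρ : G → M →+ M}
    {D : Subgroup G} (h : SplitL l ρ D) (j : ℕ) (Q : M)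
    (hQ : ∀ s ∈ D, l ^ j • (ρ s Q - Q) = 0) :
    ∃ Q' : M, (∃ i : ℕ, l ^ i • Q' = 0) ∧ ∀ s ∈ D, ρ s Q - Q = ρ s Q' - Q' := by
  obtain ⟨t, R, ⟨i, hi⟩, hR, e⟩ := h (l ^ j • Q) (fun s hs => by
    rw [map_nsmul, ← sub_eq_zero, ← smul_sub]
    exact hQ s hs) j
  refine ⟨Q - R, ⟨i + j, ?_⟩, fun s hs => ?_⟩
  · have e2 : l ^ j • (Q - R) = t := by
      rw [smul_sub, e]
      abel
    rw [pow_add, mul_smul, e2, hi]
  · rw [map_sub, hR s hs]
    abel

variable {k K Ω : Type} [Field k] [Finite k] [Field K] [Algebra k K] [Algebra (RatFunc k) K]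
  [IsScalarTower k (RatFunc k) K] [FiniteDimensional (RatFunc k) K]
  [Algebra.IsSeparable (RatFunc k) K] [Field Ω] [DecidableEq Ω] [Algebra K Ω] [IsSepClosure K Ω]
  (W : WeierstrassCurve K) [W.IsElliptic]

include k in
omit [DecidableEq Ω] in
/-- Approximation by the elements of a finite set. -/
private theorem exists_approx (h2 : (2 : k) ≠ 0) {w : ValuationSubring Ω} (hw : w ≠ ⊤)
    {U : Subgroup (Ω ≃ₐ[K] Ω)} (hU : IsOpen (U : Set (Ω ≃ₐ[K] Ω))) :
    ∃ (Fs : Set Ω) (g : Ω → Ω), Fs.Finite ∧ ∀ u, w.valuation u ≤ 1 →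
      (∀ s ∈ dec K w, s ∈ U → s u = u) →
      g u ∈ Fs ∧ w.valuation (u - g u) < w.valuation (W⁄Ω).Δ := by
  classical
  have : Algebra.IsSeparable K Ω := IsSepClosure.separable
  obtain ⟨π, hL⟩ := Pool.Agent.GBU.exists_locHyp_of_ne_top k K h2 w hw
  have hΔ : W.Δ ≠ 0 := W.isUnit_Δ.ne_zero
  obtain ⟨N, hN⟩ := exists_pow_le hL hΔ
  have ht : π ^ (N + 1) ≠ 0 := pow_ne_zero _ hL.pi_ne
  have hlt : w.valuation (algebraMap K Ω (π ^ (N + 1))) < w.valuation (W⁄Ω).Δ := by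
    have e : (W⁄Ω).Δ = algebraMap K Ω W.Δ := W.map_Δ (algebraMap K Ω)
    rw [e]
    refine lt_of_lt_of_le ?_ hN
    rw [map_pow, map_pow]
    exact pow_lt_pow_right_of_lt_one₀ (zero_lt_iff.mpr (locHyp_pos hL)) hL.pi_lt (by omega)
  obtain ⟨Fs, hF, h⟩ := hFin_open h2 hw hU ht
  choose! g hg using h
  exact ⟨Fs, g, hF, fun u hu hs => ⟨(hg u hu hs).1, (hg u hu hs).2.trans_lt hlt⟩⟩

omit [W.IsElliptic] [DecidableEq Ω] [IsSepClosure K Ω] in
private theorem approx_lt {w : ValuationSubring Ω} {g : Ω → Ω} {u u' : Ω} (e : g u = g u')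
    (h : w.valuation (u - g u) < w.valuation (W⁄Ω).Δ)
    (h' : w.valuation (u' - g u') < w.valuation (W⁄Ω).Δ) :
    w.valuation (u' - u) < w.valuation (W⁄Ω).Δ := by
  have e1 : u' - u = (u' - g u') - (u - g u) := by rw [e]; ring
  rw [e1]
  exact (w.valuation.map_sub _ _).trans_lt (max_lt h' h)

omit [IsSepClosure K Ω] [W.IsElliptic] in
private theorem fix_coord {x y : Ω} {h : (W⁄Ω).Nonsingular x y} {s : Ω ≃ₐ[K] Ω}
    (e : gE W s (.some x y h) = .some x y h) : s x = x ∧ s y = y := by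
  rw [gE_some, Affine.Point.some.injEq] at e
  exact e

/-- The torsion, for an integral model. -/
private theorem fix_int (h2 : (2 : k) ≠ 0) {l : ℕ} (hl : (l : k) ≠ 0)
    {w : ValuationSubring Ω} (hw : w ≠ ⊤) (hI : IntC (W⁄Ω) w) {U : Subgroup (Ω ≃ₐ[K] Ω)}
    (hU : IsOpen (U : Set (Ω ≃ₐ[K] Ω))) :
    {P : (W⁄Ω).Point | (∃ n : ℕ, l ^ n • P = 0) ∧
      ∀ s ∈ dec K w, s ∈ U → gE W s P = P}.Finite := by
  classical
  obtain ⟨Fs, g, hF, hg⟩ := exists_approx (k := k) W h2 hw hU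
  have hval : ∀ n : ℕ, w.valuation ((l ^ n : ℕ) : Ω) = 1 := fun n =>
    val_unit k K w (by rw [Nat.cast_pow]; exact pow_ne_zero _ hl)
  have hle : ∀ {u : Ω}, u ∈ w → w.valuation u ≤ 1 := fun hu =>
    (ValuationSubring.valuation_le_one_iff _ _).mpr hu
  have hB : (insert none (some '' (Fs ×ˢ Fs)) : Set (Option (Ω × Ω))).Finite :=
    ((hF.prod hF).image _).insert _
  refine Set.Finite.of_finite_image (f := fun P : (W⁄Ω).Point => match P with
    | .zero => (none : Option (Ω × Ω))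
    | .some x y _ => some (g x, g y)) (hB.subset ?_) ?_
  · rintro _ ⟨P, ⟨⟨n, hn⟩, hP⟩, rfl⟩
    rcases P with _ | ⟨x, y, h⟩
    · exact Set.mem_insert _ _
    · obtain ⟨hx, hy⟩ := int_of_tors hI (hval n) h hn
      refine Set.mem_insert_of_mem _ ⟨(g x, g y), ⟨(hg x (hle hx) fun s h1 h3 => ?_).1,
        (hg y (hle hy) fun s h1 h3 => ?_).1⟩, rfl⟩
      · exact (fix_coord W (hP s h1 h3)).1
      · exact (fix_coord W (hP s h1 h3)).2
  · rintro P ⟨⟨n, hn⟩, hP⟩ P' ⟨⟨n', hn'⟩, hP'⟩ e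
    rcases P with _ | ⟨x, y, h⟩ <;> rcases P' with _ | ⟨x', y', h'⟩
    · rfl
    · exact absurd e (by simp)
    · exact absurd e (by simp)
    · simp only [Option.some.injEq, Prod.mk.injEq] at e
      obtain ⟨hx, hy⟩ := int_of_tors hI (hval n) h hn
      obtain ⟨hx', hy'⟩ := int_of_tors hI (hval n') h' hn'
      have a1 := (hg x (hle hx) fun s h1 h3 => (fix_coord W (hP s h1 h3)).1).2
      have a2 := (hg x' (hle hx') fun s h1 h3 => (fix_coord W (hP' s h1 h3)).1).2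
      have a3 := (hg y (hle hy) fun s h1 h3 => (fix_coord W (hP s h1 h3)).2).2
      have a4 := (hg y' (hle hy') fun s h1 h3 => (fix_coord W (hP' s h1 h3)).2).2
      have b : l ^ (n + n') • Affine.Point.some x y h = 0 := by
        rw [pow_add, mul_comm, mul_smul, hn, smul_zero]
      have b' : l ^ (n + n') • Affine.Point.some x' y' h' = 0 := by
        rw [pow_add, mul_smul, hn', smul_zero]
      obtain ⟨e1, e2⟩ := eq_of_near hI (hval (n + n')) h h' b b' (approx_lt W e.1 a1 a2)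
        (approx_lt W e.2 a3 a4)
      subst e1 e2
      rfl

include k in
theorem fix_E (h1 : W.a₁ = 0) (h3 : W.a₃ = 0) (h2 : (2 : k) ≠ 0) {l : ℕ} (hl : (l : k) ≠ 0)
    {w : ValuationSubring Ω} (hw : w ≠ ⊤) {U : Subgroup (Ω ≃ₐ[K] Ω)}
    (hU : IsOpen (U : Set (Ω ≃ₐ[K] Ω))) :
    {P : (W⁄Ω).Point | (∃ n : ℕ, l ^ n • P = 0) ∧
      ∀ s ∈ dec K w, s ∈ U → gE W s P = P}.Finite := by
  have : Algebra.IsSeparable K Ω := IsSepClosure.separable
  obtain ⟨π, hL⟩ := Pool.Agent.GBU.exists_locHyp_of_ne_top k K h2 w hw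
  obtain ⟨u, hu, hI⟩ := exists_scl W hL
  obtain ⟨T, hT⟩ := exists_sclE (Ω := Ω) W u h1 h3 hu
  have := scl_elliptic W u h1 h3 hu
  have hS := fix_int (k := k) (scl W u) h2 hl hw hI hU
  refine (hS.preimage T.injective.injOn).subset ?_
  rintro P ⟨⟨n, hn⟩, hP⟩
  exact ⟨⟨n, by rw [← map_nsmul, hn, map_zero]⟩, fun s h4 h5 => by rw [hT, hP s h4 h5]⟩

omit [IsSepClosure K Ω] [W.IsElliptic] [DecidableEq Ω] in
private theorem y_mem {w : ValuationSubring Ω} (hI : IntC (W⁄Ω) w) {x y : Ω}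
    (h : (W⁄Ω).Nonsingular x y) (hx : x ∈ w) : y ∈ w := by
  have e := h.1
  rw [Affine.equation_iff, hI.h1, hI.h3] at e
  have e1 : y ^ 2 ∈ w := by
    have e2 : y ^ 2 = x ^ 3 + (W⁄Ω).a₂ * x ^ 2 + (W⁄Ω).a₄ * x + (W⁄Ω).a₆ := by
      linear_combination e
    rw [e2]
    exact w.add_mem _ _ (w.add_mem _ _ (w.add_mem _ _ (pow_mem hx 3) (w.mul_mem _ _ hI.m2
      (pow_mem hx 2))) (w.mul_mem _ _ hI.m4 hx)) hI.m6
  rw [← ValuationSubring.valuation_le_one_iff, map_pow] at e1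
  rw [← ValuationSubring.valuation_le_one_iff]
  exact (pow_le_one_iff two_ne_zero).mp e1

include k in
theorem mul_EE (h2 : (2 : k) ≠ 0) {w : ValuationSubring Ω} (hw : w ≠ ⊤) (hI : IntC (W⁄Ω) w)
    {U : Subgroup (Ω ≃ₐ[K] Ω)} (hU : IsOpen (U : Set (Ω ≃ₐ[K] Ω))) {P : (W⁄Ω).Point}
    (hP : ∀ s ∈ dec K w, s ∈ U → gE W s P = P) :
    ∃ n : ℕ, 0 < n ∧ n • P ∈ EE (W⁄Ω) w := by
  classical
  by_contra hcon
  push Not at hcon
  obtain ⟨Fs, g, hF, hg⟩ := exists_approx (k := k) W h2 hw hU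
  have hle : ∀ {u : Ω}, u ∈ w → w.valuation u ≤ 1 := fun hu =>
    (ValuationSubring.valuation_le_one_iff _ _).mpr hu
  have key : ∀ n : ℕ, ∃ (x y : Ω) (h : (W⁄Ω).Nonsingular x y), (n + 1) • P = .some x y h ∧
      x ∈ w := by
    intro n
    have h1 := hcon (n + 1) (by omega)
    rcases e : (n + 1) • P with _ | ⟨x, y, h⟩
    · exact absurd (Or.inl e) h1
    · refine ⟨x, y, h, rfl, ?_⟩
      by_contra hx
      exact h1 (Or.inr ⟨x, y, h, e, hx⟩)
  choose x y h he hx using key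
  have hy : ∀ n, y n ∈ w := fun n => y_mem W hI (h n) (hx n)
  have hfix : ∀ n, ∀ s ∈ dec K w, s ∈ U → s (x n) = x n ∧ s (y n) = y n := by
    intro n s h1 h3
    refine fix_coord W (h := h n) ?_
    rw [← he, map_nsmul, hP s h1 h3]
  have gx : ∀ n, g (x n) ∈ Fs ∧ w.valuation (x n - g (x n)) < w.valuation (W⁄Ω).Δ := fun n =>
    hg _ (hle (hx n)) fun s h1 h3 => (hfix n s h1 h3).1
  have gy : ∀ n, g (y n) ∈ Fs ∧ w.valuation (y n - g (y n)) < w.valuation (W⁄Ω).Δ := fun n =>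
    hg _ (hle (hy n)) fun s h1 h3 => (hfix n s h1 h3).2
  have := (hF.prod hF).to_subtype
  obtain ⟨m, m', hne, e⟩ := Finite.exists_ne_map_eq_of_infinite
    (fun n : ℕ => (⟨(g (x n), g (y n)), ⟨(gx n).1, (gy n).1⟩⟩ : (Fs ×ˢ Fs : Set (Ω × Ω))))
  replace e : (g (x m), g (y m)) = (g (x m'), g (y m')) := congrArg Subtype.val e
  rw [Prod.mk.injEq] at e
  have main : ∀ m m' : ℕ, m < m' → g (x m) = g (x m') → g (y m) = g (y m') → False := by
    intro m m' hlt e1 e2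
    have h1 := near hI (h m) (h m') (hx m) (hx m') (approx_lt W e1 (gx m).2 (gx m').2)
      (approx_lt W e2 (gy m).2 (gy m').2)
    rw [← he, ← he] at h1
    refine hcon (m' - m) (by omega) ?_
    have e3 : (m' - m) • P = (m' + 1) • P - (m + 1) • P := by
      rw [eq_sub_iff_add_eq, ← add_smul]
      congr 1
      omega
    rw [e3]
    exact h1
  rcases lt_or_gt_of_ne hne with hlt | hlt
  · exact main m m' hlt e.1 e.2
  · exact main m' m hlt e.1.symm e.2.symm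

end Pool.Agent.SmL.E
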