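import Pool.Agent.Lib.SmL.E.Red
import Pool.Agent.Lib.TTC.H.Good

/-!
# SMITH-L block E, module Has: Hasse's relation on the `l`-power torsion at a good place

`R = below K w`, `k_v` its residue field (`q` elements), `W₀` the model over `R`, `κ` the residue field of
`w`, a `k_v`-algebra. `W₁ = W₀` modulo the maximal ideal, elliptic over `k_v`. By `TTC.H.hasse_two` there is `t`
with `2 (Fr Fr P' - t Fr P' + q P') = 0` for all `P' ∈ W₁(κ)`. The Frobenius element `φ` reduces to `Fr`.
For `P` with `l ^ n P = O`, `D = φ φ P - t φ P + q P` reduces to `D'` with `2 D' = 0`, so `2 D` reduces to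
`O`, `2 D = O`, `D = O` as `l` is odd.
-/

set_option autoImplicit false

open WeierstrassCurve
open scoped WeierstrassCurve.Affine

namespace Pool.Agent.SmL.E

open Pool.Agent.Lib.SmD Pool.Agent.TTC.H IsLocalRing

private theorem has_one {Ω : Type} [Field Ω] {w : ValuationSubring Ω} {n : ℕ}
    (hn : w.valuation (n : Ω) = 1) {c : w} (hc : c ^ n = 1) (h1 : residue w c = 1) : c = 1 := by
  have e := mul_geom_sum c n
  rw [hc, sub_self] at e
  rcases mul_eq_zero.1 e with h | h
  · exact sub_eq_zero.1 h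
  · exfalso
    have h2 := congrArg (residue w) h
    rw [map_sum, map_zero] at h2
    simp only [map_pow, h1, one_pow, Finset.sum_const, Finset.card_range, nsmul_eq_mul,
      mul_one] at h2
    have h3 : residue w (n : w) = 0 := by rw [map_natCast]; exact h2
    rw [residue_eq_zero_iff, ValuationSubring.valuation_lt_one_iff] at h3
    have h4 : ((n : w) : Ω) = n := by norm_cast
    rw [h4, hn] at h3
    exact lt_irrefl _ h3

/-- The Frobenius element on the roots of unity. -/
theorem frob_zeta {K Ω : Type} [Field K] [Field Ω] [Algebra K Ω] {w : ValuationSubring Ω}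
    {φ : Ω ≃ₐ[K] Ω} (hφ : IsFrob K w φ) {n : ℕ} (hn : w.valuation (n : Ω) = 1) {ζ : Ω}
    (hζ : ζ ^ n = 1) : φ ζ = ζ ^ resCard (below K w) := by
  have hn0 : n ≠ 0 := by
    rintro rfl
    rw [Nat.cast_zero, map_zero] at hn
    exact zero_ne_one hn
  have hv : w.valuation ζ = 1 := by
    have h := congrArg w.valuation hζ
    rw [map_pow, map_one] at h
    exact (pow_left_inj₀ zero_le zero_le hn0).mp (by rw [h, one_pow])
  have hζw : ζ ∈ w := (ValuationSubring.valuation_le_one_iff w _).1 hv.le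
  have hφw : φ ζ ∈ w := ((mem_dec K).1 hφ.mem ζ).2 hζw
  have hf := hφ.frob ζ hζw
  set q := resCard (below K w)
  let a : w := ⟨φ ζ, hφw⟩
  let b : w := ⟨ζ, hζw⟩ ^ q
  have hb : b ^ n = 1 := by
    apply Subtype.ext
    change (ζ ^ q) ^ n = 1
    rw [← pow_mul, mul_comm, pow_mul, hζ, one_pow]
  have ha : a ^ n = 1 := by
    apply Subtype.ext
    change (φ ζ) ^ n = 1
    rw [← map_pow, hζ, map_one]
  have hab : residue w a = residue w b := by
    rw [← sub_eq_zero, ← map_sub, residue_eq_zero_iff, ValuationSubring.valuation_lt_one_iff]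
    exact hf
  obtain ⟨m, rfl⟩ : ∃ m, n = m + 1 := Nat.exists_eq_succ_of_ne_zero hn0
  have hc : a * b ^ m = 1 := by
    apply has_one hn
    · rw [mul_pow, ha, ← pow_mul, mul_comm m, pow_mul, hb, one_pow, one_mul]
    · rw [map_mul, hab, ← map_mul, mul_comm, ← pow_succ, hb, map_one]
  have h5 : a = b := by
    calc a = a * b ^ (m + 1) := by rw [hb, mul_one]
      _ = (a * b ^ m) * b := by rw [pow_succ, mul_assoc]
      _ = b := by rw [hc, one_mul]
  exact congrArg Subtype.val h5

section aux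

variable {K Ω : Type} [Field K] [Field Ω] [DecidableEq Ω] [Algebra K Ω] {w : ValuationSubring Ω}
  (W₀ : WeierstrassCurve (below K w))

/-- The Galois action on the points of `WF W₀ (bw w)`. -/
private noncomputable def hasG (φ : Ω ≃ₐ[K] Ω) :
    (WF W₀ (bw (K := K) w)).toAffine.Point →+ (WF W₀ (bw (K := K) w)).toAffine.Point :=
  gE (W₀.map (below K w).subtype) φ

private theorem hasse_aux [W₀.IsElliptic] (h1 : W₀.a₁ = 0) (h3 : W₀.a₃ = 0)
    (h2 : w.valuation (2 : Ω) = 1) [Finite (ResidueField (below K w))] {φ : Ω ≃ₐ[K] Ω}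
    (hφ : IsFrob K w φ) {l : ℕ} (ho : Odd l) (hl : w.valuation (l : Ω) = 1) :
    ∃ t : ℤ, ∀ P : (WF W₀ (bw (K := K) w)).toAffine.Point, (∃ n : ℕ, l ^ n • P = 0) →
      hasG W₀ φ (hasG W₀ φ P) - t • hasG W₀ φ P + (resCard (below K w) : ℤ) • P = 0 := by
  classical
  let _ : Fintype (ResidueField (below K w)) := Fintype.ofFinite _
  let _ : Algebra (ResidueField (below K w)) (ResidueField w) :=
    (ResidueField.map (bw (K := K) w)).toAlgebra
  have hcard : resCard (below K w) = Fintype.card (ResidueField (below K w)) :=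
    Nat.card_eq_fintype_card
  have hπ : ∀ x : w, w.valuation (x : Ω) < 1 → residue w x = 0 := fun x hx =>
    (residue_eq_zero_iff x).2 ((ValuationSubring.valuation_lt_one_iff w x).2 hx)
  have h2k : (2 : ResidueField (below K w)) ≠ 0 := by
    intro h0
    have h4 : residue (below K w) 2 = 0 := by rw [map_ofNat]; exact h0
    rw [residue_eq_zero_iff] at h4
    have h5 : IsUnit (2 : below K w) := by
      have hinv : (2 : K)⁻¹ ∈ below K w := by
        change algebraMap K Ω (2 : K)⁻¹ ∈ w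
        rw [map_inv₀, map_ofNat, ← ValuationSubring.valuation_le_one_iff, map_inv₀, h2, inv_one]
      have h20 : (2 : K) ≠ 0 := by
        intro h0
        rw [← map_ofNat (algebraMap K Ω), h0, map_zero, map_zero] at h2
        exact zero_ne_one h2
      exact IsUnit.of_mul_eq_one ⟨(2 : K)⁻¹, hinv⟩ (Subtype.ext (mul_inv_cancel₀ h20))
    exact (mem_maximalIdeal _).1 h4 h5
  obtain ⟨t, -, ht⟩ := hasse_two (W₀.map (residue (below K w)))
    (by rw [map_a₁, h1, map_zero]) (by rw [map_a₃, h3, map_zero]) h2k (ResidueField w)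
  refine ⟨t, ?_⟩
  set V := WF W₀ (bw (K := K) w) with hV
  set V' := WK W₀ (bw (K := K) w) (residue w) with hV'
  -- the Frobenius on the reduced points
  let F : V'.toAffine.Point →+ V'.toAffine.Point :=
    Fr (W₀.map (residue (below K w))) (ResidueField w)
  have hF : ∀ P' : V'.toAffine.Point,
      (2 : ℤ) • (F (F P') - t • F P' + (Fintype.card (ResidueField (below K w)) : ℤ) • P') = 0 :=
    ht
  have hmem : ∀ z : w, φ z ∈ w := fun z => ((mem_dec K).1 hφ.mem z).2 z.2
  have hres : ∀ z : w, residue w ⟨φ z, hmem z⟩ =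
      residue w z ^ Fintype.card (ResidueField (below K w)) := by
    intro z
    have h4 := hπ (⟨φ z, hmem z⟩ - z ^ Fintype.card (ResidueField (below K w))) (by
      have := hφ.frob z z.2
      rw [hcard] at this
      exact this)
    rw [map_sub, map_pow, sub_eq_zero] at h4
    exact h4
  have hred : ∀ {P : V.toAffine.Point} {P' : V'.toAffine.Point},
      Red W₀ (bw (K := K) w) (residue w) P P' →
        Red W₀ (bw (K := K) w) (residue w) (hasG W₀ φ P) (F P') := by
    intro P P' hr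
    rcases hr with ⟨p1, p2⟩ | ⟨x, y, h, h', p1, p2⟩
    · left
      rw [p1, p2, map_zero, map_zero]
      exact ⟨rfl, rfl⟩
    · right
      have m1 : (WF W₀ (bw (K := K) w)).toAffine.Nonsingular
          ((⟨φ x, hmem x⟩ : w) : Ω) ((⟨φ y, hmem y⟩ : w) : Ω) :=
        ns_act (W := W₀.map (below K w).subtype) φ h
      have m0 : V'.toAffine.Nonsingular
          (FiniteField.frobeniusAlgHom (ResidueField (below K w)) (ResidueField w) (residue w x))
          (FiniteField.frobeniusAlgHom (ResidueField (below K w)) (ResidueField w) (residue w y)) :=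
        ((W₀.map (residue (below K w))).toAffine.baseChange_nonsingular
          (FiniteField.frobeniusAlgHom (ResidueField (below K w))
            (ResidueField w)).injective _ _).2 h'
      have m2 : V'.toAffine.Nonsingular (residue w ⟨φ x, hmem x⟩) (residue w ⟨φ y, hmem y⟩) := by
        rw [hres, hres]
        exact m0
      refine ⟨⟨φ x, hmem x⟩, ⟨φ y, hmem y⟩, m1, m2, ?_, ?_⟩
      · rw [p1]
        rfl
      · have e1 : F (.some (residue w x) (residue w y) h') = .some _ _ m0 := rfl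
        rw [p2, e1, Affine.Point.some.injEq, hres, hres]
        exact ⟨rfl, rfl⟩
  rintro P ⟨n, hP⟩
  have hno : Odd (l ^ n) := ho.pow
  have hnw : w.valuation ((l ^ n : ℕ) : Ω) = 1 := by rw [Nat.cast_pow, map_pow, hl, one_pow]
  obtain ⟨P', r⟩ := exists_red (W := W₀) (i := bw (K := K) w) (π := residue w) h1 h3 h2 hnw hP
  have hP1 : l ^ n • hasG W₀ φ P = 0 := by rw [← map_nsmul, hP, map_zero]
  have hP2 : l ^ n • hasG W₀ φ (hasG W₀ φ P) = 0 := by rw [← map_nsmul, hP1, map_zero]
  have hz : ∀ (Q : V.toAffine.Point) (m : ℤ), l ^ n • Q = 0 → l ^ n • (m • Q) = 0 := by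
    intro Q m hQ
    rw [smul_comm, hQ, smul_zero]
  have r1 := hred r
  have r2 := hred r1
  have r3 := red_zsmul h1 h3 h2 hπ hno hnw hP1 r1 t
  have r4 := red_zsmul h1 h3 h2 hπ hno hnw hP r (Fintype.card (ResidueField (below K w)) : ℤ)
  have r5 := red_neg h1 h3 h2 r3
  have hP5 : l ^ n • (-(t • hasG W₀ φ P)) = 0 := by rw [smul_neg, hz _ t hP1, neg_zero]
  have r6 := red_add h1 h3 h2 hπ hno hnw hP2 hP5 r2 r5
  have hP6 : l ^ n • (hasG W₀ φ (hasG W₀ φ P) + -(t • hasG W₀ φ P)) = 0 := by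
    rw [smul_add, hP2, hP5, add_zero]
  have hP4 := hz P (Fintype.card (ResidueField (below K w)) : ℤ) hP
  have r7 := red_add h1 h3 h2 hπ hno hnw hP6 hP4 r6 r4
  have hP7 : l ^ n • (hasG W₀ φ (hasG W₀ φ P) + -(t • hasG W₀ φ P) +
      (Fintype.card (ResidueField (below K w)) : ℤ) • P) = 0 := by
    rw [smul_add, hP6, hP4, add_zero]
  have r8 := red_zsmul h1 h3 h2 hπ hno hnw hP7 r7 2
  rw [← sub_eq_add_neg, ← sub_eq_add_neg, hF P'] at r8
  have h8 := red_zero_left (W := W₀) (i := bw (K := K) w) (π := residue w) r8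
  rw [← sub_eq_add_neg] at hP7
  rw [hcard]
  obtain ⟨m, hm⟩ := hno
  rw [hm, add_smul, one_smul, mul_comm, mul_smul, ← natCast_zsmul _ 2, Nat.cast_ofNat, h8,
    smul_zero, zero_add] at hP7
  exact hP7

end aux

theorem hasse_E {K Ω : Type} [Field K] [Field Ω] [DecidableEq Ω] [Algebra K Ω]
    (W : WeierstrassCurve K) [W.IsElliptic] {w : ValuationSubring Ω} {π : K} (hL : LocHyp K w π)
    (hG : GoodW W w) {φ : Ω ≃ₐ[K] Ω} (hφ : IsFrob K w φ) {l : ℕ} (ho : Odd l)
    (hl : w.valuation (l : Ω) = 1) :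
    ∃ t : ℤ, ∀ P : (W⁄Ω).Point, (∃ n : ℕ, l ^ n • P = 0) →
      gE W φ (gE W φ P) - t • gE W φ P + (resCard (below K w) : ℤ) • P = 0 := by
  have inj := (algebraMap K Ω).injective
  have a1 : W.a₁ = 0 := by
    apply inj
    rw [map_zero]
    exact hG.h1
  have a3 : W.a₃ = 0 := by
    apply inj
    rw [map_zero]
    exact hG.h3
  have m2 : W.a₂ ∈ below K w := hG.m2
  have m4 : W.a₄ ∈ below K w := hG.m4
  have m6 : W.a₆ ∈ below K w := hG.m6
  obtain ⟨W₀, hW₀, b1, b3⟩ : ∃ W₀ : WeierstrassCurve (below K w),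
      W₀.map (below K w).subtype = W ∧ W₀.a₁ = 0 ∧ W₀.a₃ = 0 := by
    refine ⟨⟨0, ⟨W.a₂, m2⟩, 0, ⟨W.a₄, m4⟩, ⟨W.a₆, m6⟩⟩, ?_, rfl, rfl⟩
    ext
    · rw [a1]; rfl
    · rfl
    · rw [a3]; rfl
    · rfl
    · rfl
  subst hW₀
  have hD : IsUnit W₀.Δ := by
    have h5 : w.valuation (algebraMap K Ω (W₀.Δ : K)) = 1 := by
      have h6 := hG.disc
      rw [map_Δ] at h6
      exact h6
    have hinv : ((W₀.Δ : K))⁻¹ ∈ below K w := by
      change algebraMap K Ω (W₀.Δ : K)⁻¹ ∈ w
      rw [map_inv₀, ← ValuationSubring.valuation_le_one_iff, map_inv₀, h5, inv_one]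
    have h0 : (W₀.Δ : K) ≠ 0 := by
      intro h0
      rw [h0, map_zero, map_zero] at h5
      exact zero_ne_one h5
    exact IsUnit.of_mul_eq_one ⟨(W₀.Δ : K)⁻¹, hinv⟩ (Subtype.ext (mul_inv_cancel₀ h0))
  have hE : W₀.IsElliptic := ⟨hD⟩
  have hfin := hL.fin
  exact hasse_aux W₀ b1 b3 hL.two hφ ho hl

end Pool.Agent.SmL.E
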