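import Pool.Agent.Lib.SmL.E.E6E
import Pool.Agent.Lib.SmL.E.Has
import Pool.Agent.Lib.SmL.E.CycA

/-!
# SMITH-L block E, module Inst: the interface `TOk` for an elliptic curve

`ChebE`: every element of the Galois group acts on the `l ^ n`-torsion and on the roots of unity of
order `l ^ n` as a conjugate of a Frobenius element at a place outside of a given finite set
(Chebotarev).
-/

set_option autoImplicit false

open WeierstrassCurve
open scoped WeierstrassCurve.Affine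

namespace Pool.Agent.SmL.E

open Pool.Agent.Lib.SmD Pool.Agent.BSDFF Pool.Agent.SmL.V

variable {k K Ω : Type} [Field k] [Finite k] [Field K] [Algebra k K] [Algebra (RatFunc k) K]
  [IsScalarTower k (RatFunc k) K] [FiniteDimensional (RatFunc k) K]
  [Algebra.IsSeparable (RatFunc k) K] [Field Ω] [DecidableEq Ω] [Algebra K Ω] [IsSepClosure K Ω]
  (W : WeierstrassCurve K) [W.IsElliptic]

omit [Finite k] [Algebra (RatFunc k) K] [IsScalarTower k (RatFunc k) K]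
  [FiniteDimensional (RatFunc k) K] [Algebra.IsSeparable (RatFunc k) K] [IsSepClosure K Ω]
  [W.IsElliptic] in
variable (k Ω) in
/-- Chebotarev for the `l`-power torsion. -/
def ChebE (l : ℕ) : Prop :=
  ∀ (n : ℕ) (s : Ω ≃ₐ[K] Ω) (T : Set (Place k K)), T.Finite →
    ∃ v ∉ T, ∃ (w : ValuationSubring Ω) (φ g : Ω ≃ₐ[K] Ω), w ≠ ⊤ ∧ below K w = v.ring ∧
      IsFrob K w φ ∧ (∀ P : (W⁄Ω).Point, l ^ n • P = 0 → gE W φ P = gE W (g * s * g⁻¹) P) ∧
      ∀ ζ : Ω, ζ ^ l ^ n = 1 → φ ζ = (g * s * g⁻¹) ζ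

/-- The determinant of the action on the `l`-power torsion is the cyclotomic character. -/
theorem exists_form (h1 : W.a₁ = 0) (h3 : W.a₃ = 0) (h2 : (2 : k) ≠ 0) {l : ℕ} (hp : l.Prime)
    (ho : l ≠ 2) (hl : (l : k) ≠ 0) (hC : ChebE k Ω W l)
    (hns : ∃ s : Ω ≃ₐ[K] Ω, ¬ ∃ c : ℤ, ∀ P : (W⁄Ω).Point, l • P = 0 → gE W s P = c • P) :
    ∃ en : ℕ → (W⁄Ω).Point → (W⁄Ω).Point → Additive Ωˣ, FormOk l (gE (Ω := Ω) W) en := by
  have hsc : IsSepClosed Ω := IsSepClosure.sep_closed K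
  have halg : Algebra.IsAlgebraic K Ω := inferInstance
  have hodd : Odd l := hp.odd_of_ne_two ho
  have hcast : ∀ {n : ℕ}, (n : k) ≠ 0 → (n : Ω) ≠ 0 := by
    intro n hn h0
    apply hn
    have hinj := ((algebraMap K Ω).comp (algebraMap k K)).injective
    apply hinj
    rw [map_natCast, h0, map_zero]
  have h2Ω : (2 : Ω) ≠ 0 := by
    have := hcast (n := 2) (by exact_mod_cast h2)
    exact_mod_cast this
  have hlΩ : (l : Ω) ≠ 0 := hcast hl
  have hb1 : (W⁄Ω).a₁ = 0 := by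
    change algebraMap K Ω W.a₁ = 0
    rw [h1, map_zero]
  have hb3 : (W⁄Ω).a₃ = 0 := by
    change algebraMap K Ω W.a₃ = 0
    rw [h3, map_zero]
  have hE : (W⁄Ω).IsElliptic := inferInstanceAs (W.map (algebraMap K Ω)).IsElliptic
  have hcard := sep_card_tors (W⁄Ω) hb1 hb3 h2Ω hodd hlΩ
  obtain ⟨R⟩ := exists_rk2 hp (fun P => sep_exists_nsmul (W⁄Ω) hb1 hb3 h2Ω hodd hlΩ P) hcard
  obtain ⟨ζ, hζ, hζ'⟩ := exists_zeta (Ω := Ω) hp hlΩ
  obtain ⟨T, hT, hgood⟩ := good_finite k (Ω := Ω) W h1 h3 h2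
  refine form_ok hp R hζ hζ' fun n s => ?_
  rcases Nat.eq_zero_or_pos n with rfl | hn
  · have h0 : ζ 0 = 1 := by
      have := (hζ 0).pow_eq_one
      rwa [pow_zero, pow_one] at this
    rw [h0, map_one, one_pow]
  have hne : NeZero (l ^ n) := ⟨pow_ne_zero n hp.ne_zero⟩
  have hspec : ∀ s : Ω ≃ₐ[K] Ω, ζ n ^ (((hζ n).autToPow K s : (ZMod (l ^ n))ˣ) :
      ZMod (l ^ n)).val = s (ζ n) := fun s => (hζ n).autToPow_spec K s
  have hinj : ∀ a b : ZMod (l ^ n), ζ n ^ a.val = ζ n ^ b.val → a = b := by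
    intro a b hab
    exact ZMod.val_injective _ ((hζ n).pow_inj (ZMod.val_lt a) (ZMod.val_lt b) hab)
  rw [det_eq_chi hp R gE_one gE_mul hn (χ := fun s => (((hζ n).autToPow K s : (ZMod (l ^ n))ˣ) :
      ZMod (l ^ n))) (fun s t => by rw [map_mul, Units.val_mul]) ?_ hns s, hspec]
  intro s
  obtain ⟨v, hv, w, φ, g, hw, hwv, hφ, hφs, hφζ⟩ := hC n s T hT
  have hG := hgood v hv w hw hwv
  obtain ⟨π, hL⟩ := GBU.exists_locHyp_of_ne_top k K h2 w hw
  have hlw : w.valuation (l : Ω) = 1 := val_unit k K w hl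
  have hlnw : w.valuation ((l ^ n : ℕ) : Ω) = 1 := by
    rw [Nat.cast_pow, map_pow, hlw, one_pow]
  obtain ⟨t, ht⟩ := hasse_E W hL hG hφ hodd hlw
  refine ⟨g, φ, hφs, ?_, t, resCard (below K w), ht, ?_⟩
  · have e1 : ((hζ n).autToPow K φ : (ZMod (l ^ n))ˣ) = (hζ n).autToPow K (g * s * g⁻¹) := by
      apply Units.ext
      apply hinj
      rw [hspec, hspec]
      exact hφζ _ (hζ n).pow_eq_one
    rw [e1, map_mul, map_mul, map_inv, mul_comm ((hζ n).autToPow K g), mul_inv_cancel_right]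
  · apply hinj
    rw [hspec, frob_zeta hφ hlnw (hζ n).pow_eq_one, Int.cast_natCast, ZMod.val_natCast]
    have e2 := pow_mod_orderOf (ζ n) (resCard (below K w))
    rw [← (hζ n).eq_orderOf] at e2
    exact e2.symm

/-- **Block E.** -/
theorem tOk_E (h1 : W.a₁ = 0) (h3 : W.a₃ = 0) (h2 : (2 : k) ≠ 0) {l : ℕ} (hp : l.Prime)
    (ho : l ≠ 2) (hl : (l : k) ≠ 0) (hC : ChebE k Ω W l)
    (hns : ∃ s : Ω ≃ₐ[K] Ω, ¬ ∃ c : ℤ, ∀ P : (W⁄Ω).Point, l • P = 0 → gE W s P = c • P) :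
    TOk k l (gE (Ω := Ω) W) := by
  have hsc : IsSepClosed Ω := IsSepClosure.sep_closed K
  have halg : Algebra.IsAlgebraic K Ω := inferInstance
  have hodd : Odd l := hp.odd_of_ne_two ho
  have hcast : ∀ {n : ℕ}, (n : k) ≠ 0 → (n : Ω) ≠ 0 := by
    intro n hn h0
    apply hn
    have hinj := ((algebraMap K Ω).comp (algebraMap k K)).injective
    apply hinj
    rw [map_natCast, h0, map_zero]
  have h2Ω : (2 : Ω) ≠ 0 := by
    have := hcast (n := 2) (by exact_mod_cast h2)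
    exact_mod_cast this
  have hlΩ : (l : Ω) ≠ 0 := hcast hl
  have hb1 : (W⁄Ω).a₁ = 0 := by
    change algebraMap K Ω W.a₁ = 0
    rw [h1, map_zero]
  have hb3 : (W⁄Ω).a₃ = 0 := by
    change algebraMap K Ω W.a₃ = 0
    rw [h3, map_zero]
  have hE : (W⁄Ω).IsElliptic := inferInstanceAs (W.map (algebraMap K Ω)).IsElliptic
  refine ⟨gE_gmod, fun P => sep_exists_nsmul (W⁄Ω) hb1 hb3 h2Ω hodd hlΩ P, fun n => ?_,
    exists_form W h1 h3 h2 hp ho hl hC hns, ?_, fun w hw _ U hU => ?_, fun w hw _ U hU j Q hQ => ?_⟩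
  · refine Nat.finite_of_card_ne_zero ?_
    rw [sep_card_tors (W⁄Ω) hb1 hb3 h2Ω (n := l ^ n) (hodd.pow) (by
      rw [Nat.cast_pow]
      exact pow_ne_zero n hlΩ), ← pow_mul, mul_comm n 2]
    exact pow_ne_zero _ hp.ne_zero
  · obtain ⟨T, hT, hgood⟩ := good_finite k (Ω := Ω) W h1 h3 h2
    refine ⟨T, hT, fun v hv w hw hwv s hs P ⟨n, hP⟩ => ?_⟩
    have hlw : w.valuation (l : Ω) = 1 := val_unit k K w hl
    exact iner_tors (hgood v hv w hw hwv) (by rw [Nat.cast_pow, map_pow, hlw, one_pow]) hs hP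
  · exact fix_E (k := k) W h1 h3 h2 hl hw hU
  · exact e6_E (k := k) W h1 h3 h2 hp ho hl hw hU j Q hQ

end Pool.Agent.SmL.E
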