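import Pool.Agent.Lib.SmL.E.Mul1

/-!
# SMITH-L block E, module Mp: multiplication polynomials

`W : y ^ 2 = x ^ 3 + a₂ x ^ 2 + a₄ x + a₆` over a commutative ring `R`. `mp W n = (A, B)`: the
`x`-coordinate of `n P` is `A(x) / B(x)`, `A` is monic of degree `n ^ 2`, `B` has the leading term
`n ^ 2 X ^ (n ^ 2 - 1)`. Recursion from `n`, `n + 1` to `n + 2` by division by the monic
polynomial `A_n` in the relation `sy(v_(n+2), v_n) = asub(sy(v_(n+1), v_1))`.
-/

set_option autoImplicit false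

open Polynomial WeierstrassCurve
open scoped WeierstrassCurve.Affine

namespace Pool.Agent.SmL.E

open Pool.Agent.TTC.H

section ring

variable {R : Type} [CommRing R] (W : WeierstrassCurve R)

/-- The multiplication polynomials. -/
noncomputable def mp : ℕ → R[X] × R[X]
  | 0 => (1, 0)
  | 1 => (X, 1)
  | n + 2 =>
    let v := asub (W.map C) (sy ![(mp (n + 1)).1, (mp (n + 1)).2] ![X, 1])
    (v 0 /ₘ (mp n).1, (v 1 - (v 0 /ₘ (mp n).1) * (mp n).2) /ₘ (mp n).1)

/-- The vector of the multiplication polynomials. -/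
noncomputable def mv (n : ℕ) : Fin 2 → R[X] := ![(mp W n).1, (mp W n).2]

@[simp] theorem mv_zero (n : ℕ) : mv W n 0 = (mp W n).1 := rfl

@[simp] theorem mv_one (n : ℕ) : mv W n 1 = (mp W n).2 := rfl

theorem mp_zero : mp W 0 = (1, 0) := by rw [mp]

theorem mp_one : mp W 1 = (X, 1) := by rw [mp]

theorem mp_add_two (n : ℕ) : mp W (n + 2) =
    (asub (W.map C) (sy (mv W (n + 1)) ![X, 1]) 0 /ₘ (mp W n).1,
      (asub (W.map C) (sy (mv W (n + 1)) ![X, 1]) 1 -
        (asub (W.map C) (sy (mv W (n + 1)) ![X, 1]) 0 /ₘ (mp W n).1) * (mp W n).2) /ₘ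
          (mp W n).1) := by
  rw [mp]
  rfl

/-- degree and leading coefficient of a quotient by a monic polynomial -/
theorem div_deg {p q : R[X]} (hq : q.Monic) {N d : ℕ} (hd : q.natDegree = d)
    (hp : p.natDegree ≤ N + d) :
    (p /ₘ q).natDegree ≤ N ∧ (p /ₘ q).coeff N = p.coeff (N + d) := by
  nontriviality R
  have h1 : (p /ₘ q).natDegree ≤ N := by
    rw [natDegree_divByMonic _ hq, hd]
    omega
  refine ⟨h1, ?_⟩
  have h2 := modByMonic_add_div p q
  have h3 := congrArg (fun r => r.coeff (N + d)) h2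
  rw [coeff_add, add_comm N d, coeff_mul_add_eq_of_natDegree_le hd.le h1] at h3
  rw [add_comm N d, ← h3]
  have h4 : q.coeff d = 1 := by rw [← hd]; exact hq
  have h5 : (p %ₘ q).coeff (d + N) = 0 := by
    apply coeff_eq_zero_of_degree_lt
    refine lt_of_lt_of_le (degree_modByMonic_lt p hq) ?_
    rw [degree_eq_natDegree hq.ne_zero, hd]
    exact_mod_cast Nat.le_add_right d N
  rw [h4, h5]
  ring

/-- Leading terms. -/
theorem step {A1 B1 : R[X]} {e : ℕ} (d1 : A1.natDegree ≤ e + 1) (hcA1 : A1.coeff (e + 1) = 1)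
    (b1 : B1.natDegree ≤ e) :
    ((asub (W.map C) (sy ![A1, B1] ![X, 1]) 0).natDegree ≤ 2 * e + 4 ∧
      (asub (W.map C) (sy ![A1, B1] ![X, 1]) 0).coeff (2 * e + 4) = 1) ∧
    ((asub (W.map C) (sy ![A1, B1] ![X, 1]) 1).natDegree ≤ 2 * e + 3 ∧
      (asub (W.map C) (sy ![A1, B1] ![X, 1]) 1).coeff (2 * e + 3) = 2 * (1 + B1.coeff e)) := by
  nontriviality R
  have hv0 : sy ![A1, B1] ![X, 1] 0 = A1 * X := by simp
  have hv1 : sy ![A1, B1] ![X, 1] 1 = A1 + B1 * X := by simp
  have hv2 : sy ![A1, B1] ![X, 1] 2 = B1 := by simp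
  have hAX : (A1 * X).natDegree ≤ e + 2 := by
    refine natDegree_mul_le.trans ?_
    rw [natDegree_X]
    omega
  have hcAX : (A1 * X).coeff (e + 2) = 1 := by
    rw [show e + 2 = (e + 1) + 1 from rfl, coeff_mul_X, hcA1]
  have hBX : (A1 + B1 * X).natDegree ≤ e + 1 := by
    refine natDegree_add_le_of_degree_le d1 (natDegree_mul_le.trans ?_)
    rw [natDegree_X]
    omega
  have hcBX : (A1 + B1 * X).coeff (e + 1) = 1 + B1.coeff e := by
    rw [coeff_add, hcA1, coeff_mul_X]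
  have hz : ∀ {p : R[X]} {j i : ℕ} (b : R), p.natDegree ≤ j → j < i → (C b * p).coeff i = 0 := by
    intro p j i b hp hj
    rw [coeff_C_mul, coeff_eq_zero_of_natDegree_lt (lt_of_le_of_lt hp hj), mul_zero]
  have hn : ∀ {p : R[X]} {j i : ℕ} (b : R), p.natDegree ≤ j → j ≤ i → (C b * p).natDegree ≤ i :=
    fun b hp hj => (natDegree_C_mul_le _ _).trans (hp.trans hj)
  have m1 : (A1 * X * B1).natDegree ≤ e + 2 + e := natDegree_mul_le_of_le hAX b1
  have m2 : ((A1 + B1 * X) * B1).natDegree ≤ e + 1 + e := natDegree_mul_le_of_le hBX b1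
  have m3 : (B1 ^ 2).natDegree ≤ e + e := by
    rw [pow_two]
    exact natDegree_mul_le_of_le b1 b1
  have m0 : ((A1 * X) ^ 2).natDegree ≤ 2 * e + 4 := by
    rw [pow_two]
    exact (natDegree_mul_le_of_le hAX hAX).trans (by omega)
  have m4 : ((A1 + B1 * X) * (A1 * X)).natDegree ≤ e + 1 + (e + 2) :=
    natDegree_mul_le_of_le hBX hAX
  have hs2 : ∀ {a b : R[X]} {N : ℕ}, a.natDegree ≤ N → b.natDegree ≤ N →
      (a - b).natDegree ≤ N := fun h h' => (natDegree_sub_le_of_le h h').trans (max_self _).le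
  rw [asub_zero, asub_one, hv0, hv1, hv2, WeierstrassCurve.map_b₂, WeierstrassCurve.map_b₄,
    WeierstrassCurve.map_b₆, WeierstrassCurve.map_b₈, mul_assoc (C W.b₄), mul_assoc (C W.b₆),
    mul_assoc (C W.b₂), mul_assoc (C W.b₄), show (2 : R[X]) = C 2 from (map_ofNat C 2).symm,
    mul_assoc (C 2)]
  refine ⟨⟨?_, ?_⟩, ?_, ?_⟩
  · exact hs2 (hs2 (hs2 m0 (hn _ m1 (by omega))) (hn _ m2 (by omega))) (hn _ m3 (by omega))
  · rw [coeff_sub, coeff_sub, coeff_sub, hz W.b₄ m1 (by omega), hz W.b₆ m2 (by omega),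
      hz W.b₈ m3 (by omega), pow_two, show 2 * e + 4 = (e + 2) + (e + 2) by omega,
      coeff_mul_add_eq_of_natDegree_le hAX hAX, hcAX]
    ring
  · exact natDegree_add_le_of_degree_le (natDegree_add_le_of_degree_le
      (natDegree_add_le_of_degree_le (hn _ m4 (by omega)) (hn _ m1 (by omega)))
      (hn _ m2 (by omega))) (hn _ m3 (by omega))
  · rw [coeff_add, coeff_add, coeff_add, hz W.b₂ m1 (by omega), hz W.b₄ m2 (by omega),
      hz W.b₆ m3 (by omega), coeff_C_mul, show 2 * e + 3 = (e + 1) + (e + 2) by omega,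
      coeff_mul_add_eq_of_natDegree_le hBX hAX, hcAX, hcBX]
    ring

/-- `A` is monic of degree `n ^ 2`, `B` has degree at most `n ^ 2 - 1` and the coefficient
`n ^ 2`. -/
theorem mp_deg [Nontrivial R] (n : ℕ) : (mp W n).1.Monic ∧ (mp W n).1.natDegree = n ^ 2 ∧
    (mp W n).2.natDegree ≤ n ^ 2 - 1 ∧ (mp W n).2.coeff (n ^ 2 - 1) = (n : R) ^ 2 := by
  induction n using Nat.twoStepInduction with
  | zero =>
    rw [mp_zero]
    refine ⟨monic_one, ?_, ?_, ?_⟩
    · simp
    · simp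
    · simp
  | one =>
    rw [mp_one]
    refine ⟨monic_X, ?_, ?_, ?_⟩
    · simp
    · simp
    · simp
  | more n hn hn1 =>
    obtain ⟨a0, d0, b0, c0⟩ := hn
    obtain ⟨a1, d1, b1, c1⟩ := hn1
    have hee : (n + 1) ^ 2 = (n ^ 2 + 2 * n) + 1 := by ring
    rw [hee] at d1 b1 c1
    rw [Nat.add_sub_cancel] at b1 c1
    obtain ⟨⟨p1, p2⟩, p3, p4⟩ := step W d1.le (by rw [← d1]; exact a1) b1
    have e1 : 2 * (n ^ 2 + 2 * n) + 4 = (n + 2) ^ 2 + n ^ 2 := by ring
    have e2 : (n + 2) ^ 2 - 1 = n ^ 2 + 4 * n + 3 := by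
      rw [show (n + 2) ^ 2 = (n ^ 2 + 4 * n + 3) + 1 by ring, Nat.add_sub_cancel]
    have e3 : 2 * (n ^ 2 + 2 * n) + 3 = (n ^ 2 + 4 * n + 3) + n ^ 2 := by ring
    have p1' := p1
    have p2' := p2
    rw [e1] at p1' p2'
    obtain ⟨q1, q2⟩ := div_deg a0 d0 p1'
    rw [p2'] at q2
    have hA := monic_of_natDegree_le_of_coeff_eq_one _ q1 q2
    have hAd : (asub (W.map C) (sy ![(mp W (n + 1)).1, (mp W (n + 1)).2] ![X, 1]) 0 /ₘ
        (mp W n).1).natDegree = (n + 2) ^ 2 :=
      natDegree_eq_of_le_of_coeff_ne_zero q1 (by rw [q2]; exact one_ne_zero)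
    have hm : (asub (W.map C) (sy ![(mp W (n + 1)).1, (mp W (n + 1)).2] ![X, 1]) 0 /ₘ
          (mp W n).1 * (mp W n).2).natDegree ≤ 2 * (n ^ 2 + 2 * n) + 3 ∧
        (asub (W.map C) (sy ![(mp W (n + 1)).1, (mp W (n + 1)).2] ![X, 1]) 0 /ₘ
          (mp W n).1 * (mp W n).2).coeff (2 * (n ^ 2 + 2 * n) + 3) = (n : R) ^ 2 := by
      rcases Nat.eq_zero_or_pos n with h6 | h6
      · subst h6
        rw [mp_zero]
        simp
      · have hn2 : 0 < n ^ 2 := pow_pos h6 2
        have e4 : 2 * (n ^ 2 + 2 * n) + 3 = (n + 2) ^ 2 + (n ^ 2 - 1) := by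
          have : (n + 2) ^ 2 = n ^ 2 + 4 * n + 4 := by ring
          omega
        rw [e4]
        refine ⟨natDegree_mul_le_of_le q1 b0, ?_⟩
        rw [coeff_mul_add_eq_of_natDegree_le q1 b0, q2, c0, one_mul]
    have hs2 : ∀ {a b : R[X]} {N : ℕ}, a.natDegree ≤ N → b.natDegree ≤ N →
        (a - b).natDegree ≤ N := fun h h' => (natDegree_sub_le_of_le h h').trans (max_self _).le
    have hnum := hs2 p3 hm.1
    rw [e3] at hnum
    obtain ⟨r1, r2⟩ := div_deg a0 d0 hnum
    rw [← e3, coeff_sub, p4, hm.2, c1] at r2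
    rw [mp_add_two]
    refine ⟨hA, hAd, ?_, ?_⟩
    · rw [e2]
      exact r1
    · rw [e2]
      refine r2.trans ?_
      push_cast
      ring

theorem mp_monic (n : ℕ) : (mp W n).1.Monic := by
  nontriviality R
  exact (mp_deg W n).1

/-- Base change. -/
theorem mp_map {S : Type} [CommRing S] (φ : R →+* S) (n : ℕ) :
    mp (W.map φ) n = ((mp W n).1.map φ, (mp W n).2.map φ) := by
  induction n using Nat.twoStepInduction with
  | zero => simp [mp_zero]
  | one => simp [mp_one]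
  | more n hn hn1 =>
    have key : ∀ i, asub ((W.map φ).map C) (sy (mv (W.map φ) (n + 1)) ![X, 1]) i =
        (asub (W.map C) (sy (mv W (n + 1)) ![X, 1]) i).map φ := by
      intro i
      have h5 := asub_map (W.map C) (mapRingHom φ) (sy (mv W (n + 1)) ![X, 1]) i
      have h6 : (W.map C).map (mapRingHom φ) = (W.map φ).map C := by
        rw [WeierstrassCurve.map_map, WeierstrassCurve.map_map]
        congr 1
        ext x
        simp
      have h7 : (fun i => mapRingHom φ (sy (mv W (n + 1)) ![X, 1] i)) =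
          sy (mv (W.map φ) (n + 1)) ![X, 1] := by
        funext j
        fin_cases j
        · simp [hn1]
        · simp [hn1]
        · simp [hn1]
      rw [h6, h7] at h5
      rw [h5]
      rfl
    rw [mp_add_two, mp_add_two, key, key, hn]
    simp only [Prod.mk.injEq]
    constructor
    · rw [map_divByMonic _ (mp_monic W n)]
    · rw [map_divByMonic _ (mp_monic W n), Polynomial.map_sub, Polynomial.map_mul,
        map_divByMonic _ (mp_monic W n)]

end ring

section gen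

variable {κ : Type} [Field κ]

/-- The recursion step: exactness of the divisions. -/
theorem exact_step (W : WeierstrassCurve κ) {n : ℕ} {t : κ} {w : Fin 2 → κ[X]}
    (h : ∀ i, asub (W.map C) (sy (mv W (n + 1)) ![X, 1]) i = C t * sy w (mv W n) i) :
    ∀ i, mv W (n + 2) i = C t * w i := by
  have h0 := h 0
  have h1 := h 1
  rw [sy_zero, mv_zero] at h0
  rw [sy_one, mv_zero, mv_one] at h1
  have e0 : asub (W.map C) (sy (mv W (n + 1)) ![X, 1]) 0 /ₘ (mp W n).1 = C t * w 0 := by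
    rw [h0, show C t * (w 0 * (mp W n).1) = (mp W n).1 * (C t * w 0) by ring,
      mul_divByMonic_cancel_left _ (mp_monic W n)]
  have e1 : (asub (W.map C) (sy (mv W (n + 1)) ![X, 1]) 1 -
        (asub (W.map C) (sy (mv W (n + 1)) ![X, 1]) 0 /ₘ (mp W n).1) * (mp W n).2) /ₘ
          (mp W n).1 = C t * w 1 := by
    rw [e0, h1, show C t * (w 0 * (mp W n).2 + w 1 * (mp W n).1) - C t * w 0 * (mp W n).2 =
      (mp W n).1 * (C t * w 1) by ring, mul_divByMonic_cancel_left _ (mp_monic W n)]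
  intro i
  fin_cases i
  · simp only [Fin.zero_eta, mv_zero, mp_add_two]
    exact e0
  · simp only [Fin.mk_one, mv_one, mp_add_two]
    exact e1

end gen

section sysmul

variable {R : Type} [CommRing R]

theorem sy_smul_left (c : R) (p q : Fin 2 → R) : sy (fun i => c * p i) q = c • sy p q := by
  funext j
  fin_cases j
  · simp [mul_assoc]
  · simp only [Fin.mk_one, sy_one, Pi.smul_apply, smul_eq_mul]
    ring
  · simp [mul_assoc]

theorem sy_smul_right (c : R) (p q : Fin 2 → R) : sy p (fun i => c * q i) = c • sy p q := by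
  funext j
  fin_cases j
  · simp only [Fin.zero_eta, sy_zero, Pi.smul_apply, smul_eq_mul]
    ring
  · simp only [Fin.mk_one, sy_one, Pi.smul_apply, smul_eq_mul]
    ring
  · simp only [Fin.reduceFinMk, sy_two, Pi.smul_apply, smul_eq_mul]
    ring

/-- cancellation -/
theorem sy_cancel [IsDomain R] {p p' q : Fin 2 → R} (hq : q ≠ 0) (h : sy p q = sy p' q) :
    p = p' := by
  have h5 : sy (fun i => p i - p' i) q = 0 := by
    funext j
    have := congrFun h j
    fin_cases j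
    · simp only [Fin.zero_eta, sy_zero, Pi.zero_apply] at this ⊢
      linear_combination this
    · simp only [Fin.mk_one, sy_one, Pi.zero_apply] at this ⊢
      linear_combination this
    · simp only [Fin.reduceFinMk, sy_two, Pi.zero_apply] at this ⊢
      linear_combination this
  by_contra hne
  refine sy_ne_zero (p := fun i => p i - p' i) ?_ hq h5
  intro h6
  apply hne
  funext i
  exact sub_eq_zero.1 (congrFun h6 i)

end sysmul

section field

variable {k : Type} [Field k] (W : WeierstrassCurve k) {κ : Type} [Field κ] [Algebra k κ]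

theorem smul_mem [W.IsElliptic] (h1 : W.a₁ = 0) (h3 : W.a₃ = 0) (h2 : (2 : κ) ≠ 0) (n : ℕ) :
    n • P0 W κ h1 h3 ∈ HH W :=
  AddSubgroup.nsmul_mem _ (P0_mem W h1 h3 h2) n

/-- The multiplication polynomials give the `x`-coordinate of `n P0`, and the relation. -/
theorem xpt_nsmul_aux [IsAlgClosed κ] [W.IsElliptic] (h1 : W.a₁ = 0) (h3 : W.a₃ = 0)
    (h2 : (2 : κ) ≠ 0) (n : ℕ) :
    (∃ c : κ, c ≠ 0 ∧ ∀ i, xpt W (n • P0 W κ h1 h3) i = C c * mv (W⁄κ) n i) ∧
    (∃ c : κ, c ≠ 0 ∧ ∀ i, xpt W ((n + 1) • P0 W κ h1 h3) i = C c * mv (W⁄κ) (n + 1) i) := by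
  have hone : xpt W (1 • P0 W κ h1 h3) = ![X, 1] := by
    rw [one_smul]
    change ![(RatFunc.X : RatFunc κ).num, (RatFunc.X : RatFunc κ).denom] = _
    rw [RatFunc.num_X, RatFunc.denom_X]
  induction n with
  | zero =>
    refine ⟨⟨1, one_ne_zero, fun i => ?_⟩, 1, one_ne_zero, fun i => ?_⟩
    · have h5 : (0 : ℕ) • P0 W κ h1 h3 = 0 := zero_nsmul _
      rw [h5, C_1, one_mul]
      change (![1, 0] : Fin 2 → κ[X]) i = _
      fin_cases i
      · simp [mp_zero]
      · simp [mp_zero]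
    · rw [zero_add, hone, C_1, one_mul]
      fin_cases i
      · simp [mp_one]
      · simp [mp_one]
  | succ n ih =>
    obtain ⟨⟨b, hb, eb⟩, a, ha, ea⟩ := ih
    refine ⟨⟨a, ha, ea⟩, ?_⟩
    obtain ⟨c, hc, h⟩ := rel_xpt W h1 h3 h2 (smul_mem W h1 h3 h2 (n + 1))
      (smul_mem W h1 h3 h2 1)
    have e1 : (n + 1) • P0 W κ h1 h3 + 1 • P0 W κ h1 h3 = (n + 1 + 1) • P0 W κ h1 h3 := by
      rw [← add_smul]
    have e2 : (n + 1) • P0 W κ h1 h3 - 1 • P0 W κ h1 h3 = n • P0 W κ h1 h3 := by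
      rw [add_smul, add_sub_cancel_right]
    rw [e1, e2, hone, funext ea, sy_smul_left, asub_smul, funext eb, sy_smul_right] at h
    have h6 : ∀ i, asub ((W⁄κ).map C) (sy (mv (W⁄κ) (n + 1)) ![X, 1]) i =
        C ((a ^ 2)⁻¹ * c * b) * sy (xpt W ((n + 1 + 1) • P0 W κ h1 h3)) (mv (W⁄κ) n) i := by
      intro i
      have h7 := h i
      rw [Pi.smul_apply, Pi.smul_apply, smul_eq_mul, smul_eq_mul, ← C_pow] at h7
      have h8 : (C (a ^ 2)⁻¹ * C (a ^ 2) : κ[X]) = 1 := by
        rw [← C_mul, inv_mul_cancel₀ (pow_ne_zero 2 ha), C_1]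
      rw [C_mul, C_mul]
      linear_combination (C (a ^ 2)⁻¹ : κ[X]) * h7 -
        asub ((W⁄κ).map C) (sy (mv (W⁄κ) (n + 1)) ![X, 1]) i * h8
    have ht : (a ^ 2)⁻¹ * c * b ≠ 0 :=
      mul_ne_zero (mul_ne_zero (inv_ne_zero (pow_ne_zero 2 ha)) hc) hb
    have h9 := exact_step (W⁄κ) h6
    refine ⟨((a ^ 2)⁻¹ * c * b)⁻¹, inv_ne_zero ht, fun i => ?_⟩
    rw [h9, ← mul_assoc, ← C_mul, inv_mul_cancel₀ ht, C_1, one_mul]

/-- The multiplication polynomials give the `x`-coordinate of `n P0`, `P0` the generic point. -/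
theorem xpt_nsmul [IsAlgClosed κ] [W.IsElliptic] (h1 : W.a₁ = 0) (h3 : W.a₃ = 0)
    (h2 : (2 : κ) ≠ 0) (n : ℕ) :
    ∃ c : κ, c ≠ 0 ∧ ∀ i, xpt W (n • P0 W κ h1 h3) i = C c * mv (W⁄κ) n i :=
  (xpt_nsmul_aux W h1 h3 h2 n).1

theorem mv_rel_alg [IsAlgClosed κ] [W.IsElliptic] (h1 : W.a₁ = 0) (h3 : W.a₃ = 0)
    (h2 : (2 : κ) ≠ 0) (n : ℕ) :
    sy (mv (W⁄κ) (n + 2)) (mv (W⁄κ) n) = asub ((W⁄κ).map C) (sy (mv (W⁄κ) (n + 1)) ![X, 1]) := by
  have hone : xpt W (1 • P0 W κ h1 h3) = ![X, 1] := by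
    rw [one_smul]
    change ![(RatFunc.X : RatFunc κ).num, (RatFunc.X : RatFunc κ).denom] = _
    rw [RatFunc.num_X, RatFunc.denom_X]
  obtain ⟨⟨b, hb, eb⟩, a, ha, ea⟩ := xpt_nsmul_aux W (κ := κ) h1 h3 h2 n
  obtain ⟨c, hc, h⟩ := rel_xpt W h1 h3 h2 (smul_mem W h1 h3 h2 (n + 1))
    (smul_mem W h1 h3 h2 1)
  have e1 : (n + 1) • P0 W κ h1 h3 + 1 • P0 W κ h1 h3 = (n + 1 + 1) • P0 W κ h1 h3 := by
    rw [← add_smul]
  have e2 : (n + 1) • P0 W κ h1 h3 - 1 • P0 W κ h1 h3 = n • P0 W κ h1 h3 := by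
    rw [add_smul, add_sub_cancel_right]
  rw [e1, e2, hone, funext ea, sy_smul_left, asub_smul, funext eb, sy_smul_right] at h
  have h6 : ∀ i, asub ((W⁄κ).map C) (sy (mv (W⁄κ) (n + 1)) ![X, 1]) i =
      C ((a ^ 2)⁻¹ * c * b) * sy (xpt W ((n + 1 + 1) • P0 W κ h1 h3)) (mv (W⁄κ) n) i := by
    intro i
    have h7 := h i
    rw [Pi.smul_apply, Pi.smul_apply, smul_eq_mul, smul_eq_mul, ← C_pow] at h7
    have h8 : (C (a ^ 2)⁻¹ * C (a ^ 2) : κ[X]) = 1 := by
      rw [← C_mul, inv_mul_cancel₀ (pow_ne_zero 2 ha), C_1]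
    rw [C_mul, C_mul]
    linear_combination (C (a ^ 2)⁻¹ : κ[X]) * h7 -
      asub ((W⁄κ).map C) (sy (mv (W⁄κ) (n + 1)) ![X, 1]) i * h8
  have ht : (a ^ 2)⁻¹ * c * b ≠ 0 :=
    mul_ne_zero (mul_ne_zero (inv_ne_zero (pow_ne_zero 2 ha)) hc) hb
  have h9 := exact_step (W⁄κ) h6
  rw [funext h9, sy_smul_left]
  funext i
  rw [h6 i]
  rfl

end field

section dom

variable {R : Type} [CommRing R] [IsDomain R] (W : WeierstrassCurve R)

/-- The exact relation. -/
theorem mv_rel (h1 : W.a₁ = 0) (h3 : W.a₃ = 0) (h2 : (2 : R) ≠ 0) (hΔ : W.Δ ≠ 0) (n : ℕ) :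
    sy (mv W (n + 2)) (mv W n) = asub (W.map C) (sy (mv W (n + 1)) ![X, 1]) := by
  set κ := AlgebraicClosure (FractionRing R)
  set φ : R →+* κ := (algebraMap (FractionRing R) κ).comp (algebraMap R (FractionRing R)) with hφ
  have hinj : Function.Injective φ :=
    (algebraMap (FractionRing R) κ).injective.comp (IsFractionRing.injective R (FractionRing R))
  have hell : (W.map φ).IsElliptic := ⟨by
    rw [WeierstrassCurve.map_Δ]
    exact isUnit_iff_ne_zero.2 (by rwa [Ne, map_eq_zero_iff φ hinj])⟩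
  have h1' : (W.map φ).a₁ = 0 := by rw [WeierstrassCurve.map_a₁, h1, map_zero]
  have h3' : (W.map φ).a₃ = 0 := by rw [WeierstrassCurve.map_a₃, h3, map_zero]
  have h2' : (2 : κ) ≠ 0 := by
    intro h0
    apply h2
    apply hinj
    rw [map_ofNat, h0, map_zero]
  have h := mv_rel_alg (W.map φ) (κ := κ) h1' h3' h2' n
  have hid : ((W.map φ)⁄κ) = W.map φ := by
    change (W.map φ).map (algebraMap κ κ) = W.map φ
    exact WeierstrassCurve.map_id (W.map φ)
  rw [hid] at h
  have hmv : ∀ m i, mv (W.map φ) m i = (mv W m i).map φ := by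
    intro m i
    fin_cases i
    · simp [mp_map]
    · simp [mp_map]
  have hPinj := Polynomial.map_injective φ hinj
  funext i
  apply hPinj
  have hL : (sy (mv W (n + 2)) (mv W n) i).map φ =
      sy (mv (W.map φ) (n + 2)) (mv (W.map φ) n) i := by
    fin_cases i
    · simp [mp_map]
    · simp [mp_map]
    · simp [mp_map]
  have hR : (asub (W.map C) (sy (mv W (n + 1)) ![X, 1]) i).map φ =
      asub ((W.map φ).map C) (sy (mv (W.map φ) (n + 1)) ![X, 1]) i := by
    have h5 := asub_map (W.map C) (mapRingHom φ) (sy (mv W (n + 1)) ![X, 1]) i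
    have h6 : (W.map C).map (mapRingHom φ) = (W.map φ).map C := by
      rw [WeierstrassCurve.map_map, WeierstrassCurve.map_map]
      congr 1
      ext x
      simp
    have h7 : (fun i => mapRingHom φ (sy (mv W (n + 1)) ![X, 1] i)) =
        sy (mv (W.map φ) (n + 1)) ![X, 1] := by
      funext j
      fin_cases j
      · simp [mp_map]
      · simp [mp_map]
      · simp [mp_map]
    rw [h6, h7] at h5
    rw [h5]
    rfl
  rw [hL, hR, h]

end dom

section field

variable {F : Type} [Field F] [DecidableEq F] (W : WeierstrassCurve F) [W.IsElliptic]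

omit [DecidableEq F] in
theorem mp_coprime (h1 : W.a₁ = 0) (h3 : W.a₃ = 0) (h2 : (2 : F) ≠ 0) (n : ℕ) :
    IsCoprime (mp W n).1 (mp W n).2 := by
  have h2' : (2 : AlgebraicClosure F) ≠ 0 := by
    intro h0
    apply h2
    apply (algebraMap F (AlgebraicClosure F)).injective
    rw [map_ofNat, h0, map_zero]
  obtain ⟨c, hc, h⟩ := xpt_nsmul W (κ := AlgebraicClosure F) h1 h3 h2' n
  have hp := prim_xpt W (n • P0 W (AlgebraicClosure F) h1 h3)
  rw [isCoprime_iff_aeval_ne_zero_of_isAlgClosed F (AlgebraicClosure F)]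
  intro a
  by_contra hcon
  push Not at hcon
  apply hp a
  funext i
  have hm : mp (W⁄(AlgebraicClosure F)) n =
      ((mp W n).1.map (algebraMap F (AlgebraicClosure F)),
        (mp W n).2.map (algebraMap F (AlgebraicClosure F))) := mp_map W _ n
  rw [h, eval_mul]
  fin_cases i
  · simp only [Fin.zero_eta, mv_zero, hm, eval_map_algebraMap, hcon.1]
    simp
  · simp only [Fin.mk_one, mv_one, hm, eval_map_algebraMap, hcon.2]
    simp

/-- **Specialisation.** -/
theorem xRep_nsmul (h1 : W.a₁ = 0) (h3 : W.a₃ = 0) (h2 : (2 : F) ≠ 0) (n : ℕ) {x y : F}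
    (h : W.toAffine.Nonsingular x y) :
    ∃ c : F, c ≠ 0 ∧ ∀ i, (mv W n i).eval x = c * (n • Affine.Point.some x y h).xRep i := by
  set P := Affine.Point.some x y h with hP
  induction n using Nat.twoStepInduction with
  | zero =>
    refine ⟨1, one_ne_zero, fun i => ?_⟩
    rw [zero_smul, Affine.Point.xRep_zero]
    fin_cases i
    · simp [mp_zero]
    · simp [mp_zero]
  | one =>
    refine ⟨1, one_ne_zero, fun i => ?_⟩
    rw [one_smul, hP, Affine.Point.xRep_some]
    fin_cases i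
    · simp [mp_one]
    · simp [mp_one]
  | more n hn hn1 =>
    obtain ⟨b, hb, eb⟩ := hn
    obtain ⟨a, ha, ea⟩ := hn1
    obtain ⟨c, hc, e⟩ := rel W h1 h3 h2 ((n + 1) • P) P
    have e1 : (n + 1) • P + P = (n + 2) • P := by
      rw [← succ_nsmul]
    have e2 : (n + 1) • P - P = n • P := by
      rw [add_smul, one_smul, add_sub_cancel_right]
    rw [e1, e2] at e
    have hr := mv_rel W h1 h3 h2 W.isUnit_Δ.ne_zero n
    have hsym : ∀ A B : W.toAffine.Point, A.sym2x B = sy A.xRep B.xRep := by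
      intro A B
      funext i
      fin_cases i <;> rfl
    rw [hsym, hsym] at e
    have hev : (fun i => (mv W (n + 1) i).eval x) = fun i => a * ((n + 1) • P).xRep i := funext ea
    have hevn : (fun i => (mv W n i).eval x) = fun i => b * (n • P).xRep i := funext eb
    have hX : (fun i => ((![X, 1] : Fin 2 → F[X]) i).eval x) = P.xRep := by
      funext i
      rw [hP, Affine.Point.xRep_some]
      fin_cases i
      · simp
      · simp
    have hsyev : ∀ p q : Fin 2 → F[X], (fun i => (sy p q i).eval x) =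
        sy (fun i => (p i).eval x) (fun i => (q i).eval x) := by
      intro p q
      funext i
      fin_cases i
      · simp
      · simp
      · simp
    have h3C : (W.map C).map (evalRingHom x) = W := by
      rw [WeierstrassCurve.map_map]
      have : (evalRingHom x).comp C = RingHom.id F := by
        ext z
        simp
      rw [this, WeierstrassCurve.map_id]
    have hasub : (fun i => (asub (W.map C) (sy (mv W (n + 1)) ![X, 1]) i).eval x) =
        asub W (fun i => (sy (mv W (n + 1)) ![X, 1] i).eval x) := by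
      funext i
      have h5 := asub_map (W.map C) (evalRingHom x) (sy (mv W (n + 1)) ![X, 1]) i
      rw [h3C] at h5
      exact h5.symm
    have hmain : sy (fun i => (mv W (n + 2) i).eval x) (n • P).xRep =
        sy (fun i => (b⁻¹ * a ^ 2 * c) * ((n + 2) • P).xRep i) (n • P).xRep := by
      have h6 : sy (fun i => (mv W (n + 2) i).eval x) (fun i => b * (n • P).xRep i) =
          (a ^ 2 * c) • sy ((n + 2) • P).xRep (n • P).xRep := by
        rw [← hevn, ← hsyev, hr, hasub, hsyev, hev, hX, sy_smul_left, asub_smul, e, smul_smul]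
      rw [sy_smul_right] at h6
      rw [sy_smul_left]
      funext i
      have h7 := congrFun h6 i
      simp only [Pi.smul_apply, smul_eq_mul] at h7 ⊢
      field_simp
      linear_combination h7
    have hne : (n • P).xRep ≠ 0 := Affine.Point.xRep_ne_zero _
    have h8 := sy_cancel hne hmain
    exact ⟨b⁻¹ * a ^ 2 * c, mul_ne_zero (mul_ne_zero (inv_ne_zero hb) (pow_ne_zero 2 ha)) hc,
      fun i => congrFun h8 i⟩

/-- `n P = O` in terms of `B`. -/
theorem nsmul_eq_zero_iff (h1 : W.a₁ = 0) (h3 : W.a₃ = 0) (h2 : (2 : F) ≠ 0) (n : ℕ) {x y : F}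
    (h : W.toAffine.Nonsingular x y) :
    n • Affine.Point.some x y h = 0 ↔ (mp W n).2.eval x = 0 := by
  obtain ⟨c, hc, e⟩ := xRep_nsmul W h1 h3 h2 n h
  have e1 := e 1
  rw [mv_one] at e1
  rw [e1]
  rcases n • Affine.Point.some x y h with _ | ⟨x', y', h'⟩
  · rw [← Affine.Point.zero_def, Affine.Point.xRep_zero]
    simp
  · have h5 : c * (![x', 1] : Fin 2 → F) 1 ≠ 0 := by
      rw [Matrix.cons_val_one, Matrix.cons_val_zero, mul_one]
      exact hc
    rw [Affine.Point.xRep_some]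
    exact ⟨fun h6 => absurd h6 (Affine.Point.some_ne_zero h'), fun h6 => absurd h6 h5⟩

/-- The `x`-coordinate of `n P`. -/
theorem nsmul_x (h1 : W.a₁ = 0) (h3 : W.a₃ = 0) (h2 : (2 : F) ≠ 0) (n : ℕ) {x y x' y' : F}
    (h : W.toAffine.Nonsingular x y) (h' : W.toAffine.Nonsingular x' y')
    (e : n • Affine.Point.some x y h = Affine.Point.some x' y' h') :
    (mp W n).1.eval x = x' * (mp W n).2.eval x ∧ (mp W n).2.eval x ≠ 0 := by
  obtain ⟨c, hc, e0⟩ := xRep_nsmul W h1 h3 h2 n h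
  rw [e] at e0
  have e1 := e0 0
  have e2 := e0 1
  rw [mv_zero, Affine.Point.xRep_some] at e1
  rw [mv_one, Affine.Point.xRep_some] at e2
  simp only [Matrix.cons_val_zero, Matrix.cons_val_one, mul_one] at e1 e2
  rw [e1, e2]
  exact ⟨mul_comm _ _, hc⟩

end field

end Pool.Agent.SmL.E
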