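import Pool.Agent.Lib.TTC.H.Hom

/-!
SMITH-L, block E: the relation between the polynomial coordinates of the `x`-coordinates of `P`, `Q`,
`P + Q` and `P - Q`, for points over the function field.
-/

set_option autoImplicit false

open Polynomial WeierstrassCurve
open scoped WeierstrassCurve.Affine

namespace Pool.Agent.SmL.E

open Pool.Agent.TTC.H

section rel

variable {k : Type} [Field k] (W : WeierstrassCurve k) {κ : Type} [Field κ] [Algebra k κ]

/-- The relation between the coordinates of `P`, `Q`, `P + Q`, `P - Q`. -/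
theorem rel_xpt [IsAlgClosed κ] [W.IsElliptic] (h1 : W.a₁ = 0) (h3 : W.a₃ = 0)
    (h2 : (2 : κ) ≠ 0) {P Q : (W⁄(LL W κ)).Point} (hP : P ∈ HH W) (hQ : Q ∈ HH W) :
    ∃ c : κ, c ≠ 0 ∧ ∀ i, asub (WeierstrassCurve.map (W⁄κ) C) (sy (xpt W P) (xpt W Q)) i =
      C c * sy (xpt W (P + Q)) (xpt W (P - Q)) i := by
  have hinj : Function.Injective (algebraMap κ[X] (LL W κ)) := by
    rw [IsScalarTower.algebraMap_eq κ[X] (RatFunc κ) (LL W κ)]
    exact (algebraMap (RatFunc κ) (LL W κ)).injective.comp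
      (IsFractionRing.injective κ[X] (RatFunc κ))
  have h2L : (2 : LL W κ) ≠ 0 := by
    intro h0
    apply h2
    apply (algebraMap κ (LL W κ)).injective
    rw [map_ofNat, h0, map_zero]
  obtain ⟨cP, hcP, eP⟩ := xpt_rep W h1 h3 h2 hP
  obtain ⟨cQ, hcQ, eQ⟩ := xpt_rep W h1 h3 h2 hQ
  obtain ⟨cR, hcR, eR⟩ := xpt_rep W h1 h3 h2 (add_mem hP hQ)
  obtain ⟨cS, hcS, eS⟩ := xpt_rep W h1 h3 h2 (sub_mem hP hQ)
  have hb1 : (W⁄(LL W κ)).a₁ = 0 := by
    change algebraMap k _ W.a₁ = 0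
    rw [h1, map_zero]
  have hb3 : (W⁄(LL W κ)).a₃ = 0 := by
    change algebraMap k _ W.a₃ = 0
    rw [h3, map_zero]
  obtain ⟨c, hc, e⟩ := rel (W⁄(LL W κ)) hb1 hb3 h2L P Q
  have hsy : ∀ (A B : (W⁄(LL W κ)).Point) (cA cB : LL W κ),
      (∀ i, algebraMap κ[X] (LL W κ) (xpt W A i) = cA * A.xRep i) →
      (∀ i, algebraMap κ[X] (LL W κ) (xpt W B i) = cB * B.xRep i) →
      ∀ i, algebraMap κ[X] (LL W κ) (sy (xpt W A) (xpt W B) i) =
        (cA * cB) * A.sym2x B i := by
    intro A B cA cB eA eB i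
    fin_cases i
    · simp only [Fin.zero_eta, sy_zero, map_mul, eA, eB]
      change _ = cA * cB * (A.xRep 0 * B.xRep 0)
      ring
    · simp only [Fin.mk_one, sy_one, map_add, map_mul, eA, eB]
      change _ = cA * cB * (A.xRep 0 * B.xRep 1 + A.xRep 1 * B.xRep 0)
      ring
    · simp only [Fin.reduceFinMk, sy_two, map_mul, eA, eB]
      change _ = cA * cB * (A.xRep 1 * B.xRep 1)
      ring
  have hW : WeierstrassCurve.map (WeierstrassCurve.map (W⁄κ) C) (algebraMap κ[X] (LL W κ)) =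
      W⁄(LL W κ) := by
    change (((W.map (algebraMap k κ)).map C).map (algebraMap κ[X] (LL W κ))) = W.map _
    rw [WeierstrassCurve.map_map, WeierstrassCurve.map_map]
    congr 1
  have key : ∀ i, algebraMap κ[X] (LL W κ)
      (asub (WeierstrassCurve.map (W⁄κ) C) (sy (xpt W P) (xpt W Q)) i) =
      ((cP * cQ) ^ 2 * c) * (P + Q).sym2x (P - Q) i := by
    intro i
    rw [← asub_map, hW]
    have e5 : (fun i => algebraMap κ[X] (LL W κ) (sy (xpt W P) (xpt W Q) i)) =
        (cP * cQ) • P.sym2x Q := by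
      funext i
      exact hsy P Q cP cQ eP eQ i
    rw [e5, asub_smul, e]
    simp only [Pi.smul_apply, smul_eq_mul]
    ring
  refine prop_of (((prim_xpt W P).sy (prim_xpt W Q)).asub (W⁄κ))
    ((prim_xpt W (P + Q)).sy (prim_xpt W (P - Q))) fun i j => ?_
  apply hinj
  rw [map_mul, map_mul, key, key, hsy _ _ cR cS eR eS, hsy _ _ cR cS eR eS]
  ring

end rel

end Pool.Agent.SmL.E
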