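import Pool.Agent.Lib.SmL.E.Triv

/-!
# SMITH-L block E, module Red: reduction of the odd prime-to-`p` torsion at a good place

`i : R → w` a ring homomorphism, `W` a curve over `R` with `a₁ = a₃ = 0` and unit discriminant, `2` a unit
of `w`, `π : w → κ` the residue map (any homomorphism to a field which kills the maximal ideal). `Red`: the
reduction relation between the points over `F` and over `κ`.

Port of `TTC/H/{Red, RedAdd}` (there `W` has three rational points of order two and the points have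
`2`-power order). The two inputs `x_unit`, `y_unit` of `red_add` are easy here. Let `n` be odd, `|n| = 1`,
`n P = n Q = O`. `y_unit`: `P = (x, y)`: if `|y| < 1` then `P` and `- P` are near to each other, so `P = - P`
(`eq_of_near`, `|Δ| = 1`), `P = O` as `n` is odd, contradiction. `x_unit`: if `P = (x, y)`, `Q = (x', y')`,
`|x - x'| < 1`: `|y ^ 2 - y' ^ 2| < 1`, so `|y - y'| < 1` or `|y + y'| < 1`, `P = Q` or `P = - Q` by
`eq_of_near`, `x = x'`. Then `red_add` as in `RedAdd` (doubling: slope `f'(x) / (2 y)`; different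
`x`-coordinates: slope `(y - y') / (x - x')`, denominators units).
-/

set_option autoImplicit false

open WeierstrassCurve
open scoped WeierstrassCurve.Affine

namespace Pool.Agent.SmL.E

section red

variable {F : Type} [Field F] [DecidableEq F] {w : ValuationSubring F} {R : Type} [CommRing R]
  (W : WeierstrassCurve R) (i : R →+* w) {κ : Type} [Field κ] [DecidableEq κ] (π : w →+* κ)

/-- The curve over `F`. -/
abbrev WF : WeierstrassCurve F := W.map (w.subtype.comp i)

/-- The reduced curve. -/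
abbrev WK : WeierstrassCurve κ := W.map (π.comp i)

/-- `P'` is the reduction of `P`. -/
def Red (P : (WF W i).toAffine.Point) (P' : (WK W i π).toAffine.Point) : Prop :=
  (P = 0 ∧ P' = 0) ∨ ∃ (x y : w) (h : (WF W i).toAffine.Nonsingular (x : F) (y : F))
    (h' : (WK W i π).toAffine.Nonsingular (π x) (π y)),
    P = .some (x : F) (y : F) h ∧ P' = .some (π x) (π y) h'

variable {W i π}

theorem red_zero_left {P : (WF W i).toAffine.Point} (h : Red W i π P 0) : P = 0 := by
  rcases h with ⟨h1, -⟩ | ⟨x, y, h, h', -, h2⟩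
  · exact h1
  · exact absurd h2.symm (Affine.Point.some_ne_zero _)

private theorem Red_lift_div {F : Type} [Field F] {w : ValuationSubring F} {κ : Type} [Field κ]
    (π : w →+* κ) (n d : w) (hd : w.valuation (d : F) = 1) :
    π d ≠ 0 ∧ ∃ ℓ : w, (n : F) / d = ℓ ∧ π n / π d = π ℓ := by
  have hd0 : (d : F) ≠ 0 := by
    intro h0
    rw [h0, map_zero] at hd
    exact zero_ne_one hd
  have hinv : (d : F)⁻¹ ∈ w := by
    rw [← ValuationSubring.valuation_le_one_iff, map_inv₀, hd, inv_one]
  have h1 : (⟨(d : F)⁻¹, hinv⟩ : w) * d = 1 := Subtype.ext (inv_mul_cancel₀ hd0)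
  have h2 := congrArg π h1
  rw [map_mul, map_one] at h2
  have h3 : π d ≠ 0 := by
    intro h0
    rw [h0, mul_zero] at h2
    exact zero_ne_one h2
  refine ⟨h3, n * ⟨(d : F)⁻¹, hinv⟩, ?_, ?_⟩
  · rw [div_eq_mul_inv]
    rfl
  · rw [map_mul, div_eq_iff h3, mul_assoc, h2, mul_one]

variable [W.IsElliptic] (h1 : W.a₁ = 0) (h3 : W.a₃ = 0) (h2 : w.valuation (2 : F) = 1)
  (hπ : ∀ x : w, w.valuation (x : F) < 1 → π x = 0)

include h1 h3 h2

theorem intC_WF : IntC (WF W i) w := by
  refine ⟨?_, ?_, h2, ?_, ?_, ?_⟩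
  · change (w.subtype.comp i) W.a₁ = 0
    rw [h1, map_zero]
  · change (w.subtype.comp i) W.a₃ = 0
    rw [h3, map_zero]
  · exact (i W.a₂).2
  · exact (i W.a₄).2
  · exact (i W.a₆).2

omit [DecidableEq F] h1 h3 h2 [W.IsElliptic] in
private theorem Red_val_mem (x : w) : w.valuation (x : F) ≤ 1 :=
  (ValuationSubring.valuation_le_one_iff w _).2 x.2

omit [DecidableEq F] h1 h3 h2 in
private theorem Red_disc : w.valuation (WF W i).Δ = 1 := by
  have hu : IsUnit (i W.Δ) := W.isUnit_Δ.map i
  have e : (WF W i).Δ = ((i W.Δ : w) : F) := W.map_Δ _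
  rw [e]
  exact (ValuationSubring.valuation_eq_one_iff w _).1 hu

omit [DecidableEq F] h2 [W.IsElliptic] in
private theorem Red_negY (x y : F) : (WF W i).toAffine.negY x y = -y := by
  have e1 : (WF W i).toAffine.a₁ = 0 := by
    change (w.subtype.comp i) W.a₁ = 0
    rw [h1, map_zero]
  have e3 : (WF W i).toAffine.a₃ = 0 := by
    change (w.subtype.comp i) W.a₃ = 0
    rw [h3, map_zero]
  rw [Affine.negY, e1, e3]
  ring

omit [DecidableEq κ] h2 [W.IsElliptic] in
private theorem Red_negYκ (x y : κ) : (WK W i π).toAffine.negY x y = -y := by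
  have e1 : (WK W i π).toAffine.a₁ = 0 := by
    change (π.comp i) W.a₁ = 0
    rw [h1, map_zero]
  have e3 : (WK W i π).toAffine.a₃ = 0 := by
    change (π.comp i) W.a₃ = 0
    rw [h3, map_zero]
  rw [Affine.negY, e1, e3]
  ring

omit [DecidableEq F] h2 [W.IsElliptic] in
private theorem Red_eqn {x y : F} (h : (WF W i).toAffine.Equation x y) :
    y ^ 2 = x ^ 3 + (i W.a₂ : w) * x ^ 2 + (i W.a₄ : w) * x + (i W.a₆ : w) := by
  have h' := (Affine.equation_iff _ _).1 h
  have e1 : (WF W i).toAffine.a₁ = 0 := by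
    change (w.subtype.comp i) W.a₁ = 0
    rw [h1, map_zero]
  have e3 : (WF W i).toAffine.a₃ = 0 := by
    change (w.subtype.comp i) W.a₃ = 0
    rw [h3, map_zero]
  rw [e1, e3] at h'
  change y ^ 2 + 0 * x * y + 0 * y = x ^ 3 + (i W.a₂ : w) * x ^ 2 + (i W.a₄ : w) * x +
    (i W.a₆ : w) at h'
  linear_combination h'

theorem exists_red {n : ℕ} (hn : w.valuation (n : F) = 1) {P : (WF W i).toAffine.Point}
    (hP : n • P = 0) : ∃ P', Red W i π P P' := by
  rcases P with _ | ⟨x, y, h⟩
  · exact ⟨0, Or.inl ⟨rfl, rfl⟩⟩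
  obtain ⟨hx, hy⟩ := int_of_tors (intC_WF h1 h3 h2) hn h hP
  have hE : (W.map i).toAffine.Equation (⟨x, hx⟩ : w) ⟨y, hy⟩ := by
    have := Red_eqn h1 h3 h.1
    rw [Affine.equation_iff]
    have e1 : (W.map i).toAffine.a₁ = 0 := by
      change i W.a₁ = 0
      rw [h1, map_zero]
    have e3 : (W.map i).toAffine.a₃ = 0 := by
      change i W.a₃ = 0
      rw [h3, map_zero]
    rw [e1, e3, zero_mul, zero_mul, add_zero, add_zero]
    exact Subtype.ext this
  have hE' : (WK W i π).toAffine.Equation (π ⟨x, hx⟩) (π ⟨y, hy⟩) := hE.map π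
  have hns := (Affine.equation_iff_nonsingular (W := WK W i π)).1 hE'
  exact ⟨.some _ _ hns, Or.inr ⟨⟨x, hx⟩, ⟨y, hy⟩, h, hns, rfl, rfl⟩⟩

theorem red_neg {P : (WF W i).toAffine.Point} {P' : (WK W i π).toAffine.Point}
    (rP : Red W i π P P') : Red W i π (-P) (-P') := by
  rcases rP with ⟨p1, p2⟩ | ⟨x, y, n, n', p1, p2⟩
  · left
    rw [p1, p2, neg_zero, neg_zero]
    exact ⟨rfl, rfl⟩
  · right
    have hN : (WF W i).toAffine.negY (x : F) (y : F) = ((-y : w) : F) := Red_negY h1 h3 _ _
    have hN' : (WK W i π).toAffine.negY (π x) (π y) = π (-y) := by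
      rw [Red_negYκ h1 h3, map_neg]
    refine ⟨x, -y, ?_, ?_, ?_, ?_⟩
    · rw [← hN]
      exact (Affine.nonsingular_neg ..).2 n
    · rw [← hN']
      exact (Affine.nonsingular_neg ..).2 n'
    · rw [p1, Affine.Point.neg_some, Affine.Point.some.injEq]
      exact ⟨rfl, hN⟩
    · rw [p2, Affine.Point.neg_some, Affine.Point.some.injEq]
      exact ⟨rfl, hN'⟩

private theorem Red_y_unit {n : ℕ} (ho : Odd n) (hn : w.valuation (n : F) = 1) {x y : w}
    (h : (WF W i).toAffine.Nonsingular (x : F) (y : F))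
    (e : n • Affine.Point.some (x : F) (y : F) h = 0) : w.valuation (y : F) = 1 := by
  by_contra hc
  have hlt : w.valuation (y : F) < 1 := lt_of_le_of_ne (Red_val_mem y) hc
  have hN : (WF W i).toAffine.negY (x : F) (y : F) = -(y : F) := Red_negY h1 h3 _ _
  have h' : (WF W i).toAffine.Nonsingular (x : F) ((WF W i).toAffine.negY (x : F) (y : F)) :=
    (Affine.nonsingular_neg ..).2 h
  have e' : n • Affine.Point.some (x : F) _ h' = 0 := by
    have : Affine.Point.some (x : F) _ h' = -Affine.Point.some (x : F) (y : F) h := rfl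
    rw [this, smul_neg, e, neg_zero]
  obtain ⟨-, e1⟩ := eq_of_near (intC_WF h1 h3 h2) hn h h' e e'
    (by rw [sub_self, map_zero, Red_disc]; exact zero_lt_one)
    (by
      rw [Red_disc, hN]
      have : -(y : F) - y = -(2 * y) := by ring
      rw [this, Valuation.map_neg, map_mul, h2, one_mul]
      exact hlt)
  have e2 : Affine.Point.some (x : F) (y : F) h + Affine.Point.some (x : F) (y : F) h = 0 :=
    Affine.Point.add_self_of_Y_eq e1.symm
  obtain ⟨m, rfl⟩ := ho
  have e3 : (2 * m + 1) • Affine.Point.some (x : F) (y : F) h =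
      Affine.Point.some (x : F) (y : F) h := by
    rw [add_smul, mul_comm, mul_smul, two_smul, e2, smul_zero, zero_add, one_smul]
  rw [e3] at e
  exact Affine.Point.some_ne_zero _ e

private theorem Red_x_unit {n : ℕ} (hn : w.valuation (n : F) = 1) {x y x' y' : w}
    (h : (WF W i).toAffine.Nonsingular (x : F) (y : F))
    (h' : (WF W i).toAffine.Nonsingular (x' : F) (y' : F))
    (e : n • Affine.Point.some (x : F) (y : F) h = 0)
    (e' : n • Affine.Point.some (x' : F) (y' : F) h' = 0)
    (hx : (x : F) ≠ x') : w.valuation ((x : F) - x') = 1 := by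
  by_contra hc
  have hlt : w.valuation ((x : F) - x') < 1 := lt_of_le_of_ne (Red_val_mem (x - x')) hc
  have hD : w.valuation (WF W i).Δ = 1 := Red_disc
  have E := Red_eqn h1 h3 h.1
  have E' := Red_eqn h1 h3 h'.1
  have hprod : w.valuation (((y : F) - y') * ((y : F) + y')) < 1 := by
    have : ((y : F) - y') * ((y : F) + y') = ((x : F) - x') *
        ((x ^ 2 + x * x' + x' ^ 2 + i W.a₂ * (x + x') + i W.a₄ : w) : F) := by
      push_cast
      linear_combination E - E'
    rw [this, map_mul]
    exact mul_lt_one_of_lt_of_le hlt (Red_val_mem _)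
  have hor : w.valuation ((y : F) - y') < 1 ∨ w.valuation ((y : F) + y') < 1 := by
    by_contra hcon
    push Not at hcon
    rw [map_mul] at hprod
    exact absurd hprod (not_lt.2 (one_le_mul hcon.1 hcon.2))
  rcases hor with hy | hy
  · obtain ⟨e1, -⟩ := eq_of_near (intC_WF h1 h3 h2) hn h' h e' e (by rwa [hD]) (by rwa [hD])
    exact hx e1
  · have hN : (WF W i).toAffine.negY (x' : F) (y' : F) = -(y' : F) := Red_negY h1 h3 _ _
    have h'' : (WF W i).toAffine.Nonsingular (x' : F) ((WF W i).toAffine.negY (x' : F) (y' : F)) :=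
      (Affine.nonsingular_neg ..).2 h'
    have e'' : n • Affine.Point.some (x' : F) _ h'' = 0 := by
      have : Affine.Point.some (x' : F) _ h'' = -Affine.Point.some (x' : F) (y' : F) h' := rfl
      rw [this, smul_neg, e', neg_zero]
    obtain ⟨e1, -⟩ := eq_of_near (intC_WF h1 h3 h2) hn h'' h e'' e (by rwa [hD])
      (by rw [hD, hN, sub_neg_eq_add]; exact hy)
    exact hx e1

omit h1 h3 h2 [W.IsElliptic] in
/-- the sum, with a slope in `w` -/
private theorem Red_add_aux {x y x' y' ℓ : w}
    (n : (WF W i).toAffine.Nonsingular (x : F) (y : F))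
    (n' : (WF W i).toAffine.Nonsingular (x' : F) (y' : F))
    (m : (WK W i π).toAffine.Nonsingular (π x) (π y))
    (m' : (WK W i π).toAffine.Nonsingular (π x') (π y'))
    (hxy : ¬((x : F) = x' ∧ (y : F) = (WF W i).toAffine.negY x' y'))
    (hxy' : ¬(π x = π x' ∧ π y = (WK W i π).toAffine.negY (π x') (π y')))
    (hl : (WF W i).toAffine.slope (x : F) x' y y' = ℓ)
    (hl' : (WK W i π).toAffine.slope (π x) (π x') (π y) (π y') = π ℓ) :
    Red W i π (Affine.Point.some (x : F) y n + Affine.Point.some (x' : F) y' n')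
      (Affine.Point.some (π x) (π y) m + Affine.Point.some (π x') (π y') m') := by
  right
  have hX : (WF W i).toAffine.addX (x : F) x' ((WF W i).toAffine.slope (x : F) x' y y') =
      ((W.map i).toAffine.addX x x' ℓ : w) := by
    rw [hl]
    exact Affine.map_addX (W' := (W.map i).toAffine) w.subtype x x' ℓ
  have hY : (WF W i).toAffine.addY (x : F) x' y ((WF W i).toAffine.slope (x : F) x' y y') =
      ((W.map i).toAffine.addY x x' y ℓ : w) := by
    rw [hl]
    exact Affine.map_addY (W' := (W.map i).toAffine) w.subtype x y x' ℓ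
  have hX' : (WK W i π).toAffine.addX (π x) (π x')
      ((WK W i π).toAffine.slope (π x) (π x') (π y) (π y')) =
      π ((W.map i).toAffine.addX x x' ℓ) := by
    rw [hl']
    exact Affine.map_addX (W' := (W.map i).toAffine) π x x' ℓ
  have hY' : (WK W i π).toAffine.addY (π x) (π x') (π y)
      ((WK W i π).toAffine.slope (π x) (π x') (π y) (π y')) =
      π ((W.map i).toAffine.addY x x' y ℓ) := by
    rw [hl']
    exact Affine.map_addY (W' := (W.map i).toAffine) π x y x' ℓ
  refine ⟨(W.map i).toAffine.addX x x' ℓ, (W.map i).toAffine.addY x x' y ℓ, ?_, ?_, ?_, ?_⟩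
  rotate_left 2
  · rw [Affine.Point.add_some hxy, Affine.Point.some.injEq]
    exact ⟨hX, hY⟩
  · rw [Affine.Point.add_some hxy', Affine.Point.some.injEq]
    exact ⟨hX', hY'⟩
  · rw [← hX, ← hY]
    exact Affine.nonsingular_add n n' hxy
  · rw [← hX', ← hY']
    exact Affine.nonsingular_add m m' hxy'

include hπ

/-- **The reduction is additive.** -/
theorem red_add {n : ℕ} (ho : Odd n) (hn : w.valuation (n : F) = 1)
    {P Q : (WF W i).toAffine.Point} {P' Q' : (WK W i π).toAffine.Point} (hP : n • P = 0)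
    (hQ : n • Q = 0) (rP : Red W i π P P') (rQ : Red W i π Q Q') :
    Red W i π (P + Q) (P' + Q') := by
  have rP0 := rP
  have rQ0 := rQ
  rcases rP with ⟨p1, p2⟩ | ⟨x, y, nP, m, p1, p2⟩
  · rw [p1, p2, zero_add, zero_add]
    exact rQ
  rcases rQ with ⟨q1, q2⟩ | ⟨x', y', nQ, m', q1, q2⟩
  · rw [q1, q2, add_zero, add_zero]
    exact rP0
  rw [p1] at hP
  rw [q1] at hQ
  by_cases hx : (x : F) = x'
  · have hx' : x = x' := Subtype.ext hx
    subst hx'
    have hE := Red_eqn h1 h3 nP.1
    have hE' := Red_eqn h1 h3 nQ.1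
    have hyy : (y : F) ^ 2 = (y' : F) ^ 2 := by rw [hE, hE']
    by_cases hneg : (y : F) = -(y' : F)
    · -- opposite points
      have hPQ : P = -Q := by
        rw [p1, q1, Affine.Point.neg_some, Affine.Point.some.injEq, Red_negY h1 h3]
        exact ⟨rfl, hneg⟩
      have hnegw : y = -y' := Subtype.ext hneg
      have hPQ' : P' = -Q' := by
        rw [p2, q2, Affine.Point.neg_some, Affine.Point.some.injEq, Red_negYκ h1 h3, hnegw,
          map_neg]
        exact ⟨rfl, rfl⟩
      left
      rw [hPQ, hPQ', neg_add_cancel, neg_add_cancel]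
      exact ⟨rfl, rfl⟩
    · -- doubling
      have hyeq : (y : F) = y' := (sq_eq_sq_iff_eq_or_eq_neg.1 hyy).resolve_right hneg
      have hyw : y = y' := Subtype.ext hyeq
      subst hyw
      have hyu := Red_y_unit h1 h3 h2 ho hn nP hP
      have h2y : w.valuation ((2 * y : w) : F) = 1 := by
        change w.valuation ((2 : F) * y) = 1
        rw [map_mul, h2, hyu, one_mul]
      have e1 : (WF W i).toAffine.a₁ = 0 := by
        change (w.subtype.comp i) W.a₁ = 0
        rw [h1, map_zero]
      have e1' : (WK W i π).toAffine.a₁ = 0 := by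
        change (π.comp i) W.a₁ = 0
        rw [h1, map_zero]
      obtain ⟨hπ2y, ℓ, hl, hl'⟩ := Red_lift_div π (3 * x ^ 2 + 2 * i W.a₂ * x + i W.a₄)
        (2 * y) h2y
      rw [map_mul, map_ofNat] at hπ2y
      have hd : (y : F) ≠ (WF W i).toAffine.negY x y := by
        rw [Red_negY h1 h3]
        exact hneg
      have hd' : π y ≠ (WK W i π).toAffine.negY (π x) (π y) := by
        rw [Red_negYκ h1 h3]
        intro h0
        apply hπ2y
        linear_combination h0
      rw [p1, p2, q1, q2]
      refine Red_add_aux (ℓ := ℓ) nP nQ m m' (fun hh => hd hh.2) (fun hh => hd' hh.2) ?_ ?_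
      · rw [Affine.slope_of_Y_ne rfl hd, Red_negY h1 h3, ← hl, e1]
        congr 1
        · change 3 * (x : F) ^ 2 + 2 * (i W.a₂ : w) * x + (i W.a₄ : w) - 0 * y = _
          rw [zero_mul, sub_zero]
          rfl
        · change (y : F) - -y = 2 * y
          ring
      · rw [Affine.slope_of_Y_ne rfl hd', Red_negYκ h1 h3, ← hl', e1']
        congr 1
        · change 3 * (π x) ^ 2 + 2 * π (i W.a₂) * π x + π (i W.a₄) - 0 * π y = _
          rw [map_add, map_add, map_mul, map_mul, map_mul, map_pow, map_ofNat, map_ofNat]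
          ring
        · rw [map_mul, map_ofNat]
          ring
  · -- different `x`-coordinates
    have hu := Red_x_unit h1 h3 h2 hn nP nQ hP hQ hx
    have hu' : w.valuation ((x - x' : w) : F) = 1 := hu
    obtain ⟨hπx0, ℓ, hl, hl'⟩ := Red_lift_div π (y - y') (x - x') hu'
    rw [map_sub] at hπx0
    have hπx : π x ≠ π x' := fun h0 => hπx0 (by rw [h0, sub_self])
    rw [p1, p2, q1, q2]
    refine Red_add_aux (ℓ := ℓ) nP nQ m m' (fun hh => hx hh.1) (fun hh => hπx hh.1) ?_ ?_
    · rw [Affine.slope_of_X_ne hx, ← hl]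
      rfl
    · rw [Affine.slope_of_X_ne hπx, ← hl', map_sub, map_sub]

theorem red_zsmul {n : ℕ} (ho : Odd n) (hn : w.valuation (n : F) = 1)
    {P : (WF W i).toAffine.Point} {P' : (WK W i π).toAffine.Point} (hP : n • P = 0)
    (rP : Red W i π P P') (m : ℤ) : Red W i π (m • P) (m • P') := by
  have hk : ∀ k : ℕ, Red W i π (k • P) (k • P') := by
    intro k
    induction k with
    | zero =>
      rw [zero_nsmul, zero_nsmul]
      exact Or.inl ⟨rfl, rfl⟩
    | succ k ih =>
      rw [succ_nsmul, succ_nsmul]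
      refine red_add h1 h3 h2 hπ ho hn ?_ hP ih rP
      rw [smul_comm, hP, smul_zero]
  rcases Int.eq_nat_or_neg m with ⟨k, rfl | rfl⟩
  · rw [natCast_zsmul, natCast_zsmul]
    exact hk k
  · rw [neg_zsmul, neg_zsmul, natCast_zsmul, natCast_zsmul]
    exact red_neg h1 h3 h2 (hk k)

end red

end Pool.Agent.SmL.E
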