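import Mathlib

/-!
# SMITH-L block E, module Rk2: groups `M` with `M[l ^ ∞] ≅ (ℚ_l / ℤ_l) ^ 2`

`Rk2 l M`: a compatible family of bases `e n, f n` of `M[l ^ n]`. Coordinates `cx`, `cy`, the
determinant form `dt n P Q = cx P * cy Q - cy P * cx Q`, the determinant `dtm n σ` of an endomorphism.

`exists_rk2`: a basis `e 1, f 1` of the `F_l`-vector space `M[l]` (`l ^ 2` elements); `e (n + 1)` with
`l • e (n + 1) = e n` by `hdiv`. `ex` by induction: `l P = a e_n + b f_n` gives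
`P - a e_(n+1) - b f_(n+1) ∈ M[l]`. `inj` by induction: `l ^ (n - 1)` times the relation gives `l ∣ a, b`.
`dt_comp`: `P = a e_n + b f_n = l a e_(n+1) + l b f_(n+1)`, `Q = c e_(n+1) + d f_(n+1)`, `l Q = c e_n + d f_n`.
-/

set_option autoImplicit false

namespace Pool.Agent.SmL.E

/-- A compatible family of bases. -/
structure Rk2 (l : ℕ) (M : Type) [AddCommGroup M] where
  e : ℕ → M
  f : ℕ → M
  e_zero : e 0 = 0
  f_zero : f 0 = 0
  e_succ : ∀ n, l • e (n + 1) = e n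
  f_succ : ∀ n, l • f (n + 1) = f n
  ex : ∀ (n : ℕ) (P : M), l ^ n • P = 0 → ∃ a b : ℤ, P = a • e n + b • f n
  inj : ∀ (n : ℕ) (a b : ℤ), a • e n + b • f n = 0 → (l ^ n : ℤ) ∣ a ∧ (l ^ n : ℤ) ∣ b

/-- A compatible sequence above `x`. -/
private noncomputable def Rk2_seq {l : ℕ} {M : Type} [AddCommGroup M]
    (hdiv : ∀ P : M, ∃ Q, l • Q = P) (x : M) : ℕ → M
  | 0 => 0
  | 1 => x
  | n + 2 => (hdiv (Rk2_seq hdiv x (n + 1))).choose

private theorem Rk2_seq_succ {l : ℕ} {M : Type} [AddCommGroup M]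
    (hdiv : ∀ P : M, ∃ Q, l • Q = P) {x : M} (hx : l • x = 0) (n : ℕ) :
    l • Rk2_seq hdiv x (n + 1) = Rk2_seq hdiv x n := by
  cases n with
  | zero => exact hx
  | succ n =>
    rw [Rk2_seq]
    exact (hdiv (Rk2_seq hdiv x (n + 1))).choose_spec

private theorem Rk2_seq_pow {l : ℕ} {M : Type} [AddCommGroup M] {e : ℕ → M}
    (h : ∀ n, l • e (n + 1) = e n) (n : ℕ) : l ^ n • e (n + 1) = e 1 := by
  induction n with
  | zero => rw [pow_zero, one_smul]
  | succ n ih => rw [pow_succ, mul_smul, h, ih]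

private theorem Rk2_basis {l : ℕ} (hl : l.Prime) {T : Type} [AddCommGroup T] [Module (ZMod l) T]
    (hc : Nat.card T = l ^ 2) : ∃ x y : T, (∀ P : T, ∃ a b : ℤ, P = a • x + b • y) ∧
      ∀ a b : ℤ, a • x + b • y = 0 → (l : ℤ) ∣ a ∧ (l : ℤ) ∣ b := by
  have : Fact l.Prime := ⟨hl⟩
  have : NeZero l := ⟨hl.ne_zero⟩
  have hfin : Finite T := Nat.finite_of_card_ne_zero (by
    rw [hc]
    exact pow_ne_zero 2 hl.ne_zero)
  have hfinm : Module.Finite (ZMod l) T := Module.Finite.of_finite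
  have hr : Module.finrank (ZMod l) T = 2 := by
    have h1 := Module.natCard_eq_pow_finrank (K := ZMod l) (V := T)
    rw [hc, Nat.card_zmod] at h1
    exact (Nat.pow_right_injective hl.two_le h1).symm
  let B : Module.Basis (Fin 2) (ZMod l) T := Module.finBasisOfFinrankEq (ZMod l) T hr
  refine ⟨B 0, B 1, fun P => ?_, fun a b hab => ?_⟩
  · have h1 := B.sum_repr P
    rw [Fin.sum_univ_two] at h1
    refine ⟨((B.repr P 0).val : ℕ), ((B.repr P 1).val : ℕ), ?_⟩
    have h3 : ∀ (c : ZMod l) (Q : T), c • Q = ((c.val : ℕ) : ℤ) • Q := fun c Q => by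
      conv_lhs => rw [← ZMod.natCast_zmod_val c]
      rw [Nat.cast_smul_eq_nsmul, natCast_zsmul]
    rw [← h3, ← h3, h1]
  · have h1 : (a : ZMod l) • B 0 + (b : ZMod l) • B 1 = 0 := by
      rw [Int.cast_smul_eq_zsmul, Int.cast_smul_eq_zsmul, hab]
    have h2 := (Fintype.linearIndependent_iff.1 B.linearIndependent) ![(a : ZMod l), (b : ZMod l)] (by
      rw [Fin.sum_univ_two]
      exact h1)
    exact ⟨(ZMod.intCast_zmod_eq_zero_iff_dvd a l).1 (h2 0),
      (ZMod.intCast_zmod_eq_zero_iff_dvd b l).1 (h2 1)⟩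

private theorem Rk2_pair {l : ℕ} (hl : l.Prime) {M : Type} [AddCommGroup M]
    (hc : Nat.card {P : M // l • P = 0} = l ^ 2) : ∃ x y : M, l • x = 0 ∧ l • y = 0 ∧
      (∀ P : M, l • P = 0 → ∃ a b : ℤ, P = a • x + b • y) ∧
      ∀ a b : ℤ, a • x + b • y = 0 → (l : ℤ) ∣ a ∧ (l : ℤ) ∣ b := by
  have hT : ∀ P : (nsmulAddMonoidHom (α := M) l).ker, l • P = 0 := fun P => Subtype.ext P.2
  letI : Module (ZMod l) (nsmulAddMonoidHom (α := M) l).ker := AddCommGroup.zmodModule hT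
  obtain ⟨x, y, h1, h2⟩ := Rk2_basis hl (T := (nsmulAddMonoidHom (α := M) l).ker) hc
  refine ⟨x.1, y.1, x.2, y.2, fun P hP => ?_, fun a b hab => h2 a b (Subtype.ext hab)⟩
  obtain ⟨a, b, hab⟩ := h1 ⟨P, hP⟩
  exact ⟨a, b, congrArg Subtype.val hab⟩

theorem exists_rk2 {l : ℕ} (hl : l.Prime) {M : Type} [AddCommGroup M]
    (hdiv : ∀ P : M, ∃ Q, l • Q = P) (hc : Nat.card {P : M // l • P = 0} = l ^ 2) :
    Nonempty (Rk2 l M) := by
  obtain ⟨x, y, hx, hy, hex, hin⟩ := Rk2_pair hl hc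
  have he := Rk2_seq_succ hdiv hx
  have hf := Rk2_seq_succ hdiv hy
  have he1 : ∀ n, l ^ n • Rk2_seq hdiv x (n + 1) = x := Rk2_seq_pow he
  have hf1 : ∀ n, l ^ n • Rk2_seq hdiv y (n + 1) = y := Rk2_seq_pow hf
  refine ⟨⟨Rk2_seq hdiv x, Rk2_seq hdiv y, rfl, rfl, he, hf, fun n => ?_, fun n => ?_⟩⟩
  · induction n with
    | zero =>
      intro P hP
      rw [pow_zero, one_smul] at hP
      exact ⟨0, 0, by rw [hP, zero_smul, zero_smul, add_zero]⟩
    | succ n ih =>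
      intro P hP
      rw [pow_succ, mul_smul] at hP
      obtain ⟨a, b, hab⟩ := ih (l • P) hP
      obtain ⟨c, d, hcd⟩ := hex (P - (a • Rk2_seq hdiv x (n + 1) + b • Rk2_seq hdiv y (n + 1))) (by
        rw [smul_sub, hab, smul_add, smul_comm l a, smul_comm l b, he, hf, sub_self])
      refine ⟨c * (l : ℤ) ^ n + a, d * (l : ℤ) ^ n + b, ?_⟩
      rw [sub_eq_iff_eq_add] at hcd
      have hcx : c • x = (c * (l : ℤ) ^ n) • Rk2_seq hdiv x (n + 1) := by
        rw [mul_smul, ← Nat.cast_pow, natCast_zsmul, he1]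
      have hdy : d • y = (d * (l : ℤ) ^ n) • Rk2_seq hdiv y (n + 1) := by
        rw [mul_smul, ← Nat.cast_pow, natCast_zsmul, hf1]
      rw [hcd, hcx, hdy, add_smul, add_smul]
      abel
  · induction n with
    | zero =>
      intro a b _
      rw [pow_zero]
      exact ⟨one_dvd _, one_dvd _⟩
    | succ n ih =>
      intro a b hab
      obtain ⟨⟨a', ha⟩, b', hb⟩ := ih a b (by
        have h1 := congrArg (fun z => l • z) hab
        simp only [smul_add, smul_zero] at h1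
        rwa [smul_comm l a, smul_comm l b, he, hf] at h1)
      have h1 : a' • x + b' • y = 0 := by
        rw [← he1 n, ← hf1 n, ← natCast_zsmul, ← natCast_zsmul, Nat.cast_pow, ← mul_smul,
          ← mul_smul, mul_comm a', mul_comm b', ← ha, ← hb]
        exact hab
      obtain ⟨⟨a2, ha2⟩, b2, hb2⟩ := hin a' b' h1
      exact ⟨⟨a2, by rw [ha, ha2, pow_succ]; ring⟩, b2, by rw [hb, hb2, pow_succ]; ring⟩

namespace Rk2

variable {l : ℕ} {M : Type} [AddCommGroup M] (R : Rk2 l M)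

theorem e_tors (n : ℕ) : l ^ n • R.e n = 0 := by
  induction n with
  | zero => rw [R.e_zero, smul_zero]
  | succ n ih => rw [pow_succ, mul_smul, R.e_succ, ih]

theorem f_tors (n : ℕ) : l ^ n • R.f n = 0 := by
  induction n with
  | zero => rw [R.f_zero, smul_zero]
  | succ n ih => rw [pow_succ, mul_smul, R.f_succ, ih]

private theorem Rk2_tors (n : ℕ) (a b : ℤ) : l ^ n • (a • R.e n + b • R.f n) = 0 := by
  rw [smul_add, smul_comm _ a, smul_comm _ b, R.e_tors, R.f_tors, smul_zero, smul_zero, add_zero]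

private theorem Rk2_unique {n : ℕ} {a b a' b' : ℤ}
    (h : a • R.e n + b • R.f n = a' • R.e n + b' • R.f n) :
    (a : ZMod (l ^ n)) = a' ∧ (b : ZMod (l ^ n)) = b' := by
  have h1 : (a' - a) • R.e n + (b' - b) • R.f n = 0 := by
    rw [sub_smul, sub_smul]
    rw [← sub_eq_zero] at h
    rw [← neg_eq_zero, ← h]
    abel
  have h2 := R.inj n _ _ h1
  rw [ZMod.intCast_eq_intCast_iff_dvd_sub, ZMod.intCast_eq_intCast_iff_dvd_sub]
  push_cast
  exact h2

open Classical in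
/-- The first coordinate. -/
noncomputable def cx (n : ℕ) (P : M) : ZMod (l ^ n) :=
  if h : l ^ n • P = 0 then ((R.ex n P h).choose : ZMod (l ^ n)) else 0

open Classical in
/-- The second coordinate. -/
noncomputable def cy (n : ℕ) (P : M) : ZMod (l ^ n) :=
  if h : l ^ n • P = 0 then ((R.ex n P h).choose_spec.choose : ZMod (l ^ n)) else 0

theorem cx_eq (n : ℕ) (a b : ℤ) : R.cx n (a • R.e n + b • R.f n) = a := by
  have h := Rk2_tors R n a b
  rw [cx, dif_pos h]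
  exact (Rk2_unique R (R.ex n _ h).choose_spec.choose_spec).1.symm

theorem cy_eq (n : ℕ) (a b : ℤ) : R.cy n (a • R.e n + b • R.f n) = b := by
  have h := Rk2_tors R n a b
  rw [cy, dif_pos h]
  exact (Rk2_unique R (R.ex n _ h).choose_spec.choose_spec).2.symm

/-- The determinant form. -/
noncomputable def dt (n : ℕ) (P Q : M) : ZMod (l ^ n) := R.cx n P * R.cy n Q - R.cy n P * R.cx n Q

theorem dt_eq (n : ℕ) (a b c d : ℤ) :
    R.dt n (a • R.e n + b • R.f n) (c • R.e n + d • R.f n) = a * d - b * c := by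
  rw [dt, cx_eq, cy_eq, cx_eq, cy_eq]

theorem dt_self (n : ℕ) (P : M) : R.dt n P P = 0 := by
  rw [dt, mul_comm, sub_self]

theorem dt_add_left {n : ℕ} {P P' Q : M} (hP : l ^ n • P = 0) (hP' : l ^ n • P' = 0)
    (hQ : l ^ n • Q = 0) : R.dt n (P + P') Q = R.dt n P Q + R.dt n P' Q := by
  obtain ⟨a, b, rfl⟩ := R.ex n P hP
  obtain ⟨a', b', rfl⟩ := R.ex n P' hP'
  obtain ⟨c, d, rfl⟩ := R.ex n Q hQ
  have h1 : a • R.e n + b • R.f n + (a' • R.e n + b' • R.f n) =
      (a + a') • R.e n + (b + b') • R.f n := by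
    rw [add_smul, add_smul]
    abel
  rw [h1, dt_eq, dt_eq, dt_eq]
  push_cast
  ring

theorem dt_add_right {n : ℕ} {P Q Q' : M} (hP : l ^ n • P = 0) (hQ : l ^ n • Q = 0)
    (hQ' : l ^ n • Q' = 0) : R.dt n P (Q + Q') = R.dt n P Q + R.dt n P Q' := by
  obtain ⟨a, b, rfl⟩ := R.ex n P hP
  obtain ⟨c, d, rfl⟩ := R.ex n Q hQ
  obtain ⟨c', d', rfl⟩ := R.ex n Q' hQ'
  have h1 : c • R.e n + d • R.f n + (c' • R.e n + d' • R.f n) =
      (c + c') • R.e n + (d + d') • R.f n := by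
    rw [add_smul, add_smul]
    abel
  rw [h1, dt_eq, dt_eq, dt_eq]
  push_cast
  ring

theorem dt_comp (hl : l ≠ 0) {n : ℕ} {P Q : M} (hP : l ^ n • P = 0) (hQ : l ^ (n + 1) • Q = 0) :
    R.dt (n + 1) P Q = ((l * (R.dt n P (l • Q)).val : ℕ) : ZMod (l ^ (n + 1))) := by
  have : NeZero (l ^ n) := ⟨pow_ne_zero n hl⟩
  obtain ⟨a, b, rfl⟩ := R.ex n P hP
  obtain ⟨c, d, rfl⟩ := R.ex (n + 1) Q hQ
  have h1 : a • R.e n + b • R.f n = (a * l) • R.e (n + 1) + (b * l) • R.f (n + 1) := by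
    rw [mul_smul, mul_smul, natCast_zsmul, natCast_zsmul, R.e_succ, R.f_succ]
  have h2 : l • (c • R.e (n + 1) + d • R.f (n + 1)) = c • R.e n + d • R.f n := by
    rw [smul_add, smul_comm l c, smul_comm l d, R.e_succ, R.f_succ]
  rw [h2, dt_eq, h1, dt_eq]
  have h3 : ((a : ZMod (l ^ n)) * d - b * c) = ((a * d - b * c : ℤ) : ZMod (l ^ n)) := by
    push_cast
    ring
  have h4 : (((a * l : ℤ) : ZMod (l ^ (n + 1))) * d - ((b * l : ℤ) : ZMod (l ^ (n + 1))) * c) =
      ((l * (a * d - b * c) : ℤ) : ZMod (l ^ (n + 1))) := by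
    push_cast
    ring
  have h5 : ∀ v : ℕ, ((l * v : ℕ) : ZMod (l ^ (n + 1))) =
      (((l * v : ℕ) : ℤ) : ZMod (l ^ (n + 1))) := fun v => (Int.cast_natCast _).symm
  rw [h3, h4, h5, ZMod.intCast_eq_intCast_iff_dvd_sub, Nat.cast_mul,
    ZMod.val_intCast, ← mul_sub, pow_succ', Nat.cast_mul]
  refine mul_dvd_mul_left _ ?_
  rw [← dvd_neg, neg_sub]
  exact Int.dvd_self_sub_emod

theorem dt_nondeg (hl : l.Prime) {n : ℕ} {P : M} (hP : l ^ n • P = 0)
    (h : ∀ Q, l ^ n • Q = 0 → R.dt n P Q = 0) : P = 0 := by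
  obtain ⟨a, b, rfl⟩ := R.ex n P hP
  have h1 := h _ (R.f_tors n)
  have h2 := h _ (R.e_tors n)
  have ef : R.f n = (0 : ℤ) • R.e n + (1 : ℤ) • R.f n := by rw [zero_smul, one_smul, zero_add]
  have ee : R.e n = (1 : ℤ) • R.e n + (0 : ℤ) • R.f n := by rw [zero_smul, one_smul, add_zero]
  have h3 : (a : ZMod (l ^ n)) = 0 := by
    have h5 : R.dt n (a • R.e n + b • R.f n) ((0 : ℤ) • R.e n + (1 : ℤ) • R.f n) = 0 := by
      rw [← ef]
      exact h1
    rw [dt_eq] at h5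
    push_cast at h5
    linear_combination h5
  have h4 : (b : ZMod (l ^ n)) = 0 := by
    have h5 : R.dt n (a • R.e n + b • R.f n) ((1 : ℤ) • R.e n + (0 : ℤ) • R.f n) = 0 := by
      rw [← ee]
      exact h2
    rw [dt_eq] at h5
    push_cast at h5
    linear_combination -h5
  obtain ⟨a', ha⟩ := (ZMod.intCast_zmod_eq_zero_iff_dvd a (l ^ n)).1 h3
  obtain ⟨b', hb⟩ := (ZMod.intCast_zmod_eq_zero_iff_dvd b (l ^ n)).1 h4
  rw [ha, hb, mul_comm _ a', mul_comm _ b', mul_smul, mul_smul, natCast_zsmul, natCast_zsmul,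
    R.e_tors, R.f_tors, smul_zero, smul_zero, add_zero]

/-- The determinant of an endomorphism. -/
noncomputable def dtm (n : ℕ) (σ : M →+ M) : ZMod (l ^ n) := R.dt n (σ (R.e n)) (σ (R.f n))

theorem dt_map {n : ℕ} (σ : M →+ M) {P Q : M} (hP : l ^ n • P = 0) (hQ : l ^ n • Q = 0) :
    R.dt n (σ P) (σ Q) = R.dtm n σ * R.dt n P Q := by
  obtain ⟨a, b, rfl⟩ := R.ex n P hP
  obtain ⟨c, d, rfl⟩ := R.ex n Q hQ
  obtain ⟨p, q, hpq⟩ := R.ex n (σ (R.e n)) (by rw [← map_nsmul, R.e_tors, map_zero])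
  obtain ⟨r, s, hrs⟩ := R.ex n (σ (R.f n)) (by rw [← map_nsmul, R.f_tors, map_zero])
  have h1 : ∀ a b : ℤ, σ (a • R.e n + b • R.f n) =
      (a * p + b * r) • R.e n + (a * q + b * s) • R.f n := by
    intro a b
    rw [map_add, map_zsmul, map_zsmul, hpq, hrs]
    simp only [add_smul, mul_smul, smul_add]
    abel
  rw [h1, h1, dtm, hpq, hrs, dt_eq, dt_eq, dt_eq]
  push_cast
  ring

theorem dtm_mul (n : ℕ) (σ τ : M →+ M) : R.dtm n (σ.comp τ) = R.dtm n σ * R.dtm n τ := by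
  rw [dtm, AddMonoidHom.comp_apply, AddMonoidHom.comp_apply, dt_map R σ
    (by rw [← map_nsmul, R.e_tors, map_zero]) (by rw [← map_nsmul, R.f_tors, map_zero]), ← dtm]

theorem dtm_congr {n : ℕ} {σ τ : M →+ M} (h : ∀ P, l ^ n • P = 0 → σ P = τ P) :
    R.dtm n σ = R.dtm n τ := by
  rw [dtm, dtm, h _ (R.e_tors n), h _ (R.f_tors n)]

theorem dtm_id (n : ℕ) : R.dtm n (AddMonoidHom.id M) = 1 := by
  have ef : R.f n = (0 : ℤ) • R.e n + (1 : ℤ) • R.f n := by rw [zero_smul, one_smul, zero_add]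
  have ee : R.e n = (1 : ℤ) • R.e n + (0 : ℤ) • R.f n := by rw [zero_smul, one_smul, add_zero]
  have h : R.dt n ((1 : ℤ) • R.e n + (0 : ℤ) • R.f n) ((0 : ℤ) • R.e n + (1 : ℤ) • R.f n) = 1 := by
    rw [dt_eq]
    push_cast
    ring
  rw [← ee, ← ef] at h
  exact h

/-- The determinant of an endomorphism `φ` with `φ ^ 2 - t φ + q = 0` is `q`, if `φ` is not scalar on
`M[l]`. Proof: let `φ e_n = a e_n + b f_n`, `φ f_n = c e_n + d f_n`, `τ = a + d`, `δ = a d - b c`. By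
Cayley-Hamilton `(τ - t) φ = δ - q` on `M[l ^ n]`, that is, `(τ - t) b = 0`, `(τ - t) c = 0`,
`(τ - t) a = δ - q = (τ - t) d` in `ZMod (l ^ n)`. One of `b`, `c`, `a - d` is a unit (otherwise `φ` is
scalar on `M[l]`), so `τ = t` and `δ = q`. -/
theorem dtm_eq (hl : l.Prime) {φ : M →+ M} {t q : ℤ}
    (h : ∀ P, (∃ m : ℕ, l ^ m • P = 0) → φ (φ P) - t • φ P + q • P = 0)
    (hns : ¬ ∃ c : ℤ, ∀ P, l • P = 0 → φ P = c • P) (n : ℕ) :
    R.dtm n φ = (q : ZMod (l ^ n)) := by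
  rcases Nat.eq_zero_or_pos n with hn | hn
  · subst hn
    have : Subsingleton (ZMod (l ^ 0)) := by
      rw [pow_zero]
      infer_instance
    exact Subsingleton.elim _ _
  obtain ⟨k, rfl⟩ : ∃ k, n = k + 1 := ⟨n - 1, by omega⟩
  obtain ⟨a, b, hab⟩ := R.ex (k + 1) (φ (R.e (k + 1))) (by rw [← map_nsmul, R.e_tors, map_zero])
  obtain ⟨c, d, hcd⟩ := R.ex (k + 1) (φ (R.f (k + 1))) (by rw [← map_nsmul, R.f_tors, map_zero])
  have h1 : ∀ x y : ℤ, φ (x • R.e (k + 1) + y • R.f (k + 1)) =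
      (x * a + y * c) • R.e (k + 1) + (x * b + y * d) • R.f (k + 1) := by
    intro x y
    rw [map_add, map_zsmul, map_zsmul, hab, hcd]
    simp only [add_smul, mul_smul, smul_add]
    abel
  have h2 := R.inj (k + 1) (a * a + b * c - t * a + q) (a * b + b * d - t * b) (by
    have h3 := h (R.e (k + 1)) ⟨_, R.e_tors (k + 1)⟩
    rw [hab, h1] at h3
    rw [← h3]
    simp only [add_smul, sub_smul, mul_smul, smul_add]
    abel)
  have h4 := R.inj (k + 1) (c * a + d * c - t * c) (c * b + d * d - t * d + q) (by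
    have h3 := h (R.f (k + 1)) ⟨_, R.f_tors (k + 1)⟩
    rw [hcd, h1] at h3
    rw [← h3]
    simp only [add_smul, sub_smul, mul_smul, smul_add]
    abel)
  have hlp : Prime (l : ℤ) := Nat.prime_iff_prime_int.1 hl
  -- the trace
  have key : (l ^ (k + 1) : ℤ) ∣ a + d - t := by
    have hco : ∀ z : ℤ, ¬ (l : ℤ) ∣ z → (l ^ (k + 1) : ℤ) ∣ z * (a + d - t) →
        (l ^ (k + 1) : ℤ) ∣ a + d - t := fun z hz hd => by
      exact IsCoprime.dvd_of_dvd_mul_left ((Prime.coprime_iff_not_dvd hlp).2 hz).pow_left hd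
    by_contra hcon
    apply hns
    have hb : (l : ℤ) ∣ b := by
      by_contra hb
      exact hcon (hco b hb (by
        have := h2.2
        rwa [show a * b + b * d - t * b = b * (a + d - t) by ring] at this))
    have hc : (l : ℤ) ∣ c := by
      by_contra hc
      exact hcon (hco c hc (by
        have := h4.1
        rwa [show c * a + d * c - t * c = c * (a + d - t) by ring] at this))
    have had : (l : ℤ) ∣ d - a := by
      by_contra hd
      exact hcon (hco (d - a) hd (by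
        have := dvd_sub h4.2 h2.1
        rwa [show c * b + d * d - t * d + q - (a * a + b * c - t * a + q) =
          (d - a) * (a + d - t) by ring] at this))
    refine ⟨a, fun P hP => ?_⟩
    obtain ⟨x, y, rfl⟩ := R.ex 1 P (by rwa [pow_one])
    have e1 : R.e 1 = l ^ k • R.e (k + 1) := (Rk2_seq_pow R.e_succ k).symm
    have f1 : R.f 1 = l ^ k • R.f (k + 1) := (Rk2_seq_pow R.f_succ k).symm
    have el : ∀ z : ℤ, (l : ℤ) ∣ z → z • R.e 1 = 0 := by
      rintro _ ⟨z, rfl⟩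
      have := R.e_tors 1
      rw [pow_one] at this
      rw [mul_comm, mul_smul, natCast_zsmul, this, smul_zero]
    have fl : ∀ z : ℤ, (l : ℤ) ∣ z → z • R.f 1 = 0 := by
      rintro _ ⟨z, rfl⟩
      have := R.f_tors 1
      rw [pow_one] at this
      rw [mul_comm, mul_smul, natCast_zsmul, this, smul_zero]
    have hφe : φ (R.e 1) = a • R.e 1 := by
      have h5 : φ (R.e 1) = a • R.e 1 + b • R.f 1 := by
        rw [e1, map_nsmul, hab, f1, smul_add, smul_comm _ a, smul_comm _ b]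
      rw [h5, fl b hb, add_zero]
    have hφf : φ (R.f 1) = a • R.f 1 := by
      have h5 : φ (R.f 1) = c • R.e 1 + d • R.f 1 := by
        rw [f1, map_nsmul, hcd, e1, smul_add, smul_comm _ c, smul_comm _ d]
      have h6 := fl _ had
      rw [sub_smul, sub_eq_zero] at h6
      rw [h5, el c hc, zero_add, h6]
    rw [map_add, map_zsmul, map_zsmul, hφe, hφf, smul_add, smul_comm x a, smul_comm y a]
  rw [dtm, hab, hcd, dt_eq]
  have h5 : ((a : ZMod (l ^ (k + 1))) * d - b * c) = ((a * d - b * c : ℤ) : ZMod (l ^ (k + 1))) := by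
    push_cast
    ring
  rw [h5, ZMod.intCast_eq_intCast_iff_dvd_sub]
  push_cast
  have h6 := dvd_sub h2.1 (Dvd.dvd.mul_left key a)
  rwa [show a * a + b * c - t * a + q - a * (a + d - t) = q - (a * d - b * c) by ring] at h6

end Rk2

end Pool.Agent.SmL.E
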