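import Pool.Agent.Lib.SmL.E.Act
import Pool.Agent.Lib.SmL.E.Near
import Pool.Agent.Lib.SM.E.TwistIso
import Pool.Agent.Lib.SM.E.FinCl

/-!
# SMITH-L block E, module Scl: integral models

`scl W u`: the curve `y ^ 2 = x ^ 3 + u ^ 2 a₂ x ^ 2 + u ^ 4 a₄ x + u ^ 6 a₆`, isomorphic to `W` by
`(x, y) ↦ (u ^ 2 x, u ^ 3 y)` (`ScaleRel` in `SM/E/TwistIso`). `exists_scl`: a power of the uniformizer
as `u` (`LocHyp.disc`, or `exists_pow_le` in `SM/E/FinCl`).
-/

set_option autoImplicit false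

open WeierstrassCurve
open scoped WeierstrassCurve.Affine

namespace Pool.Agent.SmL.E

open Pool.Agent.Lib.SmD

variable {K Ω : Type} [Field K] [Field Ω] [Algebra K Ω] (W : WeierstrassCurve K) (u : K)

/-- The scaled curve. -/
def scl : WeierstrassCurve K := ⟨0, u ^ 2 * W.a₂, 0, u ^ 4 * W.a₄, u ^ 6 * W.a₆⟩

theorem scl_elliptic [W.IsElliptic] (h1 : W.a₁ = 0) (h3 : W.a₃ = 0) (hu : u ≠ 0) :
    (scl W u).IsElliptic := by
  have hΔ : (scl W u).Δ = u ^ 12 * W.Δ := by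
    simp only [WeierstrassCurve.Δ, WeierstrassCurve.b₂, WeierstrassCurve.b₄, WeierstrassCurve.b₆,
      WeierstrassCurve.b₈, scl, h1, h3]
    ring
  refine ⟨?_⟩
  rw [hΔ]
  exact (IsUnit.mk0 _ (pow_ne_zero 12 hu)).mul W.isUnit_Δ

theorem exists_pow_int {w : ValuationSubring Ω} {π : K} (hL : LocHyp K w π) (c : K) :
    ∃ N₀ : ℕ, ∀ N : ℕ, N₀ ≤ N → algebraMap K Ω (π ^ N * c) ∈ w := by
  by_cases hc : c = 0
  · refine ⟨0, fun N _ => ?_⟩
    rw [hc, mul_zero, map_zero]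
    exact w.zero_mem
  · obtain ⟨n, hn⟩ := hL.disc c hc
    have hπ0 : w.valuation (algebraMap K Ω π) ≠ 0 :=
      (w.valuation.ne_zero_iff).mpr ((map_ne_zero_iff _ (algebraMap K Ω).injective).mpr hL.pi_ne)
    refine ⟨n.natAbs, fun N hN => ?_⟩
    rw [← ValuationSubring.valuation_le_one_iff, map_mul, map_mul, map_pow, map_pow, hn,
      ← zpow_natCast, ← zpow_add₀ hπ0]
    exact zpow_le_one₀ (zero_lt_iff.mpr hπ0) hL.pi_lt.le (by omega)

theorem exists_scl {w : ValuationSubring Ω} {π : K} (hL : LocHyp K w π) :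
    ∃ u : K, u ≠ 0 ∧ IntC ((scl W u)⁄Ω) w := by
  obtain ⟨N2, h2⟩ := exists_pow_int hL W.a₂
  obtain ⟨N4, h4⟩ := exists_pow_int hL W.a₄
  obtain ⟨N6, h6⟩ := exists_pow_int hL W.a₆
  refine ⟨π ^ (N2 + N4 + N6), pow_ne_zero _ hL.pi_ne, ?_, ?_, hL.two, ?_, ?_, ?_⟩
  · exact map_zero (algebraMap K Ω)
  · exact map_zero (algebraMap K Ω)
  · have := h2 ((N2 + N4 + N6) * 2) (by omega)
    rw [pow_mul] at this
    exact this
  · have := h4 ((N2 + N4 + N6) * 4) (by omega)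
    rw [pow_mul] at this
    exact this
  · have := h6 ((N2 + N4 + N6) * 6) (by omega)
    rw [pow_mul] at this
    exact this

variable [DecidableEq Ω]

/-- The isomorphism, with its coordinates. -/
theorem exists_sclE (h1 : W.a₁ = 0) (h3 : W.a₃ = 0) (hu : u ≠ 0) :
    ∃ T : (W⁄Ω).Point ≃+ ((scl W u)⁄Ω).Point,
      ∀ (s : Ω ≃ₐ[K] Ω) (P : (W⁄Ω).Point), gE (scl W u) s (T P) = T (gE W s P) := by
  have hR : Pool.Agent.SmithE.ScaleRel (W⁄Ω) ((scl W u)⁄Ω) (algebraMap K Ω u) := by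
    refine ⟨?_, ?_, ?_, ?_, ?_, ?_, ?_, ?_⟩
    · exact (map_ne_zero_iff _ (algebraMap K Ω).injective).mpr hu
    · change algebraMap K Ω W.a₁ = 0
      rw [h1, map_zero]
    · change algebraMap K Ω W.a₃ = 0
      rw [h3, map_zero]
    · exact map_zero (algebraMap K Ω)
    · exact map_zero (algebraMap K Ω)
    · change algebraMap K Ω (u ^ 2 * W.a₂) = algebraMap K Ω u ^ 2 * algebraMap K Ω W.a₂
      rw [map_mul, map_pow]
    · change algebraMap K Ω (u ^ 4 * W.a₄) = algebraMap K Ω u ^ 4 * algebraMap K Ω W.a₄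
      rw [map_mul, map_pow]
    · change algebraMap K Ω (u ^ 6 * W.a₆) = algebraMap K Ω u ^ 6 * algebraMap K Ω W.a₆
      rw [map_mul, map_pow]
  refine ⟨hR.equiv, fun s P => ?_⟩
  rcases P with _ | ⟨x, y, h⟩
  · rfl
  · rw [gE_some, hR.equiv_some, hR.equiv_some, gE_some, Affine.Point.some.injEq]
    constructor
    · rw [map_mul, map_pow, s.commutes]
    · rw [map_mul, map_pow, s.commutes]

end Pool.Agent.SmL.E
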