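import Pool.Agent.Lib.SmL.E.Div

/-!
# SMITH-L block E, module Sep: the same over a separably closed field, `n` odd

`P = (a, b)` with `b ≠ 0`: `A - a B` is separable (`fib_separable`), so it has `n ^ 2` roots `x` in `F`;
`f(x) ≠ 0` (otherwise `(x, 0)` is a point of order two, `n (x, 0) = (x, 0)` as `n` is odd, `x = a`,
`f(a) = b ^ 2 ≠ 0`), so `X ^ 2 - f(x)` is separable and there is a `y`; `n (x, y) = ± P`.
`b = 0` or `P = O`: `n P = P`. Number of the torsion points: there is a point `P` with `b ≠ 0` (`F` is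
infinite), the `n ^ 2` points `Q` with `n Q = P` are a coset of the torsion.
-/

set_option autoImplicit false

open Polynomial WeierstrassCurve
open scoped WeierstrassCurve.Affine

namespace Pool.Agent.SmL.E

open Pool.Agent.TTC.H

variable {F : Type} [Field F] [DecidableEq F] (W : WeierstrassCurve F) [W.IsElliptic]

omit [DecidableEq F] in
theorem sep_sq [IsSepClosed F] (h2 : (2 : F) ≠ 0) (z : F) : ∃ y, y ^ 2 = z := by
  have : NeZero ((2 : ℕ) : F) := ⟨by exact_mod_cast h2⟩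
  exact IsSepClosed.exists_pow_nat_eq z 2

omit [DecidableEq F] [W.IsElliptic] in
theorem sep_infinite (F : Type) [Field F] [IsSepClosed F] : Infinite F := by
  by_contra h
  rw [not_infinite_iff_finite] at h
  have : IsAlgClosed F := inferInstance
  exact not_finite F

theorem odd_smul {A : Type} [AddCommGroup A] {n : ℕ} (ho : Odd n) {P : A} (h : P + P = 0) :
    n • P = P := by
  obtain ⟨m, rfl⟩ := ho
  rw [add_smul, mul_comm, mul_smul, two_smul, h, smul_zero, zero_add, one_smul]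

theorem sep_exists_nsmul [IsSepClosed F] (h1 : W.a₁ = 0) (h3 : W.a₃ = 0) (h2 : (2 : F) ≠ 0)
    {n : ℕ} (ho : Odd n) (hn : (n : F) ≠ 0) (P : W.toAffine.Point) : ∃ Q, n • Q = P := by
  have hn0 : n ≠ 0 := by
    rintro rfl
    exact hn Nat.cast_zero
  rcases P with _ | ⟨a, b, h⟩
  · exact ⟨0, smul_zero _⟩
  by_cases hb : b = 0
  · refine ⟨Affine.Point.some a b h, odd_smul ho ?_⟩
    apply Affine.Point.add_self_of_Y_eq
    rw [negY_zero W h1 h3, hb, neg_zero]
  have hfa : a ^ 3 + W.a₂ * a ^ 2 + W.a₄ * a + W.a₆ ≠ 0 := by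
    rw [← eqn_of W h1 h3 h]
    exact pow_ne_zero 2 hb
  obtain ⟨x, hx⟩ := IsSepClosed.exists_root (fib W n a) (by
    intro h0
    have d := (fib_deg W hn0 a).2
    rw [natDegree_eq_of_degree_eq_some h0] at d
    exact pow_ne_zero 2 hn0 d.symm) (fib_separable W h1 h3 h2 hn hfa)
  obtain ⟨y, hy⟩ := sep_sq h2 (x ^ 3 + W.a₂ * x ^ 2 + W.a₄ * x + W.a₆)
  rcases lift_root W h1 h3 h2 h hx (ns_of W h1 h3 hy) with e | e
  · exact ⟨_, e⟩
  · exact ⟨_, e⟩

/-- The number of the points of a fibre above a point which is not of order two. -/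
theorem sep_card_fibre [IsSepClosed F] (h1 : W.a₁ = 0) (h3 : W.a₃ = 0) (h2 : (2 : F) ≠ 0)
    {n : ℕ} (hn : (n : F) ≠ 0) {a b : F} (h : W.toAffine.Nonsingular a b) (hb : b ≠ 0) :
    Nat.card {Q : W.toAffine.Point // n • Q = Affine.Point.some a b h} = n ^ 2 := by
  have hn0 : n ≠ 0 := by
    rintro rfl
    exact hn Nat.cast_zero
  have hfa : a ^ 3 + W.a₂ * a ^ 2 + W.a₄ * a + W.a₆ ≠ 0 := by
    rw [← eqn_of W h1 h3 h]
    exact pow_ne_zero 2 hb
  obtain ⟨fm, fd⟩ := fib_deg W hn0 a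
  have hsep : (fib W n a).Separable := fib_separable W h1 h3 h2 hn hfa
  rw [card_fibre W h1 h3 h2 (sep_sq h2) h hb, card_isRoot fm.ne_zero,
    Multiset.toFinset_card_of_nodup (nodup_roots hsep),
    ← (IsSepClosed.splits_of_separable (fib W n a) hsep).natDegree_eq_card_roots, fd]

theorem sep_card_tors [IsSepClosed F] (h1 : W.a₁ = 0) (h3 : W.a₃ = 0) (h2 : (2 : F) ≠ 0)
    {n : ℕ} (ho : Odd n) (hn : (n : F) ≠ 0) :
    Nat.card {P : W.toAffine.Point // n • P = 0} = n ^ 2 := by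
  have hinf := sep_infinite F
  set f : F[X] := X ^ 3 + C W.a₂ * X ^ 2 + C W.a₄ * X + C W.a₆ with hf
  have hf0 : f ≠ 0 := by
    have : f.natDegree = 3 := by
      rw [hf]
      compute_degree!
    intro h0
    rw [h0] at this
    simp at this
  obtain ⟨a, ha⟩ := Infinite.exists_notMem_finset f.roots.toFinset
  have hfa : a ^ 3 + W.a₂ * a ^ 2 + W.a₄ * a + W.a₆ ≠ 0 := by
    intro h0
    apply ha
    rw [Multiset.mem_toFinset, mem_roots hf0, IsRoot.def, hf]
    simp only [eval_add, eval_pow, eval_X, eval_mul, eval_C]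
    exact h0
  obtain ⟨b, hb⟩ := sep_sq h2 (a ^ 3 + W.a₂ * a ^ 2 + W.a₄ * a + W.a₆)
  have hb0 : b ≠ 0 := by
    rintro rfl
    rw [zero_pow two_ne_zero] at hb
    exact hfa hb.symm
  have h := ns_of W h1 h3 hb
  obtain ⟨Q0, hQ0⟩ := sep_exists_nsmul W h1 h3 h2 ho hn (Affine.Point.some a b h)
  rw [← sep_card_fibre W h1 h3 h2 hn h hb0]
  refine Nat.card_congr ⟨fun Q => ⟨Q.1 + Q0, by rw [smul_add, Q.2, zero_add, hQ0]⟩,
    fun Q => ⟨Q.1 - Q0, by rw [smul_sub, Q.2, hQ0, sub_self]⟩, fun Q => ?_, fun Q => ?_⟩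
  · exact Subtype.ext (add_sub_cancel_right _ _)
  · exact Subtype.ext (sub_add_cancel _ _)

end Pool.Agent.SmL.E
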