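import Pool.Agent.Lib.SmL.E.Near

/-!
# SMITH-L block E, module TameA: wild automorphisms move points by points of `EE`

`W : y ^ 2 = x ^ 3 + A x + B`, `A, B ∈ w`, `max(|A|, |B|) = 1`, `2` and `3` units. `σ` an automorphism of
`F` which preserves `w`, `A`, `B`, and `|σ z - z| < |z|` for all `z ≠ 0` in a subfield `E` which contains
`x`, `y` and a root `c` of `3 c ^ 2 + A`. Claim: `σ P - P ∈ EE` for `P = (x, y)`, `x ∈ w` (so `y ∈ w`).

Slope of the line through `σ P` and `- P`: `s = (σ y + y) / (σ x - x)` if `σ x ≠ x`, and then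
`x(σ P - P) = s ^ 2 - x - σ x`; also `(σ y + y) (σ y - y) = (σ x - x) N`,
`N = σ x ^ 2 + x σ x + x ^ 2 + A`.
(0) `σ x = x`: `σ y = ± y`, and `|σ y - y| < |y|` (`y ≠ 0`) excludes `- y` (`|2 y| = |y|`): `σ P = P`. Let
`σ x ≠ x`. If `σ y = - y` then `y = 0`, as before, and if `σ y = y` then `N = 0`.
(1) `|y| = 1`: `|σ y + y| = |2 y| = 1 > |σ x - x|`: `|s| > 1`.
(2) `|y| < 1`, `|f'(x)| = |3 x ^ 2 + A| = 1`: `|N| = 1` (`N = f'(x) +` multiple of `σ x - x`), so `σ y ≠ y`, and
`s = N / (σ y - y)`, `|σ y - y| < 1`.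
(3) `|y| < 1`, `|3 x ^ 2 + A| < 1`. Then `|A| = 1`: otherwise `|x| < 1` and `B = y ^ 2 - x ^ 3 - A x` has
`|B| < 1`. So `|x| = 1`, `3 (x - c)(x + c) = 3 x ^ 2 + A`, so, after replacing `c` by `- c`, `|x - c| < 1`,
`|c| = 1`; `σ c = ± c` and `|σ c - c| < |c|`: `σ c = c`. Let `z = x - c`, `|z| < 1`,
`y ^ 2 = z ^ 2 (z + 3 c) + f(c)`. `z ≠ 0` as `σ x ≠ x`, and `|σ x - x| = |σ z - z| < |z|`.
If `|y| ≥ |z|`: `|σ y + y| = |y| > |σ x - x|`, `|s| > 1`.
If `|y| < |z|`: `N = σ z ^ 2 + z σ z + z ^ 2 + 3 c (σ z + z)` has `|N| = |z|`, so `σ y ≠ y` and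
`|s| = |N| / |σ y - y| > 1` because `|σ y - y| < |y| < |z|` (if `y = 0` then `σ y = y`, excluded).
-/

set_option autoImplicit false

open WeierstrassCurve
open scoped WeierstrassCurve.Affine

namespace Pool.Agent.SmL.E

section aux

variable {F : Type} [Field F] {w : ValuationSubring F}

/-- an absolute value dominates -/
private theorem val_add_of_lt {a b : F} (h : w.valuation b < w.valuation a) :
    w.valuation (a + b) = w.valuation a := Valuation.map_add_eq_of_lt_left _ h

private theorem val_sum {a b : F} (h2 : w.valuation (2 : F) = 1)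
    (h : w.valuation (b - a) < w.valuation a) : w.valuation (b + a) = w.valuation a := by
  have e : b + a = 2 * a + (b - a) := by ring
  have h3 : w.valuation (2 * a) = w.valuation a := by rw [map_mul, h2, one_mul]
  rw [e, val_add_of_lt (by rwa [h3]), h3]

private theorem le_one {a : F} : a ∈ w ↔ w.valuation a ≤ 1 :=
  (ValuationSubring.valuation_le_one_iff _ _).symm

end aux

variable {F : Type} [Field F] [DecidableEq F] {W : WeierstrassCurve F} {w : ValuationSubring F}

/-- a steep line -/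
theorem sub_mem_EE_of_lt (hI : IntC W w) {x y x' y' : F} (h : W.toAffine.Nonsingular x y)
    (h' : W.toAffine.Nonsingular x' y') (mx : x ∈ w) (mx' : x' ∈ w) (hne : x' ≠ x)
    (hlt : w.valuation (x' - x) < w.valuation (y' + y)) :
    Affine.Point.some x' y' h' - Affine.Point.some x y h ∈ EE W w := by
  right
  have hn : W.toAffine.negY x y = - y := by
    rw [Affine.negY, hI.h1, hI.h3]
    ring
  have hxy : ¬ (x' = x ∧ y' = W.toAffine.negY x (W.toAffine.negY x y)) := fun h => hne h.1
  rw [sub_eq_add_neg, Affine.Point.neg_some, Affine.Point.add_some hxy]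
  refine ⟨_, _, _, rfl, ?_⟩
  rw [Affine.slope_of_X_ne hne, hn, Affine.addX, hI.h1]
  intro hm
  have hd : x' - x ≠ 0 := sub_ne_zero.2 hne
  have h1 : ((y' - -y) / (x' - x)) ^ 2 ∈ w := by
    have e : ((y' - -y) / (x' - x)) ^ 2 = (((y' - -y) / (x' - x)) ^ 2 + 0 * ((y' - -y) / (x' - x)) -
      W.a₂ - x' - x) + W.a₂ + x' + x := by ring
    rw [e]
    exact add_mem (add_mem (add_mem hm hI.m2) mx') mx
  rw [le_one, map_pow, map_div₀, sub_neg_eq_add] at h1
  have h0 : 0 < w.valuation (x' - x) := zero_lt_iff.2 ((w.valuation.ne_zero_iff).2 hd)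
  have h3 : 1 < w.valuation (y' + y) / w.valuation (x' - x) := (one_lt_div₀ h0).2 hlt
  exact absurd h1 (not_le.2 (one_lt_pow₀ h3 two_ne_zero))

theorem wild_near (hI : IntC W w) (h2 : W.a₂ = 0) (h3v : w.valuation (3 : F) = 1)
    (hAB : w.valuation W.a₄ = 1 ∨ w.valuation W.a₆ = 1) {σ : F ≃+* F} (hA : σ W.a₄ = W.a₄)
    (hB : σ W.a₆ = W.a₆) (hσ : ∀ z, σ z ∈ w ↔ z ∈ w) {E : Subfield F}
    (hE : ∀ z ∈ E, z ≠ 0 → w.valuation (σ z - z) < w.valuation z) {c : F} (hc : c ∈ E)
    (hc3 : 3 * c ^ 2 + W.a₄ = 0) {x y : F} (hx : x ∈ E) (hy : y ∈ E)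
    (h : W.toAffine.Nonsingular x y) (h' : W.toAffine.Nonsingular (σ x) (σ y)) (mx : x ∈ w) :
    Affine.Point.some (σ x) (σ y) h' - Affine.Point.some x y h ∈ EE W w := by
  have hv2 := hI.h2
  have mσx : σ x ∈ w := (hσ x).2 mx
  have eq1 : y ^ 2 = x ^ 3 + W.a₄ * x + W.a₆ := by
    have h1 := (Affine.equation_iff _ _).1 h.1
    rw [hI.h1, hI.h3, h2] at h1
    linear_combination h1
  have eq2 : (σ y) ^ 2 = (σ x) ^ 3 + W.a₄ * σ x + W.a₆ := by
    have h1 := congrArg σ eq1
    simpa only [map_pow, map_add, map_mul, hA, hB] using h1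
  have vx : w.valuation x ≤ 1 := le_one.1 mx
  have vσx : w.valuation (σ x) ≤ 1 := le_one.1 mσx
  have vA : w.valuation W.a₄ ≤ 1 := le_one.1 hI.m4
  have vB : w.valuation W.a₆ ≤ 1 := le_one.1 hI.m6
  have my : y ∈ w := by
    have h1 : y ^ 2 ∈ w := by
      rw [eq1]
      exact add_mem (add_mem (pow_mem mx 3) (mul_mem hI.m4 mx)) hI.m6
    rw [le_one, map_pow] at h1
    rw [le_one]
    exact (pow_le_one_iff two_ne_zero).1 h1
  have vy : w.valuation y ≤ 1 := le_one.1 my
  -- no `z` with `σ z = - z`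
  have hneg : ∀ z ∈ E, σ z = - z → z = 0 := by
    intro z hz e
    by_contra h0
    have h1 := hE z hz h0
    rw [e, show - z - z = -(2 * z) by ring, Valuation.map_neg, map_mul, hv2, one_mul] at h1
    exact lt_irrefl _ h1
  -- case `σ x = x`
  by_cases hsx : σ x = x
  · have h1 : (σ y - y) * (σ y + y) = 0 := by
      rw [hsx] at eq2
      linear_combination eq2 - eq1
    have h2 : σ y = y := by
      rcases mul_eq_zero.1 h1 with h3 | h3
      · exact sub_eq_zero.1 h3
      · have h4 : y = 0 := hneg y hy (eq_neg_of_add_eq_zero_left h3)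
        rw [h4, map_zero]
    left
    rw [sub_eq_zero]
    simp only [hsx, h2]
  have hx0 : x ≠ 0 := by
    rintro rfl
    exact hsx (map_zero σ)
  have dx : w.valuation (σ x - x) < w.valuation x := hE x hx hx0
  have dx1 : w.valuation (σ x - x) < 1 := dx.trans_le vx
  have hd : σ x - x ≠ 0 := sub_ne_zero.2 hsx
  refine sub_mem_EE_of_lt hI h h' mx mσx hsx ?_
  -- case `|y| = 1`
  rcases vy.lt_or_eq with vy1 | vy1
  swap
  · have hy0 : y ≠ 0 := by
      rintro rfl
      rw [map_zero] at vy1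
      exact zero_ne_one vy1
    rw [val_sum hv2 (hE y hy hy0), vy1]
    exact dx1
  -- the main relation
  obtain ⟨N, hN⟩ : ∃ N, N = σ x ^ 2 + x * σ x + x ^ 2 + W.a₄ := ⟨_, rfl⟩
  have rel : (σ y + y) * (σ y - y) = (σ x - x) * N := by
    rw [hN]
    linear_combination eq2 - eq1
  -- it suffices that `|N| > |σ y - y|` and `N ≠ 0`
  have key : N ≠ 0 → (y ≠ 0 → w.valuation (σ y - y) < w.valuation N) →
      w.valuation (σ x - x) < w.valuation (σ y + y) := by
    intro hN0 hNy
    have hp : (σ y + y) * (σ y - y) ≠ 0 := by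
      rw [rel]
      exact mul_ne_zero hd hN0
    have hyy : σ y - y ≠ 0 := right_ne_zero_of_mul hp
    have hy0 : y ≠ 0 := by
      rintro rfl
      exact hyy (by rw [map_zero, sub_zero])
    have h1 := congrArg w.valuation rel
    rw [map_mul, map_mul] at h1
    by_contra hcon
    rw [not_lt] at hcon
    have h2 : w.valuation (σ y + y) * w.valuation (σ y - y) <
        w.valuation (σ x - x) * w.valuation N :=
      (mul_le_mul_left hcon _).trans_lt
        (mul_lt_mul_of_pos_left (hNy hy0) (zero_lt_iff.2 ((w.valuation.ne_zero_iff).2 hd)))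
    exact h2.ne h1
  have m2 : (2 : F) ∈ w := le_one.2 hv2.le
  have m3 : (3 : F) ∈ w := le_one.2 h3v.le
  have v3 : w.valuation (3 * x ^ 2 + W.a₄) ≤ 1 :=
    le_one.1 (add_mem (mul_mem m3 (pow_mem mx 2)) hI.m4)
  rcases v3.lt_or_eq with v3 | v3
  swap
  · -- case 2
    have h1 : w.valuation N = 1 := by
      have e : N = (3 * x ^ 2 + W.a₄) + (σ x - x) * (σ x + 2 * x) := by
        rw [hN]
        ring
      have h4 : w.valuation ((σ x - x) * (σ x + 2 * x)) < 1 := by
        rw [map_mul]
        exact mul_lt_one_of_lt_of_le dx1 (le_one.1 (add_mem mσx (mul_mem m2 mx)))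
      rw [e, val_add_of_lt (by rwa [v3]), v3]
    refine key ?_ ?_
    · intro h0
      rw [h0, map_zero] at h1
      exact zero_ne_one h1
    · intro hy0
      rw [h1]
      exact (hE y hy hy0).trans vy1
  -- case 3
  have vA1 : w.valuation W.a₄ = 1 := by
    by_contra hA1
    have vA1 : w.valuation W.a₄ < 1 := lt_of_le_of_ne vA hA1
    have h4 : w.valuation (3 * x ^ 2) < 1 := by
      have e : 3 * x ^ 2 = (3 * x ^ 2 + W.a₄) - W.a₄ := by ring
      rw [e]
      exact (w.valuation.map_sub _ _).trans_lt (max_lt v3 vA1)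
    rw [map_mul, h3v, one_mul, map_pow] at h4
    have h5 : w.valuation x < 1 := by
      by_contra hc
      rw [not_lt] at hc
      exact absurd h4 (not_lt.2 (one_le_pow₀ hc))
    have h6 : w.valuation W.a₆ < 1 := by
      have e : W.a₆ = y ^ 2 - x ^ 3 - W.a₄ * x := by
        linear_combination - eq1
      rw [e]
      refine (w.valuation.map_sub _ _).trans_lt (max_lt
        ((w.valuation.map_sub _ _).trans_lt (max_lt ?_ ?_)) ?_)
      · rw [map_pow]
        exact pow_lt_one₀ zero_le vy1 two_ne_zero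
      · rw [map_pow]
        exact pow_lt_one₀ zero_le h5 three_ne_zero
      · rw [map_mul]
        exact mul_lt_one_of_lt_of_le vA1 vx
    rcases hAB with h7 | h7
    · exact hA1 h7
    · exact h6.ne h7
  have vc : w.valuation c = 1 := by
    have h4 : w.valuation (3 * c ^ 2) = 1 := by
      rw [show 3 * c ^ 2 = - W.a₄ by linear_combination hc3, Valuation.map_neg, vA1]
    rw [map_mul, h3v, one_mul, map_pow] at h4
    exact (pow_eq_one_iff_of_nonneg zero_le two_ne_zero).1 h4
  -- reduce to `|x - c| < 1`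
  obtain ⟨c, hc, hc3, vc, hxc⟩ : ∃ c ∈ E, 3 * c ^ 2 + W.a₄ = 0 ∧ w.valuation c = 1 ∧
      w.valuation (x - c) < 1 := by
    have h4 : w.valuation ((x - c) * (x + c)) < 1 := by
      have e : 3 * x ^ 2 + W.a₄ = 3 * ((x - c) * (x + c)) := by linear_combination hc3
      rwa [e, map_mul, h3v, one_mul] at v3
    by_cases h5 : w.valuation (x - c) < 1
    · exact ⟨c, hc, hc3, vc, h5⟩
    · refine ⟨- c, neg_mem hc, by rw [neg_sq]; exact hc3, by rw [Valuation.map_neg, vc], ?_⟩
      rw [sub_neg_eq_add]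
      by_contra h6
      rw [not_lt] at h5 h6
      rw [map_mul] at h4
      exact absurd h4 (not_lt.2 (one_le_mul h5 h6))
  have hc0 : c ≠ 0 := by
    rintro rfl
    rw [map_zero] at vc
    exact zero_ne_one vc
  have h30 : (3 : F) ≠ 0 := by
    intro h0
    rw [h0, map_zero] at h3v
    exact zero_ne_one h3v
  have hσc : σ c = c := by
    have h4 : 3 * (σ c) ^ 2 + W.a₄ = 0 := by
      have := congrArg σ hc3
      simpa only [map_add, map_mul, map_pow, map_ofNat, map_zero, hA] using this
    have h5 : (σ c - c) * (σ c + c) = 0 := by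
      refine (mul_eq_zero.1 (show 3 * ((σ c - c) * (σ c + c)) = 0 by
        linear_combination h4 - hc3)).resolve_left h30
    rcases mul_eq_zero.1 h5 with h6 | h6
    · exact sub_eq_zero.1 h6
    · exact absurd (hneg c hc (eq_neg_of_add_eq_zero_left h6)) hc0
  obtain ⟨z, hz⟩ : ∃ z, z = x - c := ⟨_, rfl⟩
  have hzE : z ∈ E := by
    rw [hz]
    exact sub_mem hx hc
  have hσz : σ z = σ x - c := by rw [hz, map_sub, hσc]
  have hz0 : z ≠ 0 := by
    intro h0
    apply hsx
    have : x = c := by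
      rw [h0] at hz
      exact (sub_eq_zero.1 hz.symm)
    rw [this, hσc]
  have hzz : w.valuation (σ z - z) < w.valuation z := hE z hzE hz0
  have exz : σ x - x = σ z - z := by
    rw [hσz, hz]
    ring
  have vz1 : w.valuation z < 1 := by rwa [hz]
  rcases le_or_gt (w.valuation z) (w.valuation y) with hzy | hzy
  · have hy0 : y ≠ 0 := by
      rintro rfl
      rw [map_zero] at hzy
      exact hz0 ((w.valuation.zero_iff).1 (le_antisymm hzy zero_le))
    rw [val_sum hv2 (hE y hy hy0), exz]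
    exact hzz.trans_le hzy
  · have hsum : w.valuation (σ z + z) = w.valuation z := val_sum hv2 hzz
    have h7 : w.valuation (3 * c * (σ z + z)) = w.valuation z := by
      rw [map_mul, map_mul, h3v, vc, hsum, one_mul, one_mul]
    have vσz : w.valuation (σ z) = w.valuation z := by
      have e : σ z = z + (σ z - z) := by ring
      rw [e, val_add_of_lt hzz]
    have hz2 : w.valuation z * w.valuation z < w.valuation z := by
      have := mul_lt_mul_of_pos_left vz1 (zero_lt_iff.2 ((w.valuation.ne_zero_iff).2 hz0))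
      rwa [mul_one] at this
    have h8 : w.valuation (σ z ^ 2 + z * σ z + z ^ 2) < w.valuation z := by
      refine (w.valuation.map_add _ _).trans_lt (max_lt
        ((w.valuation.map_add _ _).trans_lt (max_lt ?_ ?_)) ?_)
      · rw [map_pow, vσz, pow_two]
        exact hz2
      · rw [map_mul, vσz]
        exact hz2
      · rw [map_pow, pow_two]
        exact hz2
    have vN : w.valuation N = w.valuation z := by
      have e : N = 3 * c * (σ z + z) + (σ z ^ 2 + z * σ z + z ^ 2) := by
        rw [hN, hσz, hz]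
        linear_combination hc3
      rw [e, val_add_of_lt (by rwa [h7]), h7]
    refine key ?_ ?_
    · intro h0
      rw [h0, map_zero] at vN
      exact hz0 ((w.valuation.zero_iff).1 vN.symm)
    · intro hy0
      rw [vN]
      exact (hE y hy hy0).trans hzy

end Pool.Agent.SmL.E
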