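import Pool.Agent.Lib.SmL.E.TameA
import Pool.Agent.Lib.SmL.E.Act
import Pool.Agent.Lib.SM.E.TwistIso

/-!
# SMITH-L block E, module TameE: the prime-to-`p` torsion is tame in characteristic `p ≥ 5`

`W : y ^ 2 = x ^ 3 + A x + B` over `K`, `n` prime to `p`, `s ∈ iner K w` such that `s ^ (p ^ a)` is trivial on
the `n`-torsion. Claim: `s` is trivial on the `n`-torsion.

Proof. (1) Choose `u ∈ Ω`, `u ≠ 0`, such that `A' = u ^ 4 A`, `B' = u ^ 6 B` are in `w` and one of them has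
absolute value `1`: `A ≠ 0` or `B ≠ 0`; if `|A| ^ 3 ≥ |B| ^ 2` take `u ^ 4 = A⁻¹`, otherwise `u ^ 6 = B⁻¹`
(`Ω` separably closed, `p ≥ 5`). Let `c` be a root of `3 c ^ 2 + A'`.
(2) Let `L` be a finite Galois extension of `K` in `Ω` which contains `u`, `c` and the coordinates of the
`n`-torsion points (finitely many points, `E(Ω)[n]` is finite). Let `m p ^ b` (`p ∤ m`) be the order of
`s` on `L`, choose `m'` with `m' ≡ 1` modulo `p ^ a` and `m ∣ m'`, `τ = s ^ m'`. Then `τ` acts on the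
`n`-torsion as `s`, and `τ ^ (p ^ b)` is trivial on `L`.
(3) For `z ∈ L`, `z ≠ 0`: `θ(τ) = τ z / z` modulo the maximal ideal is a homomorphism on `iner K w`
(`τ τ' z / z = τ (τ' z / z) (τ z / z)`, and `τ` is trivial on the residue field), `θ ^ (p ^ b) = 1`, so `θ = 1`
as the residue field has characteristic `p`: `|τ z - z| < |z|`.
(4) `τ u = u`: `(τ u / u) ^ 12 = 1` (it is a fourth or a sixth root of unity), `τ u / u ≡ 1`, and the
twelfth roots of unity are different modulo the maximal ideal (`p ≥ 5`). So `τ` preserves `A'`, `B'`.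
(5) Let `P = (x, y)`, `n P = O`, `P' = (u ^ 2 x, u ^ 3 y)` on the curve with `A'`, `B'` (`ScaleRel` in
`SM/E/TwistIso`). `P'` is integral (`int_of_tors`), so `τ P' - P' ∈ EE` by `wild_near`; it is a torsion
point, so `τ P' = P'` (`eq_zero_of_EE`), `τ P = P`.
-/

set_option autoImplicit false

open WeierstrassCurve
open scoped WeierstrassCurve.Affine

namespace Pool.Agent.SmL.E

open Pool.Agent.Lib.SmD

private theorem tameE_prod {K Ω : Type} [Field K] [Field Ω] [Algebra K Ω] (τ : Ω ≃ₐ[K] Ω) {z : Ω}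
    (hz : z ≠ 0) (j : ℕ) :
    (∏ i ∈ Finset.range j, (τ ^ i) (τ z / z)) * z = (τ ^ j) z := by
  induction j with
  | zero => simp
  | succ j ih =>
    rw [Finset.prod_range_succ, pow_succ, AlgEquiv.mul_apply, map_div₀, mul_right_comm, ih]
    have h1 : (τ ^ j) z ≠ 0 := by
      intro h
      exact hz ((map_eq_zero_iff _ (τ ^ j).injective).1 h)
    field_simp

private theorem tameE_lt {K Ω : Type} [Field K] [Field Ω] [Algebra K Ω] {w : ValuationSubring Ω}
    {τ : Ω ≃ₐ[K] Ω} (hτ : τ ∈ dec K w) {r : Ω} (hr : w.valuation r < 1) (j : ℕ) :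
    w.valuation (∏ i ∈ Finset.range (j + 1), (τ ^ i) r) < 1 := by
  induction j with
  | zero => simpa using hr
  | succ j ih =>
    rw [Finset.prod_range_succ, map_mul]
    exact mul_lt_one_of_lt_of_le ih ((dec_val_lt K ((dec K w).pow_mem hτ _) r).2 hr).le

private theorem tameE_unit {K Ω : Type} [Field K] [Field Ω] [Algebra K Ω]
    {w : ValuationSubring Ω} {τ : Ω ≃ₐ[K] Ω} (hτ : τ ∈ dec K w) {z : Ω} (hz : z ≠ 0) {N : ℕ}
    (hN : 0 < N) (h : (τ ^ N) z = z) : w.valuation (τ z / z) = 1 := by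
  obtain ⟨j, rfl⟩ : ∃ j, N = j + 1 := ⟨N - 1, by omega⟩
  have h1 := tameE_prod τ hz (j + 1)
  rw [h] at h1
  have h2 : ∏ i ∈ Finset.range (j + 1), (τ ^ i) (τ z / z) = 1 :=
    mul_right_cancel₀ hz (by rw [h1, one_mul])
  have hr0 : τ z / z ≠ 0 := by
    refine div_ne_zero ?_ hz
    intro h'
    exact hz ((map_eq_zero_iff _ τ.injective).1 h')
  rcases lt_trichotomy (w.valuation (τ z / z)) 1 with h3 | h3 | h3
  · have := tameE_lt hτ h3 j
    rw [h2, map_one] at this
    exact absurd this (lt_irrefl _)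
  · exact h3
  · have h4 : w.valuation (τ z / z)⁻¹ < 1 := by
      rw [map_inv₀]
      exact inv_lt_one_of_one_lt₀ h3
    have := tameE_lt hτ h4 j
    have h5 : ∏ i ∈ Finset.range (j + 1), (τ ^ i) (τ z / z)⁻¹ = 1 := by
      have : ∏ i ∈ Finset.range (j + 1), (τ ^ i) (τ z / z)⁻¹ =
          (∏ i ∈ Finset.range (j + 1), (τ ^ i) (τ z / z))⁻¹ := by
        rw [← Finset.prod_inv_distrib]
        exact Finset.prod_congr rfl fun i _ => map_inv₀ _ _
      rw [this, h2, inv_one]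
    rw [h5, map_one] at this
    exact absurd this (lt_irrefl _)

private theorem tameE_pow {K Ω : Type} [Field K] [Field Ω] [Algebra K Ω]
    {w : ValuationSubring Ω} {τ : Ω ≃ₐ[K] Ω} (hτ : τ ∈ iner K w) {r : Ω} (hr : w.valuation r = 1)
    (j : ℕ) : w.valuation (∏ i ∈ Finset.range j, (τ ^ i) r - r ^ j) < 1 := by
  have hrw : r ∈ w := (ValuationSubring.valuation_le_one_iff w r).1 hr.le
  induction j with
  | zero => simp
  | succ j ih =>
    rw [Finset.prod_range_succ, pow_succ]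
    have h1 : (∏ i ∈ Finset.range j, (τ ^ i) r) * (τ ^ j) r - r ^ j * r =
        (∏ i ∈ Finset.range j, (τ ^ i) r - r ^ j) * (τ ^ j) r + r ^ j * ((τ ^ j) r - r) := by
      ring
    have h2 : w.valuation ((τ ^ j) r) = 1 :=
      (dec_val_eq K ((dec K w).pow_mem hτ.1 _) r).2 hr
    have h3 : w.valuation ((τ ^ j) r - r) < 1 := ((iner K w).pow_mem hτ j).2 r hrw
    rw [h1]
    refine lt_of_le_of_lt (w.valuation.map_add _ _) (max_lt ?_ ?_)
    · rw [map_mul, h2, mul_one]
      exact ih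
    · rw [map_mul, map_pow, hr, one_pow, one_mul]
      exact h3

/-- wild inertia moves nonzero elements by less than their absolute value -/
private theorem tameE_move {K Ω : Type} [Field K] [Field Ω] [Algebra K Ω] {p : ℕ} [Fact p.Prime]
    [CharP K p] {w : ValuationSubring Ω} {τ : Ω ≃ₐ[K] Ω} (hτ : τ ∈ iner K w) {z : Ω}
    (hz : z ≠ 0) {b : ℕ} (h : (τ ^ p ^ b) z = z) :
    w.valuation (τ z / z - 1) < 1 := by
  have : CharP Ω p := charP_of_injective_algebraMap (algebraMap K Ω).injective p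
  have hp : 0 < p ^ b := pow_pos (Fact.out : p.Prime).pos b
  have h1 := tameE_unit hτ.1 hz hp h
  have h2 := tameE_pow hτ h1 (p ^ b)
  have h3 := tameE_prod τ hz (p ^ b)
  rw [h] at h3
  have h4 : ∏ i ∈ Finset.range (p ^ b), (τ ^ i) (τ z / z) = 1 :=
    mul_right_cancel₀ hz (by rw [h3, one_mul])
  rw [h4, w.valuation.map_sub_swap] at h2
  have h5 : (τ z / z) ^ p ^ b - 1 = (τ z / z - 1) ^ p ^ b := by
    rw [sub_pow_char_pow, one_pow]
  rw [h5, map_pow] at h2
  exact (pow_lt_one_iff hp.ne').1 h2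

private theorem tameE_card {K Ω : Type} [Field K] [Field Ω] [Algebra K Ω] {p : ℕ} [Fact p.Prime]
    [CharP Ω p] (w : ValuationSubring Ω) {m : ℕ} (hm : ¬ p ∣ m) : w.valuation (m : Ω) = 1 := by
  have hp : p.Prime := Fact.out
  have h0 : (m : ZMod p) ≠ 0 := by
    rw [Ne, ZMod.natCast_eq_zero_iff]
    exact hm
  have h1 : (m : ZMod p) ^ (p - 1) = 1 := ZMod.pow_card_sub_one_eq_one h0
  have h2 : (m : Ω) ^ (p - 1) = 1 := by
    have := congrArg (ZMod.castHom (dvd_refl p) Ω) h1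
    simpa using this
  have h3 : w.valuation (m : Ω) ^ (p - 1) = 1 := by
    rw [← map_pow, h2, map_one]
  have h4 : p - 1 ≠ 0 := by
    have := hp.two_le
    omega
  exact (pow_eq_one_iff.1 h3).resolve_right h4

private theorem tameE_scale {K Ω : Type} [Field K] [Field Ω] [Algebra K Ω] [IsSepClosed Ω] {p : ℕ}
    [CharP Ω p] (hp : 5 ≤ p) [Fact p.Prime] (w : ValuationSubring Ω) (A B : K)
    (h : A ≠ 0 ∨ B ≠ 0) :
    ∃ u : Ω, u ≠ 0 ∧ (∃ t : K, u ^ 12 = algebraMap K Ω t) ∧ u ^ 4 * algebraMap K Ω A ∈ w ∧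
      u ^ 6 * algebraMap K Ω B ∈ w ∧ (w.valuation (u ^ 4 * algebraMap K Ω A) = 1 ∨
        w.valuation (u ^ 6 * algebraMap K Ω B) = 1) := by
  have hpP : p.Prime := Fact.out
  have hne : ∀ m : ℕ, ¬ p ∣ m → (m : Ω) ≠ 0 := fun m hm h0 =>
    hm ((CharP.cast_eq_zero_iff Ω p m).1 h0)
  rcases le_or_gt (w.valuation (algebraMap K Ω B) ^ 2) (w.valuation (algebraMap K Ω A) ^ 3) with
    h1 | h1
  · have hA : A ≠ 0 := by
      rintro rfl
      rcases h with h | h
      · exact h rfl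
      · rw [map_zero, map_zero, zero_pow (by norm_num), le_zero_iff, pow_eq_zero_iff (by norm_num),
          Valuation.zero_iff, map_eq_zero] at h1
        exact h h1
    have hA' : algebraMap K Ω A ≠ 0 := (map_ne_zero _).2 hA
    have : NeZero ((4 : ℕ) : Ω) := ⟨hne 4 fun hd => by
      have := Nat.le_of_dvd (by norm_num) hd
      omega⟩
    obtain ⟨u, hu⟩ := IsSepClosed.exists_pow_nat_eq (algebraMap K Ω A)⁻¹ 4
    have hu0 : u ≠ 0 := by
      rintro rfl
      rw [zero_pow (by norm_num)] at hu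
      exact inv_ne_zero hA' hu.symm
    have e1 : u ^ 4 * algebraMap K Ω A = 1 := by
      rw [hu, inv_mul_cancel₀ hA']
    refine ⟨u, hu0, ⟨A⁻¹ ^ 3, ?_⟩, ?_, ?_, Or.inl ?_⟩
    · rw [map_pow, map_inv₀, ← hu]
      ring
    · rw [e1]
      exact w.one_mem
    · rw [← ValuationSubring.valuation_le_one_iff]
      have e2 : w.valuation (u ^ 6 * algebraMap K Ω B) ^ 2 ≤ 1 := by
        have e3 : w.valuation (u ^ 6 * algebraMap K Ω B) ^ 2 =
            (w.valuation (algebraMap K Ω A) ^ 3)⁻¹ * w.valuation (algebraMap K Ω B) ^ 2 := by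
          rw [← map_pow w.valuation (u ^ 6 * algebraMap K Ω B),
            ← map_pow w.valuation (algebraMap K Ω A), ← map_pow w.valuation (algebraMap K Ω B),
            ← map_inv₀ w.valuation, ← map_mul w.valuation]
          congr 1
          rw [← inv_pow, ← hu]
          ring
        have e4 : w.valuation (algebraMap K Ω A) ^ 3 ≠ 0 :=
          pow_ne_zero _ ((Valuation.ne_zero_iff _).2 hA')
        rw [e3]
        calc (w.valuation (algebraMap K Ω A) ^ 3)⁻¹ * w.valuation (algebraMap K Ω B) ^ 2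
            ≤ (w.valuation (algebraMap K Ω A) ^ 3)⁻¹ * w.valuation (algebraMap K Ω A) ^ 3 :=
              mul_le_mul_right h1 _
          _ = 1 := inv_mul_cancel₀ e4
      exact (pow_le_one_iff (by norm_num)).1 e2
    · rw [e1, map_one]
  · have hB : B ≠ 0 := by
      rintro rfl
      rw [map_zero, map_zero, zero_pow (by norm_num)] at h1
      exact not_lt_zero h1
    have hB' : algebraMap K Ω B ≠ 0 := (map_ne_zero _).2 hB
    have : NeZero ((6 : ℕ) : Ω) := ⟨hne 6 fun hd => by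
      have h6 : p ∣ 2 * 3 := by simpa using hd
      rcases hpP.dvd_mul.1 h6 with h7 | h7
      · have := Nat.le_of_dvd (by norm_num) h7
        omega
      · have := Nat.le_of_dvd (by norm_num) h7
        omega⟩
    obtain ⟨u, hu⟩ := IsSepClosed.exists_pow_nat_eq (algebraMap K Ω B)⁻¹ 6
    have hu0 : u ≠ 0 := by
      rintro rfl
      rw [zero_pow (by norm_num)] at hu
      exact inv_ne_zero hB' hu.symm
    have e1 : u ^ 6 * algebraMap K Ω B = 1 := by
      rw [hu, inv_mul_cancel₀ hB']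
    refine ⟨u, hu0, ⟨B⁻¹ ^ 2, ?_⟩, ?_, ?_, Or.inr ?_⟩
    · rw [map_pow, map_inv₀, ← hu]
      ring
    · rw [← ValuationSubring.valuation_le_one_iff]
      have e2 : w.valuation (u ^ 4 * algebraMap K Ω A) ^ 3 ≤ 1 := by
        have e3 : w.valuation (u ^ 4 * algebraMap K Ω A) ^ 3 =
            (w.valuation (algebraMap K Ω B) ^ 2)⁻¹ * w.valuation (algebraMap K Ω A) ^ 3 := by
          rw [← map_pow w.valuation (u ^ 4 * algebraMap K Ω A),
            ← map_pow w.valuation (algebraMap K Ω B), ← map_pow w.valuation (algebraMap K Ω A),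
            ← map_inv₀ w.valuation, ← map_mul w.valuation]
          congr 1
          rw [← inv_pow, ← hu]
          ring
        have e4 : w.valuation (algebraMap K Ω B) ^ 2 ≠ 0 :=
          pow_ne_zero _ ((Valuation.ne_zero_iff _).2 hB')
        rw [e3]
        calc (w.valuation (algebraMap K Ω B) ^ 2)⁻¹ * w.valuation (algebraMap K Ω A) ^ 3
            ≤ (w.valuation (algebraMap K Ω B) ^ 2)⁻¹ * w.valuation (algebraMap K Ω B) ^ 2 :=
              mul_le_mul_right h1.le _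
          _ = 1 := inv_mul_cancel₀ e4
      exact (pow_le_one_iff (by norm_num)).1 e2
    · rw [e1]
      exact w.one_mem
    · rw [e1, map_one]

/-- some power of `s` is trivial on a given finite set -/
private theorem tameE_level {K Ω : Type} [Field K] [Field Ω] [Algebra K Ω] [IsGalois K Ω]
    (s : Ω ≃ₐ[K] Ω) (S : Set Ω) (hS : S.Finite) :
    ∃ (L : IntermediateField K Ω) (N : ℕ), S ⊆ L ∧ 0 < N ∧ ∀ z ∈ L, (s ^ N) z = z := by
  have hfin : FiniteDimensional K (IntermediateField.adjoin K S) := by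
    have := hS.to_subtype
    exact IntermediateField.finiteDimensional_adjoin fun z _ =>
      (Algebra.IsAlgebraic.isAlgebraic z).isIntegral
  let L := IntermediateField.normalClosure K (IntermediateField.adjoin K S) Ω
  have hL1 : FiniteDimensional K L := normalClosure.is_finiteDimensional K _ Ω
  have hL2 : Normal K L := normalClosure.normal K _ Ω
  have hle : IntermediateField.adjoin K S ≤ L := IntermediateField.le_normalClosure _
  refine ⟨L, Nat.card (L ≃ₐ[K] L), fun z hz => hle (IntermediateField.subset_adjoin _ _ hz),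
    Nat.card_pos, fun z hz => ?_⟩
  have h1 : AlgEquiv.restrictNormalHom L (s ^ Nat.card (L ≃ₐ[K] L)) = 1 := by
    rw [map_pow, pow_card_eq_one']
  have h2 := AlgEquiv.restrictNormal_commutes (s ^ Nat.card (L ≃ₐ[K] L)) L ⟨z, hz⟩
  have h3 : (s ^ Nat.card (L ≃ₐ[K] L)).restrictNormal L ⟨z, hz⟩ = ⟨z, hz⟩ := by
    have := congrArg (fun f => f ⟨z, hz⟩) h1
    exact this
  rw [h3] at h2
  exact h2.symm

theorem tame_fix {K Ω : Type} [Field K] [Field Ω] [DecidableEq Ω] [Algebra K Ω]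
    [IsSepClosure K Ω] {p : ℕ} [Fact p.Prime] [CharP K p] (hp : 5 ≤ p) (W : WeierstrassCurve K)
    [W.IsElliptic] (h1 : W.a₁ = 0) (h2 : W.a₂ = 0) (h3 : W.a₃ = 0) {w : ValuationSubring Ω}
    {n : ℕ} (hn : ¬ p ∣ n) {s : Ω ≃ₐ[K] Ω} (hs : s ∈ iner K w) {a : ℕ}
    (h : ∀ P : (W⁄Ω).Point, n • P = 0 → gE W (s ^ p ^ a) P = P) (P : (W⁄Ω).Point)
    (hP : n • P = 0) : gE W s P = P := by
  have hpP : p.Prime := Fact.out
  have hcΩ : CharP Ω p := charP_of_injective_algebraMap (algebraMap K Ω).injective p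
  have hsc : IsSepClosed Ω := IsSepClosure.sep_closed K
  rcases P with _ | ⟨x, y, hxy⟩
  · exact gE_zero s
  have hAB : W.a₄ ≠ 0 ∨ W.a₆ ≠ 0 := by
    by_contra hcon
    push Not at hcon
    apply W.isUnit_Δ.ne_zero
    rw [WeierstrassCurve.Δ, WeierstrassCurve.b₂, WeierstrassCurve.b₄, WeierstrassCurve.b₆,
      WeierstrassCurve.b₈, h1, h2, h3, hcon.1, hcon.2]
    ring
  obtain ⟨u, hu0, ⟨t, hut⟩, mA, mB, hAB1⟩ := tameE_scale hp w W.a₄ W.a₆ hAB
  have v2 : w.valuation (2 : Ω) = 1 := by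
    have := tameE_card (K := K) w (p := p) (m := 2) (fun hd => by
      have := Nat.le_of_dvd (by norm_num) hd
      omega)
    simpa using this
  have v3 : w.valuation (3 : Ω) = 1 := by
    have := tameE_card (K := K) w (p := p) (m := 3) (fun hd => by
      have := Nat.le_of_dvd (by norm_num) hd
      omega)
    simpa using this
  have hne3 : (3 : Ω) ≠ 0 := by
    intro h0
    rw [h0, map_zero] at v3
    exact zero_ne_one v3
  have hne2 : (2 : Ω) ≠ 0 := by
    intro h0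
    rw [h0, map_zero] at v2
    exact zero_ne_one v2
  have : NeZero ((2 : ℕ) : Ω) := ⟨by simpa using hne2⟩
  obtain ⟨c, hc⟩ := IsSepClosed.exists_pow_nat_eq (-(u ^ 4 * algebraMap K Ω W.a₄) / 3) 2
  obtain ⟨L, N, hSL, hN, hsN⟩ := tameE_level s {u, c, x, y} (Set.toFinite _)
  -- the tame part
  obtain ⟨b, m, hm, rfl⟩ := Nat.exists_eq_pow_mul_and_not_dvd hN.ne' p hpP.ne_one
  have hm0 : 0 < m := Nat.pos_of_ne_zero (by
    rintro rfl
    exact hm (dvd_zero _))
  have hco : Nat.Coprime m (p ^ a) := (Nat.Coprime.pow_left a ((hpP.coprime_iff_not_dvd).2 hm)).symm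
  obtain ⟨k, hk0, hk1⟩ := Nat.chineseRemainder hco 0 1
  have hmk : m ∣ k + m * p ^ a := by
    refine dvd_add ((Nat.modEq_zero_iff_dvd).1 hk0) (dvd_mul_right _ _)
  obtain ⟨j, hj⟩ : ∃ j, k + m * p ^ a = p ^ a * j + 1 := by
    have hpos : 1 ≤ k + m * p ^ a := by
      have : 0 < m * p ^ a := Nat.mul_pos hm0 (pow_pos hpP.pos a)
      omega
    have h5 : 1 ≡ k + m * p ^ a [MOD p ^ a] := by
      have : k + m * p ^ a ≡ 1 + 0 [MOD p ^ a] :=
        Nat.ModEq.add hk1 ((Nat.modEq_zero_iff_dvd).2 (dvd_mul_left _ _))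
      simpa using this.symm
    obtain ⟨j, hj⟩ := (Nat.modEq_iff_dvd' hpos).1 h5
    exact ⟨j, by omega⟩
  obtain ⟨e, he⟩ := hmk
  set τ : Ω ≃ₐ[K] Ω := s ^ (k + m * p ^ a) with hτdef
  have hτ : τ ∈ iner K w := (iner K w).pow_mem hs _
  have hfix : ∀ z ∈ L, (τ ^ p ^ b) z = z := by
    intro z hz
    have e1 : τ ^ p ^ b = (s ^ (p ^ b * m)) ^ e := by
      rw [hτdef, he, ← pow_mul, ← pow_mul]
      congr 1
      ring
    rw [e1]
    have : ∀ i : ℕ, ((s ^ (p ^ b * m)) ^ i) z = z := by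
      intro i
      induction i with
      | zero => simp
      | succ i ih => rw [pow_succ, AlgEquiv.mul_apply, hsN z hz, ih]
    exact this e
  have hmove : ∀ z ∈ L.toSubfield, z ≠ 0 →
      w.valuation ((τ : Ω ≃+* Ω) z - z) < w.valuation z := by
    intro z hz hz0
    have h5 := tameE_move (p := p) hτ hz0 (hfix z hz)
    have h6 : (τ : Ω ≃+* Ω) z - z = z * (τ z / z - 1) := by
      rw [mul_sub, mul_div_cancel₀ _ hz0, mul_one]
      rfl
    rw [h6, map_mul]
    exact mul_lt_of_lt_one_right ((Valuation.pos_iff _).2 hz0) h5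
  have hτu : τ u = u := by
    have h5 := tameE_move (p := p) hτ hu0 (hfix u (hSL (by simp)))
    set r := τ u / u with hr
    have h6 : r ^ 12 = 1 := by
      rw [hr, div_pow, ← map_pow, hut, AlgEquiv.commutes, ← hut, div_self (pow_ne_zero _ hu0)]
    have hr1 : w.valuation r = 1 := by
      have : w.valuation r ^ 12 = 1 := by rw [← map_pow, h6, map_one]
      exact (pow_eq_one_iff.1 this).resolve_right (by norm_num)
    have hrw : r ∈ w := (ValuationSubring.valuation_le_one_iff w r).1 hr1.le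
    have h7 : (r - 1) * ((r - 1) * (r ^ 10 + 2 * r ^ 9 + 3 * r ^ 8 + 4 * r ^ 7 + 5 * r ^ 6 +
        6 * r ^ 5 + 7 * r ^ 4 + 8 * r ^ 3 + 9 * r ^ 2 + 10 * r + 11) + 12) = 0 := by
      have : (r - 1) * ((r - 1) * (r ^ 10 + 2 * r ^ 9 + 3 * r ^ 8 + 4 * r ^ 7 + 5 * r ^ 6 +
        6 * r ^ 5 + 7 * r ^ 4 + 8 * r ^ 3 + 9 * r ^ 2 + 10 * r + 11) + 12) = r ^ 12 - 1 := by
        ring
      rw [this, h6, sub_self]
    have v12 : w.valuation (12 : Ω) = 1 := by
      have : (12 : Ω) = 2 * 2 * 3 := by norm_num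
      rw [this, map_mul, map_mul, v2, v3]
      simp
    have hq : r ^ 10 + 2 * r ^ 9 + 3 * r ^ 8 + 4 * r ^ 7 + 5 * r ^ 6 +
        6 * r ^ 5 + 7 * r ^ 4 + 8 * r ^ 3 + 9 * r ^ 2 + 10 * r + 11 ∈ w := by
      have hnat : ∀ i : ℕ, (i : Ω) ∈ w := fun i => natCast_mem w i
      have hmul : ∀ i j : ℕ, (i : Ω) * r ^ j ∈ w := fun i j =>
        w.mul_mem _ _ (hnat i) (pow_mem hrw j)
      have := w.add_mem _ _ (w.add_mem _ _ (w.add_mem _ _ (w.add_mem _ _ (w.add_mem _ _
        (w.add_mem _ _ (w.add_mem _ _ (w.add_mem _ _ (w.add_mem _ _ (w.add_mem _ _ (hmul 1 10)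
        (hmul 2 9)) (hmul 3 8)) (hmul 4 7)) (hmul 5 6)) (hmul 6 5)) (hmul 7 4)) (hmul 8 3))
        (hmul 9 2)) (hmul 10 1)) (hmul 11 0)
      simpa using this
    have h8 : w.valuation ((r - 1) * (r ^ 10 + 2 * r ^ 9 + 3 * r ^ 8 + 4 * r ^ 7 + 5 * r ^ 6 +
        6 * r ^ 5 + 7 * r ^ 4 + 8 * r ^ 3 + 9 * r ^ 2 + 10 * r + 11) + 12) = 1 := by
      have hlt : w.valuation ((r - 1) * (r ^ 10 + 2 * r ^ 9 + 3 * r ^ 8 + 4 * r ^ 7 +
          5 * r ^ 6 + 6 * r ^ 5 + 7 * r ^ 4 + 8 * r ^ 3 + 9 * r ^ 2 + 10 * r + 11)) <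
          w.valuation (12 : Ω) := by
        rw [v12, map_mul]
        exact mul_lt_one_of_lt_of_le h5 ((ValuationSubring.valuation_le_one_iff w _).2 hq)
      rw [Valuation.map_add_eq_of_lt_right _ hlt, v12]
    rcases mul_eq_zero.1 h7 with h9 | h9
    · have h10 : r = 1 := sub_eq_zero.1 h9
      rw [hr, div_eq_one_iff_eq hu0] at h10
      exact h10
    · rw [h9, map_zero] at h8
      exact absurd h8 zero_ne_one
  -- the scaled curve
  let W' : WeierstrassCurve Ω :=
    ⟨0, 0, 0, u ^ 4 * algebraMap K Ω W.a₄, u ^ 6 * algebraMap K Ω W.a₆⟩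
  have hsr : Pool.Agent.SmithE.ScaleRel (W⁄Ω) W'.toAffine u := by
    refine ⟨hu0, ?_, ?_, rfl, rfl, ?_, rfl, rfl⟩
    · change algebraMap K Ω W.a₁ = 0
      rw [h1, map_zero]
    · change algebraMap K Ω W.a₃ = 0
      rw [h3, map_zero]
    · change (0 : Ω) = u ^ 2 * algebraMap K Ω W.a₂
      rw [h2, map_zero, mul_zero]
  have hell : W'.IsElliptic := by
    refine ⟨?_⟩
    rw [isUnit_iff_ne_zero]
    have e1 : W'.Δ = u ^ 12 * algebraMap K Ω W.Δ := by
      rw [WeierstrassCurve.Δ, WeierstrassCurve.b₂, WeierstrassCurve.b₄, WeierstrassCurve.b₆,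
        WeierstrassCurve.b₈, WeierstrassCurve.Δ, WeierstrassCurve.b₂, WeierstrassCurve.b₄,
        WeierstrassCurve.b₆, WeierstrassCurve.b₈, h1, h2, h3]
      simp only [W', map_add, map_sub, map_mul, map_neg, map_pow, map_zero, map_ofNat]
      ring
    rw [e1]
    exact mul_ne_zero (pow_ne_zero _ hu0) ((map_ne_zero _).2 W.isUnit_Δ.ne_zero)
  have hI : IntC W' w := ⟨rfl, rfl, v2, w.zero_mem, mA, mB⟩
  have hnv : w.valuation (n : Ω) = 1 := tameE_card (K := K) w hn
  have e1 : n • hsr.hom (.some x y hxy) = 0 := by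
    rw [← map_nsmul, hP, map_zero]
  have hx'w : u ^ 2 * x ∈ w := (int_of_tors hI hnv (hsr.nonsingular hxy) e1).1
  have hτP : gE W τ (.some x y hxy) = gE W s (.some x y hxy) := by
    have e2 : τ = s * (s ^ p ^ a) ^ j := by
      rw [hτdef, hj, pow_succ', pow_mul]
    rw [e2, gE_mul]
    congr 1
    have : ∀ i : ℕ, gE W ((s ^ p ^ a) ^ i) (.some x y hxy) = .some x y hxy := by
      intro i
      induction i with
      | zero => exact gE_one _
      | succ i ih => rw [pow_succ, gE_mul, h _ hP, ih]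
    exact this j
  have hns' : W'.toAffine.Nonsingular ((τ : Ω ≃+* Ω) (u ^ 2 * x)) ((τ : Ω ≃+* Ω) (u ^ 3 * y)) := by
    have e2 := hsr.nonsingular (ns_act τ hxy)
    have e3 : (τ : Ω ≃+* Ω) (u ^ 2 * x) = u ^ 2 * τ x := by
      change τ (u ^ 2 * x) = _
      rw [map_mul, map_pow, hτu]
    have e4 : (τ : Ω ≃+* Ω) (u ^ 3 * y) = u ^ 3 * τ y := by
      change τ (u ^ 3 * y) = _
      rw [map_mul, map_pow, hτu]
    rw [e3, e4]
    exact e2
  have muL : u ∈ L := hSL (by simp)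
  have mxL : x ∈ L := hSL (by simp)
  have myL : y ∈ L := hSL (by simp)
  have hgoal := wild_near hI rfl v3 hAB1 (σ := (τ : Ω ≃+* Ω))
    (by
      change τ (u ^ 4 * algebraMap K Ω W.a₄) = u ^ 4 * algebraMap K Ω W.a₄
      rw [map_mul, map_pow, hτu, AlgEquiv.commutes])
    (by
      change τ (u ^ 6 * algebraMap K Ω W.a₆) = u ^ 6 * algebraMap K Ω W.a₆
      rw [map_mul, map_pow, hτu, AlgEquiv.commutes])
    (fun z => (mem_dec K).1 hτ.1 z) hmove (c := c) (hSL (by simp))
    (by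
      change 3 * c ^ 2 + u ^ 4 * algebraMap K Ω W.a₄ = 0
      rw [hc]
      field_simp
      ring)
    (mul_mem (pow_mem muL 2) mxL) (mul_mem (pow_mem muL 3) myL)
    (hsr.nonsingular hxy) hns' hx'w
  have e5 : Affine.Point.some ((τ : Ω ≃+* Ω) (u ^ 2 * x)) ((τ : Ω ≃+* Ω) (u ^ 3 * y)) hns' =
      hsr.hom (gE W τ (.some x y hxy)) := by
    rw [gE_some, hsr.hom_some, Affine.Point.some.injEq]
    constructor
    · change τ (u ^ 2 * x) = _
      rw [map_mul, map_pow, hτu]
    · change τ (u ^ 3 * y) = _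
      rw [map_mul, map_pow, hτu]
  have e6 : Affine.Point.some (u ^ 2 * x) (u ^ 3 * y) (hsr.nonsingular hxy) =
      hsr.hom (.some x y hxy) := rfl
  rw [e5, e6, ← map_sub] at hgoal
  have e7 : n • (gE W τ (.some x y hxy) - .some x y hxy) = 0 := by
    rw [nsmul_sub, gE_tors τ hP, hP, sub_zero]
  have e8 := eq_zero_of_EE hI hnv hgoal (by rw [← map_nsmul, e7, map_zero])
  have e9 : gE W τ (.some x y hxy) - .some x y hxy = 0 := by
    have := hsr.hom_symm_hom (gE W τ (.some x y hxy) - .some x y hxy)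
    rw [e8, map_zero] at this
    exact this.symm
  rw [← hτP]
  exact sub_eq_zero.1 e9

end Pool.Agent.SmL.E
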