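import Pool.Agent.Lib.SmL.E.Act
import Pool.Agent.Lib.SmL.E.Near
import Pool.Agent.Lib.SmL.E.LocF
import Pool.Agent.Lib.GBU.Unr

/-!
# SMITH-L block E, module Triv: the inertia groups at the places of good reduction

`iner_tors`: `P = (x, y)`, `n P = O`, is integral (`int_of_tors`), so `|s x - x| < 1`, `|s y - y| < 1`, and
`n (s P) = O`: `s P = P` by `eq_of_near` (`|Δ| = 1`).
`triv_E`: for all but finitely many places `v` of `K` the coefficients are in `v.ring` and `Δ` is a unit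
(a nonzero element of `K` has finitely many zeros and poles: `G : Geo k K` or the library `GBU`); `2`,
`n` are units by `val_unit`. `LocGood` = the good places.
-/

set_option autoImplicit false

open WeierstrassCurve
open scoped WeierstrassCurve.Affine

namespace Pool.Agent.SmL.E

open Pool.Agent.Lib.SmD Pool.Agent.BSDFF

/-- Good reduction at `w`. -/
structure GoodW {K Ω : Type} [Field K] [Field Ω] [Algebra K Ω] (W : WeierstrassCurve K)
    (w : ValuationSubring Ω) : Prop extends IntC (W⁄Ω) w where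
  disc : w.valuation (algebraMap K Ω W.Δ) = 1

theorem iner_tors {K Ω : Type} [Field K] [Field Ω] [DecidableEq Ω] [Algebra K Ω]
    {W : WeierstrassCurve K} [W.IsElliptic] {w : ValuationSubring Ω} (hG : GoodW W w) {n : ℕ}
    (hn : w.valuation (n : Ω) = 1) {s : Ω ≃ₐ[K] Ω} (hs : s ∈ iner K w) {P : (W⁄Ω).Point}
    (hP : n • P = 0) : gE W s P = P := by
  rcases P with _ | ⟨x, y, h⟩
  · exact gE_zero s
  · obtain ⟨hx, hy⟩ := int_of_tors hG.toIntC hn h hP
    have e' : n • Affine.Point.some (s x) (s y) (ns_act s h) = 0 := gE_tors s hP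
    have hD : w.valuation (W⁄Ω).Δ = 1 := by
      rw [show (W⁄Ω).Δ = algebraMap K Ω W.Δ from W.map_Δ _]
      exact hG.disc
    have hs' := ((mem_iner K).mp hs).2
    obtain ⟨e1, e2⟩ := eq_of_near hG.toIntC hn h (ns_act s h) hP e'
      (by rw [hD]; exact hs' x hx) (by rw [hD]; exact hs' y hy)
    rw [gE_some, Affine.Point.some.injEq]
    exact ⟨e1, e2⟩

variable {k K Ω : Type} [Field k] [Finite k] [Field K] [Algebra k K] [Algebra (RatFunc k) K]
  [IsScalarTower k (RatFunc k) K] [FiniteDimensional (RatFunc k) K]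
  [Algebra.IsSeparable (RatFunc k) K] [Field Ω] [Algebra K Ω]
  (W : WeierstrassCurve K) [W.IsElliptic]

variable (k) in
/-- Almost all places are good. -/
theorem good_finite (h1 : W.a₁ = 0) (h3 : W.a₃ = 0) (h2 : (2 : k) ≠ 0) :
    ∃ T : Set (Place k K), T.Finite ∧ ∀ v ∉ T, ∀ w : ValuationSubring Ω, w ≠ ⊤ →
      below K w = v.ring → GoodW W w := by
  have key : ∀ c : K, ∃ T : Set (Place k K), T.Finite ∧ ∀ v ∉ T, ∀ w : ValuationSubring Ω,
      below K w = v.ring → c ≠ 0 → w.valuation (algebraMap K Ω c) = 1 := by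
    intro c
    rcases eq_or_ne c 0 with hc | hc
    · exact ⟨∅, Set.finite_empty, fun _ _ _ _ h => absurd hc h⟩
    · refine ⟨_, GBU.finite_nonunit_base (Om := Ω) k hc, fun v hv w hw _ => ?_⟩
      by_contra h
      exact hv ⟨w, hw, h⟩
  have mem : ∀ (c : K) (w : ValuationSubring Ω),
      (c ≠ 0 → w.valuation (algebraMap K Ω c) = 1) → algebraMap K Ω c ∈ w := by
    intro c w h
    rcases eq_or_ne c 0 with hc | hc
    · rw [hc, map_zero]
      exact w.zero_mem
    · exact (w.valuation_le_one_iff _).1 (h hc).le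
  obtain ⟨T2, f2, g2⟩ := key W.a₂
  obtain ⟨T4, f4, g4⟩ := key W.a₄
  obtain ⟨T6, f6, g6⟩ := key W.a₆
  obtain ⟨TD, fD, gD⟩ := key W.Δ
  refine ⟨((T2 ∪ T4) ∪ T6) ∪ TD, ((f2.union f4).union f6).union fD, fun v hv w _ hw => ?_⟩
  rw [Set.mem_union, Set.mem_union, Set.mem_union, not_or, not_or, not_or] at hv
  obtain ⟨⟨⟨v2, v4⟩, v6⟩, vD⟩ := hv
  refine ⟨⟨?_, ?_, ?_, mem _ _ (g2 v v2 w hw), mem _ _ (g4 v v4 w hw), mem _ _ (g6 v v6 w hw)⟩,
    gD v vD w hw W.isUnit_Δ.ne_zero⟩
  · change algebraMap K Ω W.a₁ = 0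
    rw [h1, map_zero]
  · change algebraMap K Ω W.a₃ = 0
    rw [h3, map_zero]
  · have h := GBU.val_const_of_finite ((algebraMap K Ω).comp (algebraMap k K)) w h2
    rwa [map_ofNat] at h

end Pool.Agent.SmL.E
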